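import Pool.Agent.Lib.MP_c05127_co.Spec

set_option linter.all false

/-! Module Hyp: the normal vector of a hyperplane which does not contain the origin. -/

open scoped Classical

namespace Pool.Agent.Lib.MP_c05127_co

theorem hypStmt : HypStmt := by
  intro d h hne hrank h0
  obtain ⟨x0, hx0⟩ := hne
  have hx0' : x0 ∈ h := hx0
  have hE : Module.finrank ℝ (E d) = d := by simp [E]
  -- a nonzero vector of the orthogonal complement of the direction
  have hadd := Submodule.finrank_add_finrank_orthogonal h.direction
  have h1 : Module.finrank ℝ (h.directionᗮ : Submodule ℝ (E d)) = 1 := by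
    rw [hE] at hadd
    omega
  obtain ⟨u, hu0, huspan⟩ := finrank_eq_one_iff'.1 h1
  have hu0' : (u : E d) ≠ 0 := by
    intro hc
    exact hu0 (Subtype.ext hc)
  have hdir : ∀ x : E d, x ∈ h.direction ↔ inner ℝ (u : E d) x = (0 : ℝ) := by
    intro x
    constructor
    · intro hx
      exact Submodule.inner_left_of_mem_orthogonal hx u.2
    · intro hx
      rw [← Submodule.orthogonal_orthogonal h.direction, Submodule.mem_orthogonal]
      intro w hw
      obtain ⟨c, hc⟩ := huspan ⟨w, hw⟩
      have hw' : w = c • (u : E d) := by
        have := congrArg (fun z : (h.directionᗮ : Submodule ℝ (E d)) => (z : E d)) hc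
        simpa using this.symm
      rw [hw', inner_smul_left, hx, mul_zero]
  have hmem : ∀ x : E d, x ∈ h ↔ x - x0 ∈ h.direction := by
    intro x
    have := AffineSubspace.vsub_left_mem_direction_iff_mem hx0' x
    rw [← this]
    rw [← Submodule.neg_mem_iff]
    simp
  have hne0 : inner ℝ (u : E d) x0 ≠ (0 : ℝ) := by
    intro hc
    apply h0
    rw [hmem, zero_sub, Submodule.neg_mem_iff, hdir]
    exact hc
  refine ⟨(inner ℝ (u : E d) x0 : ℝ)⁻¹ • (u : E d), ?_, ?_, ?_⟩
  · exact smul_ne_zero (inv_ne_zero hne0) hu0'
  · intro x
    rw [hmem, hdir, inner_smul_left, inner_sub_right, sub_eq_zero]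
    simp only [conj_trivial]
    constructor
    · intro hx
      rw [hx]
      exact inv_mul_cancel₀ hne0
    · intro hx
      field_simp at hx
      exact hx
  · intro x
    rw [hdir, inner_smul_left]
    simp only [conj_trivial]
    constructor
    · intro hx
      rw [hx, mul_zero]
    · intro hx
      rcases mul_eq_zero.1 hx with h2 | h2
      · exact absurd h2 (inv_ne_zero hne0)
      · exact h2

end Pool.Agent.Lib.MP_c05127_co
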