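import Pool.Agent.Lib.MP_c05127_co.Spec

set_option linter.all false

open scoped Classical

namespace Pool.Agent.Lib.MP_c05127_co.BU

open Pool.Agent.Lib.MP_c05127_co

/-- the linear map to `ℂ^{n+1}` -/
noncomputable def P {n : ℕ} (x : Fin (2 * n + 1) → ℂ) : Fin (n + 1) → ℂ :=
  fun i => ∑ j : Fin (2 * n + 1), if j.val / 2 = i.val then x j else 0

lemma continuous_P {n : ℕ} : Continuous (P : (Fin (2 * n + 1) → ℂ) → Fin (n + 1) → ℂ) := by
  unfold P
  refine continuous_pi fun i => continuous_finsetSum _ fun j _ => ?_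
  by_cases h : j.val / 2 = i.val
  · simp only [if_pos h]
    exact continuous_apply j
  · simp only [if_neg h]
    exact continuous_const

lemma P_mulOm {n : ℕ} (x : Fin (2 * n + 1) → ℂ) : P (mulOm x) = mulOm (P x) := by
  funext i
  unfold P mulOm
  rw [Finset.mul_sum]
  refine Finset.sum_congr rfl fun j _ => ?_
  split_ifs <;> simp

lemma two_zero {t t' : ℝ} (ht : 0 ≤ t) (ht' : 0 ≤ t') (a b : ℕ)
    (h : (t : ℂ) * om ^ a + (t' : ℂ) * om ^ b = 0) : t = 0 ∧ t' = 0 := by
  have h1 : (t : ℂ) * om ^ a = -((t' : ℂ) * om ^ b) := eq_neg_of_add_eq_zero_left h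
  have h2 : ((t : ℂ) * om ^ a) ^ 3 = (-((t' : ℂ) * om ^ b)) ^ 3 := by rw [h1]
  have e1 : ((t : ℂ) * om ^ a) ^ 3 = (t : ℂ) ^ 3 := by
    rw [mul_pow, ← pow_mul, mul_comm a 3, pow_mul, om_pow, one_pow, mul_one]
  have e2 : (-((t' : ℂ) * om ^ b)) ^ 3 = -(t' : ℂ) ^ 3 := by
    rw [neg_pow, mul_pow, ← pow_mul, mul_comm b 3, pow_mul, om_pow, one_pow, mul_one]
    ring
  rw [e1, e2] at h2
  have h3 : t ^ 3 = -t' ^ 3 := by exact_mod_cast h2
  have h4 : 0 ≤ t ^ 3 := by positivity
  have h5 : 0 ≤ t' ^ 3 := by positivity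
  constructor
  · have : t ^ 3 = 0 := by linarith
    exact pow_eq_zero_iff (by norm_num) |>.1 this
  · have : t' ^ 3 = 0 := by linarith
    exact pow_eq_zero_iff (by norm_num) |>.1 this

lemma P_ne {n : ℕ} {s : Fin (2 * n + 1) → ℕ} {x : Fin (2 * n + 1) → ℂ} (hx : x ∈ Cell s) :
    P x ≠ 0 := by
  obtain ⟨t, ht, hsum, hxt⟩ := hx
  intro h0
  have hall : ∀ j : Fin (2 * n + 1), t j = 0 := by
    intro j
    have hi : j.val / 2 < n + 1 := by have := j.2; omega
    have h1 := congrFun h0 ⟨j.val / 2, hi⟩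
    have h2 : (∑ k : Fin (2 * n + 1), if k.val / 2 = j.val / 2 then x k else 0) = 0 := h1
    by_cases hj : j.val = 2 * n
    · rw [Finset.sum_eq_single j] at h2
      · rw [if_pos rfl, hxt j] at h2
        have h3 : (t j : ℂ) = 0 := by
          rcases mul_eq_zero.1 h2 with h | h
          · exact h
          · exact absurd h (pow_ne_zero _ om_ne)
        exact_mod_cast h3
      · intro k _ hk
        rw [if_neg]
        intro hkj
        apply hk
        apply Fin.ext
        have := k.2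
        omega
      · intro h
        exact absurd (Finset.mem_univ _) h
    · have hj1 : j.val < 2 * n := by have := j.2; omega
      have ha : 2 * (j.val / 2) < 2 * n + 1 := by omega
      have hb : 2 * (j.val / 2) + 1 < 2 * n + 1 := by omega
      set a : Fin (2 * n + 1) := ⟨2 * (j.val / 2), ha⟩ with hadef
      set b : Fin (2 * n + 1) := ⟨2 * (j.val / 2) + 1, hb⟩ with hbdef
      have hab : a ≠ b := by
        intro h
        have := congrArg Fin.val h
        simp only [hadef, hbdef] at this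
        omega
      have h3 : (∑ k : Fin (2 * n + 1), if k.val / 2 = j.val / 2 then x k else 0) =
          ∑ k ∈ ({a, b} : Finset (Fin (2 * n + 1))), x k := by
        rw [← Finset.sum_filter]
        refine Finset.sum_congr ?_ fun _ _ => rfl
        ext k
        simp only [Finset.mem_filter, Finset.mem_univ, true_and, Finset.mem_insert,
          Finset.mem_singleton, Fin.ext_iff, hadef, hbdef]
        omega
      rw [h3, Finset.sum_pair hab, hxt a, hxt b] at h2
      obtain ⟨ta, tb⟩ := two_zero (ht a) (ht b) _ _ h2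
      have : j = a ∨ j = b := by
        rcases Nat.even_or_odd' j.val with ⟨c, hc | hc⟩
        · left; apply Fin.ext; simp only [hadef]; omega
        · right; apply Fin.ext; simp only [hbdef]; omega
      rcases this with h | h
      · rw [h]; exact ta
      · rw [h]; exact tb
  rw [Finset.sum_eq_zero (fun j _ => hall j)] at hsum
  exact zero_ne_one hsum

/-- all cells -/
def K (M : ℕ) : Set (Fin M → ℂ) := {x | ∃ s, x ∈ Cell s}

lemma K_eq (M : ℕ) : K M = ⋃ s : Fin M → Fin 3, Cell (fun j => (s j).val) := by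
  ext x
  simp only [K, Set.mem_setOf_eq, Set.mem_iUnion]
  constructor
  · rintro ⟨s, t, ht, hsum, hx⟩
    refine ⟨fun j => ⟨s j % 3, Nat.mod_lt _ (by norm_num)⟩, t, ht, hsum, fun j => ?_⟩
    rw [hx j]
    congr 1
    conv_lhs => rw [← Nat.div_add_mod (s j) 3]
    rw [pow_add, pow_mul, om_pow, one_pow, one_mul]
  · rintro ⟨s, h⟩
    exact ⟨_, h⟩

lemma Cell_compact {M : ℕ} (s : Fin M → ℕ) : IsCompact (Cell s) := by
  have : Cell s = (fun (t : Fin M → ℝ) (j : Fin M) => (t j : ℂ) * om ^ s j) '' stdSimplex ℝ (Fin M) := by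
    ext x
    constructor
    · rintro ⟨t, ht, hsum, hx⟩
      exact ⟨t, ⟨ht, hsum⟩, by funext j; exact (hx j).symm⟩
    · rintro ⟨t, ⟨ht, hsum⟩, hx⟩
      exact ⟨t, ht, hsum, fun j => by rw [← hx]⟩
  rw [this]
  apply (isCompact_stdSimplex ℝ (Fin M)).image
  refine continuous_pi fun j => ?_
  exact (Complex.continuous_ofReal.comp (continuous_apply j)).mul continuous_const

lemma K_compact (M : ℕ) : IsCompact (K M) := by
  rw [K_eq]
  exact isCompact_iUnion fun s => Cell_compact _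

lemma K_nonempty {M : ℕ} (hM : 0 < M) : (K M).Nonempty := by
  refine ⟨Pi.single ⟨0, hM⟩ 1, fun _ => 0, Pi.single ⟨0, hM⟩ 1, ?_, ?_, ?_⟩
  · intro j
    by_cases h : j = ⟨0, hM⟩
    · rw [h, Pi.single_eq_same]; norm_num
    · rw [Pi.single_eq_of_ne h]
  · rw [Finset.sum_pi_single']
    simp
  · intro j
    by_cases h : j = ⟨0, hM⟩
    · rw [h, Pi.single_eq_same, Pi.single_eq_same]; norm_num
    · rw [Pi.single_eq_of_ne h, Pi.single_eq_of_ne h]; simp

lemma mulOm_Cell {M : ℕ} {s : Fin M → ℕ} {x : Fin M → ℂ} (h : x ∈ Cell s) :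
    mulOm x ∈ Cell (fun j => s j + 1) := by
  obtain ⟨t, ht, hsum, hx⟩ := h
  refine ⟨t, ht, hsum, fun j => ?_⟩
  unfold mulOm
  rw [hx j, pow_succ]
  ring

lemma dist_mulOm {M : ℕ} (x y : Fin M → ℂ) : dist (mulOm x) (mulOm y) ≤ dist x y := by
  rw [dist_pi_le_iff dist_nonneg]
  intro j
  unfold mulOm
  rw [dist_eq_norm, ← mul_sub, norm_mul, norm_om, one_mul, ← dist_eq_norm]
  exact dist_le_pi_dist x y j

end Pool.Agent.Lib.MP_c05127_co.BU

namespace Pool.Agent.Lib.MP_c05127_co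

open BU

theorem buStmt (h1 : SmallStmt) (h2 : DescStmt) (h3 : SecStmt) : BUStmt := by
  intro n e g he hg heq
  rcases Nat.eq_zero_or_pos n with hn | hn
  · subst hn
    refine ⟨fun _ => 1, ?_, Subsingleton.elim _ _⟩
    intro h
    exact one_ne_zero (congrFun h 0)
  by_contra hcon
  push Not at hcon
  obtain ⟨lab, hlab1, hlab2⟩ := h3 n e hn he
  set G : (Fin (2 * n + 1) → ℂ) → Fin n → ℂ := fun x => g (P x) with hG
  have hPne : ∀ x ∈ K (2 * n + 1), P x ≠ 0 := by
    rintro x ⟨s, hs⟩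
    exact P_ne hs
  have hGc : ContinuousOn G (K (2 * n + 1)) :=
    hg.comp continuous_P.continuousOn (fun x hx => hPne x hx)
  have hGne : ∀ x ∈ K (2 * n + 1), G x ≠ 0 := fun x hx => hcon _ (hPne x hx)
  have hKc := K_compact (2 * n + 1)
  obtain ⟨x0, hx0, hmin⟩ := hKc.exists_isMinOn (K_nonempty (by omega)) hGc.norm
  set ε : ℝ := ‖G x0‖ with hε
  have hεpos : 0 < ε := norm_pos_iff.2 (hGne x0 hx0)
  have hεle : ∀ x ∈ K (2 * n + 1), ε ≤ ‖G x‖ := fun x hx => hmin hx
  have huc := hKc.uniformContinuousOn_of_continuous hGc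
  rw [Metric.uniformContinuousOn_iff] at huc
  obtain ⟨δ, hδ, hδ2⟩ := huc (ε / 2) (by positivity)
  obtain ⟨φ, hφ1, hφ2, hφ3⟩ := h1 (2 * n + 1) (δ / 2) (by positivity)
  have key := h2 (Fin (2 * n + 1) → ℂ) mulOm (2 * n) (fun x => lab (G x))
    (fun l => Good (δ / 2) l.length l) ?_ ?_ ?_
  · apply key
    refine ⟨φ, ?_, hφ2 (by omega), fun k hk => hφ3 k (by omega)⟩
    intro k hk
    have := hφ1 k (by omega)
    refine Submodule.span_mono ?_ this
    rintro c ⟨l, hl, hc⟩
    refine ⟨l, ⟨?_, hl.1⟩, hc⟩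
    have hlen := hl.1
    rw [← hlen] at hl
    exact hl
  · rintro l ⟨_, ⟨s, hs⟩, hd⟩
    refine ⟨rfl, ⟨fun j => s j + 1, ?_⟩, ?_⟩
    · intro x hx
      obtain ⟨y, hy, rfl⟩ := List.mem_map.1 hx
      exact mulOm_Cell (hs y hy)
    · intro x hx y hy
      obtain ⟨x', hx', rfl⟩ := List.mem_map.1 hx
      obtain ⟨y', hy', rfl⟩ := List.mem_map.1 hy
      exact (dist_mulOm x' y').trans (hd x' hx' y' hy')
  · rintro l ⟨_, ⟨s, hs⟩, hd⟩ x hx
    have hxK : x ∈ K (2 * n + 1) := ⟨s, hs x hx⟩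
    have h4 : G (mulOm x) = fun j => om ^ e j * G x j := by
      simp only [hG]
      rw [P_mulOm, heq]
    show lab (G (mulOm x)) = _
    rw [h4]
    exact hlab1 _ (hGne x hxK)
  · rintro l ⟨_, ⟨s, hs⟩, hd⟩ x hx y hy hxy
    have hxK : x ∈ K (2 * n + 1) := ⟨s, hs x hx⟩
    have hyK : y ∈ K (2 * n + 1) := ⟨s, hs y hy⟩
    refine hlab2 ε hεpos (G x) (G y) (hεle x hxK) (hεle y hyK) ?_ hxy
    rw [← dist_eq_norm]
    apply hδ2 x hxK y hyK
    have := hd x hx y hy
    linarith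

end Pool.Agent.Lib.MP_c05127_co
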