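import Pool.Agent.Lib.MP_c05127_co.Spec

set_option linter.all false

open scoped Classical
open Filter Topology

namespace Pool.Agent.Lib.MP_c05127_co

namespace BadS

lemma tdot {v w : ℕ → ℂ} {v0 w0 : ℂ} (hv : Tendsto v atTop (𝓝 v0)) (hw : Tendsto w atTop (𝓝 w0)) :
    Tendsto (fun n => dot (v n) (w n)) atTop (𝓝 (dot v0 w0)) :=
  (continuous_dot.tendsto (v0, w0)).comp (hv.prodMk_nhds hw)

lemma ev_neg {ι : Type} [Fintype ι] {Wn : ℕ → ι → ℂ} {W : ι → ℂ} {v : ℕ → ℂ} {v0 : ℂ}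
    (hW : Tendsto Wn atTop (𝓝 W)) (hv : Tendsto v atTop (𝓝 v0)) :
    ∀ᶠ n in atTop, ∀ a, dot v0 (W a) < 0 → dot (v n) (Wn n a) < 0 := by
  rw [eventually_all]
  intro a
  by_cases h : dot v0 (W a) < 0
  · have h1 : Tendsto (fun n => Wn n a) atTop (𝓝 (W a)) := (continuous_apply a).continuousAt.tendsto.comp hW
    filter_upwards [(tdot hv h1).eventually (gt_mem_nhds h)] with n hn _
    exact hn
  · exact Eventually.of_forall (fun n h' => absurd h' h)

lemma clt_lt {ι : Type} [Fintype ι] {Wn : ℕ → ι → ℂ} {W : ι → ℂ} {v : ℕ → ℂ} {v0 : ℂ} {r : ℕ}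
    (hW : Tendsto Wn atTop (𝓝 W)) (hv : Tendsto v atTop (𝓝 v0))
    (h : ∀ n, cle Finset.univ (Wn n) (v n) < r) : clt Finset.univ W v0 < r := by
  obtain ⟨n, hn⟩ := (ev_neg hW hv).exists
  refine lt_of_le_of_lt ?_ (h n)
  unfold clt cle
  apply Finset.card_le_card
  intro a ha
  rw [Finset.mem_filter] at ha ⊢
  exact ⟨ha.1, (hn a ha.2).le⟩

/-- The elements on the line are on the positive side of `v n`. -/
lemma ev_pos {ι : Type} [Fintype ι] {Wn : ℕ → ι → ℂ} {W : ι → ℂ} {v : ℕ → ℂ} {v0 : ℂ} {r : ℕ}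
    (hW : Tendsto Wn atTop (𝓝 W)) (hv : Tendsto v atTop (𝓝 v0))
    (h : ∀ n, cle Finset.univ (Wn n) (v n) < r) (hc : clt Finset.univ W v0 + 1 = r) {b : ι}
    (hb : ¬ dot v0 (W b) < 0) : ∀ᶠ n in atTop, 0 < dot (v n) (Wn n b) := by
  filter_upwards [ev_neg hW hv] with n hn
  by_contra hcon
  rw [not_lt] at hcon
  have h1 : clt Finset.univ W v0 + 1 ≤ cle Finset.univ (Wn n) (v n) := by
    unfold clt cle
    rw [← Finset.card_insert_of_notMem (a := b) (s := Finset.univ.filter (fun a => dot v0 (W a) < 0))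
      (by simpa using hb)]
    apply Finset.card_le_card
    intro a ha
    rw [Finset.mem_insert] at ha
    rw [Finset.mem_filter]
    rcases ha with rfl | ha
    · exact ⟨Finset.mem_univ _, hcon⟩
    · rw [Finset.mem_filter] at ha
      exact ⟨Finset.mem_univ _, (hn a ha.2).le⟩
  have := h n
  omega

lemma dot_expand (v w x : ℂ) (h : ‖v‖ = 1) :
    dot w x = dot v w * dot v x + dot (Complex.I * v) w * dot (Complex.I * v) x := by
  conv_lhs => rw [expand v w h]
  rw [add_dot, smul_dot, smul_dot]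

/-- Case of equal limits. -/
lemma same {hn s s' : ℕ → ℝ} (hn' : ℕ → ℂ) {v v' : ℕ → ℂ} {v0 h0 : ℂ} (h1 : ‖v0‖ = 1)
    (hv : Tendsto v atTop (𝓝 v0)) (hv' : Tendsto v' atTop (𝓝 v0))
    (hh : Tendsto hn' atTop (𝓝 h0)) (hs : ∀ n, 0 ≤ s n) (hs' : ∀ n, 0 ≤ s' n)
    (he : ∀ n, (s n : ℂ) * v n + s' n * v' n = -hn' n) :
    ∃ c : ℝ, 0 ≤ c ∧ h0 = -(c : ℂ) * v0 := by
  have hd1 : ∀ x : ℂ, ∀ n, dot x (-hn' n) = s n * dot x (v n) + s' n * dot x (v' n) := by
    intro x n
    rw [← he n, dot_add, dot_smul, dot_smul]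
  have tx : ∀ x : ℂ, ∀ {w : ℕ → ℂ} {w0 : ℂ}, Tendsto w atTop (𝓝 w0) →
      Tendsto (fun n => dot x (w n)) atTop (𝓝 (dot x w0)) :=
    fun x w w0 hw => tdot tendsto_const_nhds hw
  have hv00 : dot v0 v0 = 1 := by rw [dot_self, h1]; norm_num
  have e1 : ∀ᶠ n in atTop, (1 / 2 : ℝ) < dot v0 (v n) := by
    have := tx v0 hv
    rw [hv00] at this
    exact this.eventually (lt_mem_nhds (by norm_num))
  have e2 : ∀ᶠ n in atTop, (1 / 2 : ℝ) < dot v0 (v' n) := by
    have := tx v0 hv'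
    rw [hv00] at this
    exact this.eventually (lt_mem_nhds (by norm_num))
  have th : ∀ x : ℂ, Tendsto (fun n => dot x (-hn' n)) atTop (𝓝 (dot x (-h0))) :=
    fun x => tx x hh.neg
  set C : ℝ := dot v0 (-h0) + 1 with hC
  have e3 : ∀ᶠ n in atTop, dot v0 (-hn' n) < C :=
    (th v0).eventually (gt_mem_nhds (by rw [hC]; linarith))
  -- nonnegativity
  have hnn : 0 ≤ dot v0 (-h0) := by
    apply ge_of_tendsto (th v0)
    filter_upwards [e1, e2] with n h1 h2
    rw [hd1]
    have := hs n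
    have := hs' n
    positivity
  -- orthogonal component
  have hort : dot (Complex.I * v0) (-h0) = 0 := by
    have hz : Tendsto (fun n => 2 * C * (|dot (Complex.I * v0) (v n)| +
        |dot (Complex.I * v0) (v' n)|)) atTop (𝓝 0) := by
      have a1 := (tx (Complex.I * v0) hv).abs
      have a2 := (tx (Complex.I * v0) hv').abs
      rw [I_dot, abs_zero] at a1 a2
      have := (a1.add a2).const_mul (2 * C)
      simpa using this
    have hz2 : Tendsto (fun n => dot (Complex.I * v0) (-hn' n)) atTop (𝓝 0) := by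
      apply squeeze_zero_norm' _ hz
      filter_upwards [e1, e2, e3] with n h1 h2 h3
      rw [Real.norm_eq_abs, hd1]
      rw [hd1] at h3
      have p1 := hs n
      have p2 := hs' n
      have b1 : s n ≤ 2 * C := by nlinarith
      have b2 : s' n ≤ 2 * C := by nlinarith
      calc |s n * dot (Complex.I * v0) (v n) + s' n * dot (Complex.I * v0) (v' n)|
          ≤ |s n * dot (Complex.I * v0) (v n)| + |s' n * dot (Complex.I * v0) (v' n)| :=
            abs_add_le _ _
        _ = s n * |dot (Complex.I * v0) (v n)| + s' n * |dot (Complex.I * v0) (v' n)| := by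
            rw [abs_mul, abs_mul, abs_of_nonneg p1, abs_of_nonneg p2]
        _ ≤ 2 * C * |dot (Complex.I * v0) (v n)| + 2 * C * |dot (Complex.I * v0) (v' n)| := by
            gcongr
        _ = _ := by ring
    exact tendsto_nhds_unique (th (Complex.I * v0)) hz2
  refine ⟨dot v0 (-h0), hnn, ?_⟩
  have := expand v0 (-h0) h1
  rw [hort] at this
  simp only [Complex.ofReal_zero, zero_mul, add_zero] at this
  linear_combination (-1 : ℂ) * this

end BadS

open BadS

theorem badStmt (h1 : FzStmt) (h2 : WallStmt) : BadStmt := by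
  intro ι _ r h hr hc hh W ⟨hW, hY⟩
  by_contra hT
  have hT' : ¬ Tv Finset.univ W r := hT
  obtain ⟨hh1, hh2, hh3⟩ := hh
  obtain ⟨hne, hopp⟩ := hh3 W hY hT'
  rw [mem_closure_iff_seq_limit] at hW
  obtain ⟨U, hU, hlim⟩ := hW
  have hhl : Tendsto (fun n => h (U n)) atTop (𝓝 (h W)) := (hh1.tendsto W).comp hlim
  obtain ⟨N, hN⟩ := (hhl.eventually_ne hne).exists_forall_of_atTop
  -- the vectors
  have hex : ∀ n, ∃ p : (ℂ × ℂ) × (ℝ × ℝ), ‖p.1.1‖ = 1 ∧ ‖p.1.2‖ = 1 ∧
      cle Finset.univ (U (n + N)) p.1.1 < r ∧ cle Finset.univ (U (n + N)) p.1.2 < r ∧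
      0 ≤ p.2.1 ∧ 0 ≤ p.2.2 ∧ (p.2.1 : ℂ) * p.1.1 + p.2.2 * p.1.2 = -h (U (n + N)) := by
    intro n
    obtain ⟨hnd, c, hc0, hF⟩ := hU (n + N)
    obtain ⟨_, hFne, hcone⟩ := h1 ι r hr hc (U (n + N))
    have hcpos : 0 < c := by
      rcases hc0.eq_or_lt with h0 | h0
      · exfalso
        apply hFne hnd
        rw [hF, ← h0]
        simp
      · exact h0
    obtain ⟨v, v', e1, e2, e3, e4, s, s', e5, e6, e7⟩ :=
      hcone (h (U (n + N))) c hcpos (hN (n + N) (by omega)) hF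
    exact ⟨((v, v'), (s, s')), e1, e2, e3, e4, e5, e6, e7⟩
  choose p hp1 hp2 hp3 hp4 hp5 hp6 hp7 using hex
  have hcomp : IsCompact ((Metric.sphere (0 : ℂ) 1) ×ˢ (Metric.sphere (0 : ℂ) 1)) :=
    (isCompact_sphere _ _).prod (isCompact_sphere _ _)
  obtain ⟨q, hq, φ, hφ, hφl⟩ := hcomp.tendsto_subseq (x := fun n => (p n).1) (fun n => by
    constructor
    · simpa using hp1 n
    · simpa using hp2 n)
  have hv : Tendsto (fun n => (p (φ n)).1.1) atTop (𝓝 q.1) :=
    (continuous_fst.tendsto q).comp hφl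
  have hv' : Tendsto (fun n => (p (φ n)).1.2) atTop (𝓝 q.2) :=
    (continuous_snd.tendsto q).comp hφl
  have hq1 : ‖q.1‖ = 1 := by simpa using hq.1
  have hq2 : ‖q.2‖ = 1 := by simpa using hq.2
  have hφt : Tendsto (fun n => φ n + N) atTop atTop :=
    tendsto_atTop_mono (fun n => Nat.le_add_right _ _) hφ.tendsto_atTop
  have hWl : Tendsto (fun n => U (φ n + N)) atTop (𝓝 W) := hlim.comp hφt
  have hhl' : Tendsto (fun n => h (U (φ n + N))) atTop (𝓝 (h W)) := hhl.comp hφt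
  obtain ⟨_, w2, w3⟩ := h2 ι W r hr hc hY hT'
  have c1 : clt Finset.univ W q.1 < r := clt_lt hWl hv (fun n => hp3 (φ n))
  have c2 : clt Finset.univ W q.2 < r := clt_lt hWl hv' (fun n => hp4 (φ n))
  have q1ne : q.1 ≠ 0 := by
    intro h0
    rw [h0, norm_zero] at hq1
    exact zero_ne_one hq1
  have q2ne : q.2 ≠ 0 := by
    intro h0
    rw [h0, norm_zero] at hq2
    exact zero_ne_one hq2
  have hpar := w3 q.1 q.2 q1ne q2ne c1 c2
  have hexp := expand q.1 q.2 hq1
  rw [hpar] at hexp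
  simp only [Complex.ofReal_zero, zero_mul, add_zero] at hexp
  have habs : |dot q.1 q.2| = 1 := by
    have := congrArg norm hexp
    rw [norm_mul, hq1, hq2, mul_one, Complex.norm_real, Real.norm_eq_abs] at this
    exact this.symm
  rcases (abs_eq (zero_le_one)).1 habs with hd | hd
  · -- equal
    rw [hd, Complex.ofReal_one, one_mul] at hexp
    rw [hexp] at hv'
    obtain ⟨c, hc0, hce⟩ := same (hn := fun _ => 0) (s := fun n => (p (φ n)).2.1)
      (s' := fun n => (p (φ n)).2.2) (fun n => h (U (φ n + N))) hq1 hv hv' hhl'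
      (fun n => hp5 (φ n)) (fun n => hp6 (φ n)) (fun n => hp7 (φ n))
    exact hopp q.1 hq1 c1 c hc0 hce
  · -- opposite
    have hneg : q.2 = -q.1 := by
      rw [hexp, hd]
      push_cast
      ring
    obtain ⟨k1, b, c, hb, hc', hb1, hc1⟩ := w2 q.1 q1ne c1
    obtain ⟨k2, _⟩ := w2 q.2 q2ne c2
    have hb2 : ¬ dot q.2 (W b) < 0 := by
      rw [hneg, neg_dot, hb]
      simp
    have hc2 : ¬ dot q.2 (W c) < 0 := by
      rw [hneg, neg_dot, hc']
      simp
    have f1 := ev_pos hWl hv (fun n => hp3 (φ n)) k1 (b := b) (by rw [hb]; simp)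
    have f2 := ev_pos hWl hv (fun n => hp3 (φ n)) k1 (b := c) (by rw [hc']; simp)
    have f3 := ev_pos hWl hv' (fun n => hp4 (φ n)) k2 hb2
    have f4 := ev_pos hWl hv' (fun n => hp4 (φ n)) k2 hc2
    have tI : Tendsto (fun n => Complex.I * (p (φ n)).1.1) atTop (𝓝 (Complex.I * q.1)) :=
      hv.const_mul _
    have tb : Tendsto (fun n => U (φ n + N) b) atTop (𝓝 (W b)) :=
      (continuous_apply b).continuousAt.tendsto.comp hWl
    have tc : Tendsto (fun n => U (φ n + N) c) atTop (𝓝 (W c)) :=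
      (continuous_apply c).continuousAt.tendsto.comp hWl
    have f5 : ∀ᶠ n in atTop, dot ((p (φ n)).1.1) ((p (φ n)).1.2) < 0 := by
      have := tdot hv hv'
      rw [hd] at this
      exact this.eventually (gt_mem_nhds (by norm_num))
    have f6 : ∀ᶠ n in atTop, 0 < dot (Complex.I * (p (φ n)).1.1) (U (φ n + N) b) :=
      (tdot tI tb).eventually (lt_mem_nhds hb1)
    have f7 : ∀ᶠ n in atTop, dot (Complex.I * (p (φ n)).1.1) (U (φ n + N) c) < 0 :=
      (tdot tI tc).eventually (gt_mem_nhds hc1)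
    obtain ⟨n, g1, g2, g3, g4, g5, g6, g7⟩ :=
      (f1.and (f2.and (f3.and (f4.and (f5.and (f6.and f7)))))).exists
    rw [dot_expand ((p (φ n)).1.1) _ _ (hp1 (φ n))] at g3 g4
    set P := dot ((p (φ n)).1.1) ((p (φ n)).1.2)
    set Q := dot (Complex.I * (p (φ n)).1.1) ((p (φ n)).1.2)
    set x := dot ((p (φ n)).1.1) (U (φ n + N) b)
    set y := dot ((p (φ n)).1.1) (U (φ n + N) c)
    set X := dot (Complex.I * (p (φ n)).1.1) (U (φ n + N) b)
    set Y := dot (Complex.I * (p (φ n)).1.1) (U (φ n + N) c)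
    have m1 : 0 < Q * X := by nlinarith
    have m2 : 0 < Q * Y := by nlinarith
    have m3 : 0 < Q := by
      by_contra hq
      rw [not_lt] at hq
      nlinarith
    nlinarith

end Pool.Agent.Lib.MP_c05127_co
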