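import Pool.Agent.Lib.MP_c05127_co.Spec

set_option linter.all false

open scoped Classical

namespace Pool.Agent.Lib.MP_c05127_co

namespace Base

/-- basis vector -/
noncomputable def ev (M k : ℕ) : Fin M → ℂ := fun j => if (j : ℕ) = k then 1 else 0

/-- the chains -/
noncomputable def phi (M : ℕ) : ℕ → Ch (Fin M → ℂ)
  | 0 => Finsupp.single [ev M 0] 1
  | k + 1 => cone (ev M (k + 1)) (theta (act mulOm) k (phi M k))

/-- lists of points `om ^ s_j • e_j`, `j ≤ k` -/
def Q (M k : ℕ) (l : List (Fin M → ℂ)) : Prop :=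
  l.length = k + 1 ∧ ∃ s : ℕ → ℕ, ∀ x ∈ l, ∃ i, i ≤ k ∧ x = fun j => om ^ s i * ev M i j

lemma Q_map {M k : ℕ} {l : List (Fin M → ℂ)} (h : Q M k l) : Q M k (l.map mulOm) := by
  obtain ⟨h1, s, h2⟩ := h
  refine ⟨by simpa using h1, fun i => s i + 1, ?_⟩
  intro x hx
  rw [List.mem_map] at hx
  obtain ⟨y, hy, rfl⟩ := hx
  obtain ⟨i, hi, rfl⟩ := h2 y hy
  refine ⟨i, hi, ?_⟩
  funext j
  unfold mulOm
  ring

lemma Sp_act {M k : ℕ} {c : Ch (Fin M → ℂ)} (h : c ∈ Sp (Q M k)) :
    act mulOm c ∈ Sp (Q M k) := by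
  unfold Sp at h ⊢
  induction h using Submodule.span_induction with
  | mem x hx =>
    obtain ⟨l, hl, rfl⟩ := hx
    rw [act_single]
    exact Submodule.subset_span ⟨_, Q_map hl, rfl⟩
  | zero => rw [map_zero]; exact Submodule.zero_mem _
  | add x y _ _ h1 h2 => rw [map_add]; exact Submodule.add_mem _ h1 h2
  | smul a x _ h1 => rw [map_smul]; exact Submodule.smul_mem _ _ h1

lemma Sp_theta {M k : ℕ} (n : ℕ) {c : Ch (Fin M → ℂ)} (h : c ∈ Sp (Q M k)) :
    theta (act mulOm) n c ∈ Sp (Q M k) := by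
  by_cases hn : Even n
  · rw [theta_even _ hn]
    exact Submodule.sub_mem _ (Sp_act h) h
  · rw [theta_odd _ hn]
    exact Submodule.add_mem _ (Submodule.add_mem _ h (Sp_act h)) (Sp_act (Sp_act h))

lemma Q_cons {M k : ℕ} {l : List (Fin M → ℂ)} (h : Q M k l) : Q M (k + 1) (ev M (k + 1) :: l) := by
  obtain ⟨h1, s, h2⟩ := h
  refine ⟨by simpa using h1, fun i => if i ≤ k then s i else 0, ?_⟩
  intro x hx
  rw [List.mem_cons] at hx
  rcases hx with rfl | hx
  · refine ⟨k + 1, le_rfl, ?_⟩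
    funext j
    beta_reduce
    rw [if_neg (by omega), pow_zero, one_mul]
  · obtain ⟨i, hi, hx⟩ := h2 x hx
    refine ⟨i, by omega, ?_⟩
    beta_reduce
    rw [if_pos hi]
    exact hx

lemma Sp_cone {M k : ℕ} {c : Ch (Fin M → ℂ)} (h : c ∈ Sp (Q M k)) :
    cone (ev M (k + 1)) c ∈ Sp (Q M (k + 1)) := by
  unfold Sp at h ⊢
  induction h using Submodule.span_induction with
  | mem x hx =>
    obtain ⟨l, hl, rfl⟩ := hx
    rw [cone_single]
    exact Submodule.subset_span ⟨_, Q_cons hl, rfl⟩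
  | zero => rw [map_zero]; exact Submodule.zero_mem _
  | add x y _ _ h1 h2 => rw [map_add]; exact Submodule.add_mem _ h1 h2
  | smul a x _ h1 => rw [map_smul]; exact Submodule.smul_mem _ _ h1

lemma phi_mem (M k : ℕ) : phi M k ∈ Sp (Q M k) := by
  induction k with
  | zero =>
    refine Submodule.subset_span ⟨[ev M 0], ⟨rfl, fun _ => 0, ?_⟩, rfl⟩
    intro x hx
    rw [List.mem_singleton] at hx
    refine ⟨0, le_rfl, ?_⟩
    rw [hx]
    funext j
    rw [pow_zero, one_mul]
  | succ k ih => exact Sp_cone (Sp_theta k ih)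

lemma bd_theta {M : ℕ} (n : ℕ) (c : Ch (Fin M → ℂ)) :
    bd (theta (act mulOm) n c) = theta (act mulOm) n (bd c) := by
  by_cases hn : Even n
  · rw [theta_even _ hn, theta_even _ hn, map_sub, bd_act]
  · rw [theta_odd _ hn, theta_odd _ hn, map_add, map_add, bd_act, bd_act, bd_act]

lemma bd_phi0 (M : ℕ) : bd (phi M 0) = Finsupp.single [] 1 := by
  change bd (Finsupp.single [ev M 0] 1) = _
  rw [bd_single]
  change Finsupp.single [] 1 - cone _ (0 : Ch _) = _
  rw [map_zero, sub_zero]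

lemma theta_bd_phi (M k : ℕ) : theta (act mulOm) k (bd (phi M k)) = 0 := by
  cases k with
  | zero =>
    rw [bd_phi0, theta_even _ (by decide), act_single, List.map_nil, sub_self]
  | succ k =>
    have h : bd (phi M (k + 1)) = theta (act mulOm) k (phi M k) := by
      change bd (cone _ _) = _
      rw [bd_cone, bd_theta, theta_bd_phi M k, map_zero, sub_zero]
    rw [h, ← theta_add_two (act mulOm) k]
    exact theta_theta (act mulOm) act3 (k + 1) _

lemma bd_phi (M k : ℕ) : bd (phi M (k + 1)) = theta (act mulOm) k (phi M k) := by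
  change bd (cone _ _) = _
  rw [bd_cone, bd_theta, theta_bd_phi M k, map_zero, sub_zero]

lemma Q_good {M k : ℕ} (hk : k < M) {l : List (Fin M → ℂ)} (h : Q M k l) :
    Good 2 (k + 1) l := by
  obtain ⟨h1, s, h2⟩ := h
  have hn : ∀ x ∈ l, ‖x‖ ≤ 1 := by
    intro x hx
    obtain ⟨i, hi, rfl⟩ := h2 x hx
    rw [pi_norm_le_iff_of_nonneg zero_le_one]
    intro j
    rw [norm_mul, norm_pow, norm_om, one_pow, one_mul]
    unfold ev
    split_ifs
    · simp
    · simp
  refine ⟨h1, ⟨fun j => s j, ?_⟩, ?_⟩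
  · intro x hx
    obtain ⟨i, hi, rfl⟩ := h2 x hx
    refine ⟨fun j => if (j : ℕ) = i then 1 else 0, ?_, ?_, ?_⟩
    · intro j
      dsimp only
      split_ifs
      · exact zero_le_one
      · exact le_rfl
    · rw [Finset.sum_eq_single (⟨i, by omega⟩ : Fin M)]
      · simp
      · intro b _ hb
        rw [if_neg]
        intro h
        exact hb (Fin.ext h)
      · intro h
        exact absurd (Finset.mem_univ _) h
    · intro j
      unfold ev
      beta_reduce
      by_cases hj : (j : ℕ) = i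
      · rw [if_pos hj, if_pos hj, hj]
        simp
      · rw [if_neg hj, if_neg hj]
        simp
  · intro x hx y hy
    calc dist x y ≤ dist x 0 + dist 0 y := dist_triangle _ _ _
      _ = ‖x‖ + ‖y‖ := by rw [dist_zero_right, dist_zero_left]
      _ ≤ 2 := by linarith [hn x hx, hn y hy]

lemma Sp_mono {X : Type} {R R' : List X → Prop} (h : ∀ l, R l → R' l) : Sp R ≤ Sp R' :=
  Submodule.span_mono (fun _ ⟨l, hl, e⟩ => ⟨l, h l hl, e⟩)

end Base

theorem baseStmt : BaseStmt := by
  intro M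
  refine ⟨Base.phi M, ?_, ?_, ?_⟩
  · intro k hk
    exact Base.Sp_mono (fun l hl => Base.Q_good hk hl) (Base.phi_mem M k)
  · intro _
    exact Base.bd_phi0 M
  · intro k _
    exact Base.bd_phi M k

end Pool.Agent.Lib.MP_c05127_co
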