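import Pool.Agent.Lib.MP_c05127_co.Defs

set_option linter.all false

/-! Basic facts on the definitions. -/

open scoped Classical

namespace Pool.Agent.Lib.MP_c05127_co

/-! ### the inner product -/

lemma dot_comm (v w : ℂ) : dot v w = dot w v := by unfold dot; ring
lemma dot_add (v w w' : ℂ) : dot v (w + w') = dot v w + dot v w' := by
  unfold dot; simp; ring
lemma add_dot (v v' w : ℂ) : dot (v + v') w = dot v w + dot v' w := by
  unfold dot; simp; ring
lemma dot_smul (v w : ℂ) (c : ℝ) : dot v ((c : ℂ) * w) = c * dot v w := by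
  unfold dot; simp; ring
lemma smul_dot (v w : ℂ) (c : ℝ) : dot ((c : ℂ) * v) w = c * dot v w := by
  unfold dot; simp; ring
lemma dot_neg (v w : ℂ) : dot v (-w) = -dot v w := by unfold dot; simp; ring
lemma neg_dot (v w : ℂ) : dot (-v) w = -dot v w := by unfold dot; simp; ring
@[simp] lemma dot_zero (v : ℂ) : dot v 0 = 0 := by unfold dot; simp
@[simp] lemma zero_dot (v : ℂ) : dot 0 v = 0 := by unfold dot; simp
lemma dot_self (v : ℂ) : dot v v = ‖v‖ ^ 2 := by
  unfold dot; rw [← Complex.normSq_eq_norm_sq, Complex.normSq_apply]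
lemma dot_self_pos {v : ℂ} (h : v ≠ 0) : 0 < dot v v := by
  rw [dot_self]; positivity
lemma dot_I (v : ℂ) : dot v (Complex.I * v) = 0 := by unfold dot; simp; ring
lemma I_dot (v : ℂ) : dot (Complex.I * v) v = 0 := by unfold dot; simp; ring
lemma dot_eq_re (v w : ℂ) : dot v w = (starRingEnd ℂ v * w).re := by unfold dot; simp
lemma dot_mul (z v w : ℂ) : dot v (z * w) = dot (starRingEnd ℂ z * v) w := by
  unfold dot; simp; ring
lemma continuous_dot : Continuous (fun p : ℂ × ℂ => dot p.1 p.2) := by
  unfold dot; fun_prop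
lemma expand (v w : ℂ) (h : ‖v‖ = 1) :
    w = (dot v w : ℂ) * v + (dot (Complex.I * v) w : ℂ) * (Complex.I * v) := by
  have h1 : v.re * v.re + v.im * v.im = 1 := by
    have := dot_self v
    rw [h] at this
    unfold dot at this
    linarith
  unfold dot
  apply Complex.ext
  · simp
    linear_combination (-w.re) * h1
  · simp
    linear_combination (-w.im) * h1

/-! ### roots of unity -/

lemma om_pow : om ^ 3 = 1 := by
  unfold om
  rw [← Complex.exp_nat_mul]
  have : ((3 : ℕ) : ℂ) * (2 * Real.pi * Complex.I / 3) = 2 * Real.pi * Complex.I := by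
    push_cast; ring
  rw [this, Complex.exp_two_pi_mul_I]

lemma norm_om : ‖om‖ = 1 := by
  have h : ‖om‖ ^ 3 = 1 := by rw [← norm_pow, om_pow, norm_one]
  exact (pow_eq_one_iff_of_nonneg (norm_nonneg _) (by norm_num)).1 h

lemma om_ne : om ≠ 0 := by
  intro h
  have := norm_om
  rw [h, norm_zero] at this
  exact zero_ne_one this

lemma om_re : om.re = -1 / 2 := by
  unfold om
  rw [Complex.exp_re]
  have h1 : (2 * Real.pi * Complex.I / 3 : ℂ).re = 0 := by
    rw [show (2 * Real.pi * Complex.I / 3 : ℂ) = ((2 * Real.pi / 3 : ℝ) : ℂ) * Complex.I by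
      push_cast; ring]
    simp
  have h2 : (2 * Real.pi * Complex.I / 3 : ℂ).im = 2 * Real.pi / 3 := by
    rw [show (2 * Real.pi * Complex.I / 3 : ℂ) = ((2 * Real.pi / 3 : ℝ) : ℂ) * Complex.I by
      push_cast; ring]
    simp
  rw [h1, h2, Real.exp_zero, one_mul, show 2 * Real.pi / 3 = Real.pi - Real.pi / 3 by ring,
    Real.cos_pi_sub, Real.cos_pi_div_three]
  norm_num

lemma om_im : om.im = Real.sqrt 3 / 2 := by
  unfold om
  rw [Complex.exp_im]
  have h1 : (2 * Real.pi * Complex.I / 3 : ℂ).re = 0 := by
    rw [show (2 * Real.pi * Complex.I / 3 : ℂ) = ((2 * Real.pi / 3 : ℝ) : ℂ) * Complex.I by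
      push_cast; ring]
    simp
  have h2 : (2 * Real.pi * Complex.I / 3 : ℂ).im = 2 * Real.pi / 3 := by
    rw [show (2 * Real.pi * Complex.I / 3 : ℂ) = ((2 * Real.pi / 3 : ℝ) : ℂ) * Complex.I by
      push_cast; ring]
    simp
  rw [h1, h2, Real.exp_zero, one_mul, show 2 * Real.pi / 3 = Real.pi - Real.pi / 3 by ring,
    Real.sin_pi_sub, Real.sin_pi_div_three]

lemma mulOm3 {M : ℕ} (x : Fin M → ℂ) : mulOm (mulOm (mulOm x)) = x := by
  funext j
  unfold mulOm
  have := om_pow
  calc om * (om * (om * x j)) = om ^ 3 * x j := by ring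
    _ = x j := by rw [this, one_mul]

/-! ### chains -/

section
variable {X : Type}

lemma cone_single (x : X) (l : List X) (a : ZMod 3) :
    cone x (Finsupp.single l a) = Finsupp.single (x :: l) a := by
  unfold cone; simp

lemma bd_single (l : List X) : bd (Finsupp.single l 1) = bdL l := by
  unfold bd; simp

lemma bd_nil : bd (Finsupp.single ([] : List X) 1) = 0 := by
  rw [bd_single]; rfl

lemma bd_cone (x : X) (c : Ch X) : bd (cone x c) = c - cone x (bd c) := by
  have h : bd ∘ₗ cone x = LinearMap.id - cone x ∘ₗ bd := by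
    apply Finsupp.lhom_ext'
    intro l
    apply LinearMap.ext_ring
    simp only [LinearMap.comp_apply, Finsupp.lsingle_apply, LinearMap.sub_apply,
      LinearMap.id_apply, cone_single, bd_single]
    rfl
  exact LinearMap.congr_fun h c

lemma bdL_bd (l : List X) : bd (bdL l) = 0 := by
  induction l with
  | nil => exact map_zero _
  | cons x l ih =>
    change bd (Finsupp.single l 1 - cone x (bdL l)) = 0
    rw [map_sub, bd_single, bd_cone, ih, map_zero, sub_zero, sub_self]

lemma bd_bd (c : Ch X) : bd (bd c) = 0 := by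
  have h : (bd ∘ₗ bd : Ch X →ₗ[ZMod 3] Ch X) = 0 := by
    apply Finsupp.lhom_ext'
    intro l
    apply LinearMap.ext_ring
    simp only [LinearMap.comp_apply, Finsupp.lsingle_apply, bd_single, bdL_bd,
      LinearMap.zero_apply]
  exact LinearMap.congr_fun h c

lemma act_single (g : X → X) (l : List X) (a : ZMod 3) :
    act g (Finsupp.single l a) = Finsupp.single (l.map g) a := by
  unfold act; simp

lemma act_cone (g : X → X) (x : X) (c : Ch X) : act g (cone x c) = cone (g x) (act g c) := by
  have h : act g ∘ₗ cone x = cone (g x) ∘ₗ act g := by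
    apply Finsupp.lhom_ext'
    intro l
    apply LinearMap.ext_ring
    simp only [LinearMap.comp_apply, Finsupp.lsingle_apply, cone_single, act_single,
      List.map_cons]
  exact LinearMap.congr_fun h c

lemma bdL_map (g : X → X) (l : List X) : bdL (l.map g) = act g (bdL l) := by
  induction l with
  | nil => exact (map_zero _).symm
  | cons x l ih =>
    change Finsupp.single (l.map g) 1 - cone (g x) (bdL (l.map g)) =
      act g (Finsupp.single l 1 - cone x (bdL l))
    rw [map_sub, act_single, act_cone, ih]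

lemma bd_act (g : X → X) (c : Ch X) : bd (act g c) = act g (bd c) := by
  have h : bd ∘ₗ act g = act g ∘ₗ bd := by
    apply Finsupp.lhom_ext'
    intro l
    apply LinearMap.ext_ring
    simp only [LinearMap.comp_apply, Finsupp.lsingle_apply, act_single, bd_single, bdL_map]
  exact LinearMap.congr_fun h c

end

lemma act3 {M : ℕ} (c : Ch (Fin M → ℂ)) :
    act mulOm (act mulOm (act mulOm c)) = c := by
  have h : (act mulOm ∘ₗ act mulOm ∘ₗ act mulOm : Ch (Fin M → ℂ) →ₗ[ZMod 3] _) =
      LinearMap.id := by
    apply Finsupp.lhom_ext'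
    intro l
    apply LinearMap.ext_ring
    simp only [LinearMap.comp_apply, Finsupp.lsingle_apply, act_single, LinearMap.id_apply,
      List.map_map]
    congr 1
    conv_rhs => rw [← List.map_id l]
    apply List.map_congr_left
    intro x _
    exact mulOm3 x
  exact LinearMap.congr_fun h c

/-! ### theta -/

section
variable {M : Type} [AddCommGroup M] [Module (ZMod 3) M] (g : M →ₗ[ZMod 3] M)

lemma theta_even {k : ℕ} (h : Even k) (c : M) : theta g k c = g c - c := by
  unfold theta; rw [if_pos h]; rfl

lemma theta_odd {k : ℕ} (h : ¬ Even k) (c : M) : theta g k c = c + g c + g (g c) := by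
  unfold theta; rw [if_neg h]; rfl

lemma theta_add_two (k : ℕ) : theta g (k + 2) = theta g k := by
  unfold theta
  by_cases h : Even k
  · rw [if_pos h, if_pos (by simpa [Nat.even_add] using h)]
  · rw [if_neg h, if_neg (by simpa [Nat.even_add] using h)]

lemma theta_theta (h3 : ∀ c, g (g (g c)) = c) (k : ℕ) (c : M) :
    theta g k (theta g (k + 1) c) = 0 := by
  have hz : ∀ x : M, x + x + x = 0 := by
    intro x
    have h : (3 : ZMod 3) • x = 0 := by
      rw [show (3 : ZMod 3) = 0 by decide, zero_smul]
    have h2 : (3 : ZMod 3) • x = x + x + x := by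
      rw [show (3 : ZMod 3) = 1 + 1 + 1 by decide, add_smul, add_smul, one_smul]
    rw [← h2, h]
  by_cases h : Even k
  · have h' : ¬ Even (k + 1) := by
      rw [Nat.even_add_one]; simpa using h
    rw [theta_even g h, theta_odd g h', map_add, map_add, h3]
    abel
  · have h' : Even (k + 1) := by
      rw [Nat.even_add_one]; exact h
    rw [theta_odd g h, theta_even g h', map_sub, map_sub, h3]
    abel

end

end Pool.Agent.Lib.MP_c05127_co
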