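import Pool.Agent.Lib.MP_c05127_co.Spec

set_option linter.all false

/-!
MP_c05127_co, module Birch (helper45): from depth to Tverberg partitions in the plane.
-/

open scoped Classical

namespace Pool.Agent.Lib.MP_c05127_co.Birch

lemma tv_mono {ι : Type} {s t : Finset ι} {W : ι → ℂ} {m : ℕ} (hst : s ⊆ t) (h : Tv s W m) :
    Tv t W m := by
  obtain ⟨P, h1, h2, h3⟩ := h
  exact ⟨P, fun j => (h1 j).trans hst, h2, h3⟩

lemma tv_zero {ι : Type} (s : Finset ι) (W : ι → ℂ) : Tv s W 0 :=
  ⟨fun j => j.elim0, fun j => j.elim0, fun j => j.elim0, fun j => j.elim0⟩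

/-- a zero vector is a part -/
lemma tv_cons {ι : Type} {s : Finset ι} {W : ι → ℂ} {n : ℕ} {a : ι} (ha : a ∈ s) (hW : W a = 0)
    (h : Tv (s.erase a) W n) : Tv s W (n + 1) := by
  obtain ⟨P, h1, h2, h3⟩ := h
  have hnot : ∀ j, Disjoint ({a} : Finset ι) (P j) := by
    intro j
    rw [Finset.disjoint_singleton_left]
    intro hc
    exact (Finset.mem_erase.1 (h1 j hc)).1 rfl
  refine ⟨Fin.cons {a} P, ?_, ?_, ?_⟩
  · intro j
    refine Fin.cases ?_ (fun i => ?_) j
    · rw [Fin.cons_zero, Finset.singleton_subset_iff]
      exact ha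
    · rw [Fin.cons_succ]
      exact (h1 i).trans (Finset.erase_subset _ _)
  · intro i j
    refine Fin.cases ?_ (fun i => ?_) i
    · refine Fin.cases ?_ (fun j => ?_) j
      · intro hne
        exact (hne rfl).elim
      · intro _
        rw [Fin.cons_zero, Fin.cons_succ]
        exact hnot j
    · refine Fin.cases ?_ (fun j => ?_) j
      · intro _
        rw [Fin.cons_zero, Fin.cons_succ]
        exact (hnot i).symm
      · intro hne
        rw [Fin.cons_succ, Fin.cons_succ]
        exact h2 i j (fun h => hne (by rw [h]))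
  · intro j
    refine Fin.cases ?_ (fun i => ?_) j
    · intro v
      refine ⟨a, ?_, ?_⟩
      · rw [Fin.cons_zero, Finset.mem_singleton]
      · rw [hW, dot_zero]
    · intro v
      rw [Fin.cons_succ]
      exact h3 i v

/-- removing one element lowers the depth by at most one -/
lemma dep_erase {ι : Type} {s : Finset ι} {W : ι → ℂ} {n : ℕ} (a : ι)
    (h : Dep s W (n + 1)) : Dep (s.erase a) W n := by
  intro v hv
  have h1 := h v hv
  unfold cle at h1 ⊢
  have h2 : (s.filter (fun b => dot v (W b) ≤ 0)).erase a ⊆
      (s.erase a).filter (fun b => dot v (W b) ≤ 0) := by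
    intro b hb
    obtain ⟨hb1, hb2⟩ := Finset.mem_erase.1 hb
    obtain ⟨hb3, hb4⟩ := Finset.mem_filter.1 hb2
    exact Finset.mem_filter.2 ⟨Finset.mem_erase.2 ⟨hb1, hb3⟩, hb4⟩
  have h3 := Finset.card_le_card h2
  have h4 := Finset.pred_card_le_card_erase (a := a) (s := s.filter (fun b => dot v (W b) ≤ 0))
  omega

end Pool.Agent.Lib.MP_c05127_co.Birch

namespace Pool.Agent.Lib.MP_c05127_co

open Birch

theorem birchStmt (h1 : RemStmt) (h2 : CycStmt) : BirchStmt := by
  intro ι s W m
  have key : ∀ (N : ℕ) (s : Finset ι), s.card = N → ∀ m : ℕ, 3 * m ≤ s.card → Dep s W m →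
      Tv s W m := by
    intro N
    induction N with
    | zero =>
      intro s hs m hm hd
      have : m = 0 := by omega
      subst this
      exact tv_zero s W
    | succ N ih =>
      intro s hs m hm hd
      rcases Nat.eq_zero_or_pos m with h0 | hpos
      · subst h0
        exact tv_zero s W
      · obtain ⟨n, rfl⟩ : ∃ n, m = n + 1 := ⟨m - 1, by omega⟩
        by_cases hz : ∃ a ∈ s, W a = 0
        · obtain ⟨a, ha, hW⟩ := hz
          have hc : (s.erase a).card = N := by
            rw [Finset.card_erase_of_mem ha, hs]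
            rfl
          exact tv_cons ha hW (ih (s.erase a) hc n (by omega) (dep_erase a hd))
        · push Not at hz
          rcases Nat.lt_or_ge (3 * (n + 1)) s.card with hlt | hge
          · obtain ⟨a, ha, hda⟩ := h1 ι s W (n + 1) hlt hd
            have hc : (s.erase a).card = N := by
              rw [Finset.card_erase_of_mem ha, hs]
              rfl
            exact tv_mono (Finset.erase_subset a s) (ih (s.erase a) hc (n + 1) (by omega) hda)
          · exact h2 ι s W (n + 1) (by omega) hz hd
  exact key s.card s rfl m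

end Pool.Agent.Lib.MP_c05127_co
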