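import Pool.Agent.Lib.MP_c05127_co.Stmt

set_option linter.all false

/-!
MP_c05127_co (Tverberg-Vrecica for regression depth), the case k = 2. The definitions of the final
statement, in short steps (equal to those of `Stmt`, only cut into small pieces).
-/

open scoped Classical

namespace Pool.Agent.Lib.MP_c05127_co.Brief

/-- Euclidean space -/
abbrev E (d : ℕ) : Type := EuclideanSpace ℝ (Fin d)

/-- affine subspaces of `ℝ^d` -/
abbrev Aff (d : ℕ) : Type := AffineSubspace ℝ (E d)

/-- linear subspaces of `ℝ^d` -/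
abbrev Sub (d : ℕ) : Type := Submodule ℝ (E d)

/-- `x` lies in the affine subspace `h` -/
def On {d : ℕ} (h : Aff d) (x : E d) : Prop := x ∈ h

/-- `x` lies in the linear subspace `L` -/
def In {d : ℕ} (L : Sub d) (x : E d) : Prop := x ∈ L

/-- the direction space of `h` -/
noncomputable def dir {d : ℕ} (h : Aff d) : Sub d := h.direction

/-- the dimension of `L` -/
noncomputable def dim {d : ℕ} (L : Sub d) : ℕ := Module.finrank ℝ L

/-- the intersection of the direction spaces of the members of `S` -/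
noncomputable def meet {d : ℕ} (S : Finset (Aff d)) : Sub d := ⨅ h ∈ S, dir h

/-- the point `q + t v` -/
noncomputable def pt {d : ℕ} (q v : E d) (t : ℝ) : E d := q + t • v

/-- a finite set of hyperplanes of `ℝ^d`, none of them through the origin -/
def IsArr {d : ℕ} (A : Finset (Aff d)) : Prop :=
  ∀ h ∈ A, (∃ x, On h x) ∧ dim (dir h) + 1 = d ∧ ¬ On h 0

/-- the ray from `q` in the direction `v` meets `h` or is parallel to `h` -/
def Hits {d : ℕ} (h : Aff d) (q v : E d) : Prop :=
  (∃ t : ℝ, 0 ≤ t ∧ On h (pt q v t)) ∨ In (dir h) v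

/-- the regression depth of `q` in `L` -/
noncomputable def RD {d : ℕ} (A : Finset (Aff d)) (q : E d) (L : Sub d) : ℕ :=
  sInf {n | ∃ v, In L v ∧ v ≠ 0 ∧ n = (A.filter (fun h => Hits h q v)).card}

/-- the arrangement `A` has a partition into `r` parts of regression depth at least one -/
def Splits {d : ℕ} (r : ℕ) (A : Finset (Aff d)) (q : E d) (L : Sub d) : Prop :=
  ∃ P : Fin r → Finset (Aff d),
    (∀ j j', j ≠ j' → Disjoint (P j) (P j')) ∧ (∀ h, h ∈ A ↔ ∃ j, h ∈ P j) ∧
    ∀ j, 1 ≤ RD (P j) q L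

/-- the conclusion of Q1 for `k = 2` -/
def Concl {d : ℕ} (r : Fin (d - 1) → ℕ) (A : Fin (d - 1) → Finset (Aff d)) : Prop :=
  ∃ L : Sub d, dim L = 2 ∧ ∃ q, In L q ∧ ∀ i, Splits (r i) (A i) q L

/-- no direction is parallel to at least `r i` members of `A i` for every `i` -/
def NoDir {d : ℕ} (r : Fin (d - 1) → ℕ) (A : Fin (d - 1) → Finset (Aff d)) : Prop :=
  ∀ u : E d, u ≠ 0 → ∃ i, ((A i).filter (fun h => In (dir h) u)).card < r i

/-- the arrangements are pairwise disjoint and their union is in general position -/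
def GenPos {d : ℕ} (A : Fin (d - 1) → Finset (Aff d)) : Prop :=
  (∀ i j, i ≠ j → Disjoint (A i) (A j)) ∧
  ∀ S : Finset (Aff d), (∀ h ∈ S, ∃ i, h ∈ A i) → S.card ≤ d → dim (meet S) + S.card = d

theorem isArr_iff {d : ℕ} (A : Finset (Aff d)) : IsArr A ↔ MP_c05127_co.IsArr A := Iff.rfl

theorem concl_iff {d : ℕ} (r : Fin (d - 1) → ℕ) (A : Fin (d - 1) → Finset (Aff d)) :
    Concl r A ↔ MP_c05127_co.Concl r A := by
  constructor
  · rintro ⟨L, hL, q, hq, h⟩
    exact ⟨L, hL, q, hq, h⟩
  · rintro ⟨L, hL, q, hq, h⟩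
    exact ⟨L, hL, q, hq, h⟩

theorem noDir_iff {d : ℕ} (r : Fin (d - 1) → ℕ) (A : Fin (d - 1) → Finset (Aff d)) :
    NoDir r A ↔ MP_c05127_co.NoDir r A := Iff.rfl

theorem genPos_iff {d : ℕ} (A : Fin (d - 1) → Finset (Aff d)) :
    GenPos A ↔ MP_c05127_co.GenPos A := Iff.rfl

end Pool.Agent.Lib.MP_c05127_co.Brief
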