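import Pool.Agent.Lib.MP_c05127_co.Spec

set_option linter.all false

/-!
MP_c05127_co, module Cara: Caratheodory counting in the plane.
-/

open scoped Classical

namespace Pool.Agent.Lib.MP_c05127_co

namespace Cara

theorem exists_le {t : Finset ℂ} (h0 : (0 : ℂ) ∈ convexHull ℝ (t : Set ℂ)) (w : ℂ) :
    ∃ v ∈ t, dot v w ≤ 0 := by
  by_contra hcon
  push Not at hcon
  have hconv : Convex ℝ {v : ℂ | 0 < dot v w} := by
    intro x hx y hy a b ha hb hab
    simp only [Set.mem_setOf_eq, dot] at hx hy ⊢
    simp only [Complex.add_re, Complex.add_im, Complex.real_smul, Complex.mul_re, Complex.mul_im,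
      Complex.ofReal_re, Complex.ofReal_im, zero_mul, sub_zero, add_zero]
    have e : (a * x.re + b * y.re) * w.re + (a * x.im + b * y.im) * w.im
        = a * (x.re * w.re + x.im * w.im) + b * (y.re * w.re + y.im * w.im) := by ring
    rw [e]
    rcases eq_or_lt_of_le ha with h | h
    · have hb1 : b = 1 := by linarith
      rw [← h, hb1]; linarith
    · have := mul_pos h hx
      have := mul_nonneg hb hy.le
      linarith
  have hsub : convexHull ℝ (t : Set ℂ) ⊆ {v : ℂ | 0 < dot v w} :=
    convexHull_min (fun v hv => hcon v hv) hconv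
  have := hsub h0
  simp [dot] at this

end Cara

theorem caraStmt : CaraStmt := by
  intro ι s W m O hO hs h0
  rw [convexHull_eq_union] at h0
  simp only [Set.mem_iUnion] at h0
  obtain ⟨t, htO, hai, ht0⟩ := h0
  have hcard : t.card ≤ 3 := by
    have h1 := hai.card_le_finrank_succ
    have h2 : Module.finrank ℝ (vectorSpan ℝ (Set.range ((↑) : t → ℂ))) ≤ Module.finrank ℝ ℂ :=
      Submodule.finrank_le _
    rw [Complex.finrank_real_complex] at h2
    rw [Fintype.card_coe] at h1
    omega
  have hcov : s ⊆ t.biUnion (fun v => s.filter (fun a => dot v (W a) ≤ 0)) := by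
    intro a ha
    obtain ⟨v, hv, hle⟩ := Cara.exists_le ht0 (W a)
    exact Finset.mem_biUnion.2 ⟨v, hv, Finset.mem_filter.2 ⟨ha, hle⟩⟩
  have h1 := Finset.card_le_card hcov
  have h2 : (t.biUnion (fun v => s.filter (fun a => dot v (W a) ≤ 0))).card ≤ t.card * m := by
    refine Finset.card_biUnion_le_card_mul _ _ _ (fun v hv => ?_)
    exact hO v (htO hv)
  have h3 : t.card * m ≤ 3 * m := Nat.mul_le_mul_right m hcard
  omega

end Pool.Agent.Lib.MP_c05127_co
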