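import Pool.Agent.Lib.MP_c05127_co.Spec

set_option linter.all false

/-! Closedness of the wall sets. -/

open scoped Classical

namespace Pool.Agent.Lib.MP_c05127_co.Clos

variable {ι : Type} [Fintype ι]

lemma cont_dot (a : ι) : Continuous (fun p : (ι → ℂ) × ℂ => dot p.2 (p.1 a)) := by
  have h : Continuous (fun p : (ι → ℂ) × ℂ => (p.2, p.1 a)) := by fun_prop
  exact continuous_dot.comp h

lemma cont_dot_left (v : ℂ) (a : ι) : Continuous (fun W : ι → ℂ => dot v (W a)) := by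
  have h : Continuous (fun W : ι → ℂ => (W, v)) := by fun_prop
  exact (cont_dot a).comp h

lemma closed_TT (r : ℕ) : IsClosed (TT ι r) := by
  have e : TT ι r = ⋃ P : Fin r → Finset ι, {W : ι → ℂ | ((∀ j, P j ⊆ Finset.univ) ∧
      (∀ i j, i ≠ j → Disjoint (P i) (P j))) ∧ ∀ j, ∀ v : ℂ, ∃ a ∈ P j, dot v (W a) ≤ 0} := by
    ext W
    simp only [TT, Tv, Set.mem_setOf_eq, Set.mem_iUnion, and_assoc]
  rw [e]
  refine isClosed_iUnion_of_finite fun P => ?_
  refine IsClosed.and isClosed_const ?_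
  have e2 : {W : ι → ℂ | ∀ j, ∀ v : ℂ, ∃ a ∈ P j, dot v (W a) ≤ 0} =
      ⋂ j, ⋂ v : ℂ, ⋃ a ∈ P j, {W : ι → ℂ | dot v (W a) ≤ 0} := by
    ext W
    simp only [Set.mem_setOf_eq, Set.mem_iInter, Set.mem_iUnion, exists_prop]
  rw [e2]
  refine isClosed_iInter fun j => isClosed_iInter fun v => ?_
  refine (P j).finite_toSet.isClosed_biUnion fun a _ => ?_
  exact isClosed_le (cont_dot_left v a) continuous_const

lemma closed_YY (r : ℕ) : IsClosed (YY ι r) := by
  have e : YY ι r = ⋂ v : ℂ, ⋂ _ : v ≠ 0, ⋃ S : Finset ι,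
      {W : ι → ℂ | r ≤ S.card ∧ ∀ a ∈ S, dot v (W a) ≤ 0} := by
    ext W
    simp only [YY, Dep, Set.mem_setOf_eq, Set.mem_iInter, Set.mem_iUnion]
    refine forall_congr' fun v => forall_congr' fun _ => ?_
    constructor
    · intro h
      exact ⟨_, h, fun a ha => (Finset.mem_filter.1 ha).2⟩
    · rintro ⟨S, hS, h⟩
      refine hS.trans (Finset.card_le_card fun a ha => ?_)
      exact Finset.mem_filter.2 ⟨Finset.mem_univ _, h a ha⟩
  rw [e]
  refine isClosed_iInter fun v => isClosed_iInter fun _ => ?_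
  refine isClosed_iUnion_of_finite fun S => ?_
  refine IsClosed.and isClosed_const ?_
  have e2 : {W : ι → ℂ | ∀ a ∈ S, dot v (W a) ≤ 0} =
      ⋂ a, ⋂ _ : a ∈ S, {W : ι → ℂ | dot v (W a) ≤ 0} := by
    ext W
    simp only [Set.mem_setOf_eq, Set.mem_iInter]
  rw [e2]
  exact isClosed_iInter fun a => isClosed_iInter fun _ =>
    isClosed_le (cont_dot_left v a) continuous_const

lemma closed_clt (s : Finset ι) (n : ℕ) :
    IsClosed {p : (ι → ℂ) × ℂ | clt s p.1 p.2 < n} := by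
  rw [← isOpen_compl_iff]
  have e : {p : (ι → ℂ) × ℂ | clt s p.1 p.2 < n}ᶜ =
      ⋃ S : Finset ι, {p : (ι → ℂ) × ℂ | (S ⊆ s ∧ n ≤ S.card) ∧
        ∀ a ∈ S, dot p.2 (p.1 a) < 0} := by
    ext p
    simp only [Set.mem_compl_iff, Set.mem_setOf_eq, not_lt, Set.mem_iUnion]
    constructor
    · intro h
      exact ⟨_, ⟨Finset.filter_subset _ _, h⟩, fun a ha => (Finset.mem_filter.1 ha).2⟩
    · rintro ⟨S, ⟨hs, hS⟩, h⟩
      refine hS.trans (Finset.card_le_card fun a ha => ?_)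
      exact Finset.mem_filter.2 ⟨hs ha, h a ha⟩
  rw [e]
  refine isOpen_iUnion fun S => ?_
  refine IsOpen.and isOpen_const ?_
  have e2 : {p : (ι → ℂ) × ℂ | ∀ a ∈ S, dot p.2 (p.1 a) < 0} =
      ⋂ a ∈ S, {p : (ι → ℂ) × ℂ | dot p.2 (p.1 a) < 0} := by
    ext p
    simp only [Set.mem_setOf_eq, Set.mem_iInter]
  rw [e2]
  exact isOpen_biInter_finset fun a _ => isOpen_lt (cont_dot a) continuous_const

lemma closed_proj {A : Set ((ι → ℂ) × ℂ)} (hA : IsClosed A) :
    IsClosed {W : ι → ℂ | ∃ v : ℂ, ‖v‖ = 1 ∧ (W, v) ∈ A} := by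
  have e : {W : ι → ℂ | ∃ v : ℂ, ‖v‖ = 1 ∧ (W, v) ∈ A} =
      Prod.fst '' {p : (ι → ℂ) × Metric.sphere (0 : ℂ) 1 | (p.1, (p.2 : ℂ)) ∈ A} := by
    ext W
    constructor
    · rintro ⟨v, hv, hW⟩
      exact ⟨(W, ⟨v, by simpa using hv⟩), hW, rfl⟩
    · rintro ⟨⟨W', v⟩, hW, rfl⟩
      exact ⟨v, by simpa using v.2, hW⟩
  rw [e]
  refine isClosedMap_fst_of_compactSpace _ ?_
  refine hA.preimage ?_
  fun_prop

end Pool.Agent.Lib.MP_c05127_co.Clos

namespace Pool.Agent.Lib.MP_c05127_co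

open Clos

theorem closStmt (h : WallStmt) : ClosStmt := by
  intro ι _ r a₀ hr hcard
  refine ⟨closed_TT r, closed_YY r, ?_, ?_⟩
  · have h1 : IsClosed {p : (ι → ℂ) × ℂ | clt Finset.univ p.1 p.2 < r ∧
        dot p.2 (p.1 a₀) = 0} :=
      IsClosed.and (closed_clt _ r) (isClosed_eq (cont_dot a₀) continuous_const)
    have h2 := (closed_YY (ι := ι) r).inter (closed_proj h1)
    exact h2
  · have h1 : IsClosed {p : (ι → ℂ) × ℂ | clt (Finset.univ.erase a₀) p.1 p.2 < r - 1 ∧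
        dot p.2 (p.1 a₀) ≤ 0} :=
      IsClosed.and (closed_clt _ (r - 1)) (isClosed_le (cont_dot a₀) continuous_const)
    have h2 := (closed_YY (ι := ι) r).inter (closed_proj h1)
    have hlt : ∀ (W : ι → ℂ) (v : ℂ), dot v (W a₀) < 0 →
        clt Finset.univ W v = clt (Finset.univ.erase a₀) W v + 1 := by
      intro W v hv
      unfold clt
      rw [Finset.filter_erase, Finset.card_erase_add_one]
      exact Finset.mem_filter.2 ⟨Finset.mem_univ _, hv⟩
    have hge : ∀ (W : ι → ℂ) (v : ℂ), ¬ dot v (W a₀) < 0 →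
        clt Finset.univ W v = clt (Finset.univ.erase a₀) W v := by
      intro W v hv
      unfold clt
      rw [Finset.filter_erase, Finset.erase_eq_of_notMem]
      intro hm
      exact hv (Finset.mem_filter.1 hm).2
    have hsub : Cm ι r a₀ ⊆ YY ι r ∩ {W : ι → ℂ | ∃ v : ℂ, ‖v‖ = 1 ∧
        (W, v) ∈ {p : (ι → ℂ) × ℂ | clt (Finset.univ.erase a₀) p.1 p.2 < r - 1 ∧
        dot p.2 (p.1 a₀) ≤ 0}} := by
      rintro W ⟨hD, v, hv, hc, hd⟩
      refine ⟨hD, v, hv, ?_, hd.le⟩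
      rw [hlt W v hd] at hc
      show clt (Finset.univ.erase a₀) W v < r - 1
      omega
    intro W hW
    obtain ⟨hD, v, hv, hc, hd⟩ := closure_minimal hsub h2 hW
    change clt (Finset.univ.erase a₀) W v < r - 1 at hc
    change dot v (W a₀) ≤ 0 at hd
    by_cases hd0 : dot v (W a₀) < 0
    · left
      refine ⟨hD, v, hv, ?_, hd0⟩
      rw [hlt W v hd0]
      omega
    · right
      by_contra hT
      have hv0 : v ≠ 0 := by
        intro h0
        rw [h0, norm_zero] at hv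
        exact zero_ne_one hv
      have h3 := ((h ι W r hr hcard hD hT).2.1 v hv0 (by rw [hge W v hd0]; omega)).1
      rw [hge W v hd0] at h3
      omega

end Pool.Agent.Lib.MP_c05127_co
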