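import Pool.Agent.Lib.MP_c05127_co.Spec

set_option linter.all false

open scoped Classical

namespace Pool.Agent.Lib.MP_c05127_co

namespace Cyc

open Real

lemma dot_arg (v w : ℂ) : dot v w = ‖v‖ * ‖w‖ * cos (Complex.arg w - Complex.arg v) := by
  have hv1 := Complex.norm_mul_cos_arg v
  have hv2 := Complex.norm_mul_sin_arg v
  have hw1 := Complex.norm_mul_cos_arg w
  have hw2 := Complex.norm_mul_sin_arg w
  unfold dot
  rw [cos_sub]
  calc v.re * w.re + v.im * w.im
      = (‖v‖ * cos v.arg) * (‖w‖ * cos w.arg) + (‖v‖ * sin v.arg) * (‖w‖ * sin w.arg) := by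
        rw [hv1, hw1, hv2, hw2]
    _ = _ := by ring

lemma ident (a b t β : ℝ) : sin (b - a) * cos (t - β) =
    sin (b - t) * cos (a - β) + sin (t - a) * cos (b - β) := by
  simp only [sin_sub, cos_sub]
  have h1 := sin_sq_add_cos_sq t
  have h2 := sin_sq_add_cos_sq β
  ring_nf

lemma claimA {a b t β : ℝ} (hat : a ≤ t) (htb : t ≤ b) (hab : b - a < π)
    (ha : 0 < cos (a - β)) (hb : 0 < cos (b - β)) : 0 < cos (t - β) := by
  rcases eq_or_lt_of_le hat with h | h
  · rw [← h]; exact ha
  rcases eq_or_lt_of_le htb with h' | h'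
  · rw [h']; exact hb
  have h1 : 0 < sin (b - a) := sin_pos_of_pos_of_lt_pi (by linarith) hab
  have h2 : 0 < sin (b - t) := sin_pos_of_pos_of_lt_pi (by linarith) (by linarith)
  have h3 : 0 < sin (t - a) := sin_pos_of_pos_of_lt_pi (by linarith) (by linarith)
  have := ident a b t β
  have h4 : 0 < sin (b - a) * cos (t - β) := by rw [this]; positivity
  exact (mul_pos_iff_of_pos_left h1).1 h4

lemma sin_neg_of {x : ℝ} (h1 : π < x) (h2 : x < 2 * π) : sin x < 0 := by
  have : sin x = - sin (x - π) := by rw [sin_sub_pi]; ring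
  rw [this]
  have := sin_pos_of_pos_of_lt_pi (x := x - π) (by linarith) (by linarith)
  linarith

lemma claimB {a b t β : ℝ} (ha1 : -π < a) (hb1 : b ≤ π) (ht1 : -π < t) (ht2 : t ≤ π)
    (hab : π < b - a) (h : t ≤ a ∨ b ≤ t)
    (ha : 0 < cos (a - β)) (hb : 0 < cos (b - β)) : 0 < cos (t - β) := by
  have hpi := Real.pi_pos
  have h1 : sin (b - a) < 0 := sin_neg_of hab (by linarith)
  have hid := ident a b t β
  rcases h with h | h
  · have h2 : sin (b - t) < 0 := sin_neg_of (by linarith) (by linarith)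
    have h3 : sin (t - a) ≤ 0 := sin_nonpos_of_nonpos_of_neg_pi_le (by linarith) (by linarith)
    have h4 : sin (b - a) * cos (t - β) < 0 := by
      rw [hid]; nlinarith
    by_contra hcon
    push Not at hcon
    nlinarith
  · have h2 : sin (b - t) ≤ 0 := sin_nonpos_of_nonpos_of_neg_pi_le (by linarith) (by linarith)
    have h3 : sin (t - a) < 0 := sin_neg_of (by linarith) (by linarith)
    have h4 : sin (b - a) * cos (t - β) < 0 := by
      rw [hid]; nlinarith
    by_contra hcon
    push Not at hcon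
    nlinarith

lemma not_pi {a b β : ℝ} (ha : 0 < cos (a - β)) (hb : 0 < cos (b - β)) : b - a ≠ π := by
  intro h
  have : b - β = (a - β) + π := by linarith
  rw [this, cos_add_pi] at hb
  linarith

/-- the counting part on `Fin (3 m)` -/
lemma count {m : ℕ} (θ : ℕ → ℝ) (hmono : ∀ i k, i ≤ k → k < 3 * m → θ i ≤ θ k)
    (h1 : ∀ k < 3 * m, -π < θ k) (h2 : ∀ k < 3 * m, θ k ≤ π) (β : ℝ) {j : ℕ} (hj : j < m)
    (ha : 0 < cos (θ j - β)) (hb : 0 < cos (θ (j + m) - β)) (hc : 0 < cos (θ (j + 2 * m) - β)) :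
    2 * m + 1 ≤ ((Finset.range (3 * m)).filter fun k => 0 < cos (θ k - β)).card := by
  have e1 : θ j ≤ θ (j + m) := hmono _ _ (by omega) (by omega)
  have e2 : θ (j + m) ≤ θ (j + 2 * m) := hmono _ _ (by omega) (by omega)
  have fin : ∀ T : Finset ℕ, (∀ k ∈ T, k < 3 * m ∧ 0 < cos (θ k - β)) → 2 * m + 1 ≤ T.card →
      2 * m + 1 ≤ ((Finset.range (3 * m)).filter fun k => 0 < cos (θ k - β)).card := by
    intro T hT hc
    refine hc.trans (Finset.card_le_card fun k hk => ?_)
    simp only [Finset.mem_filter, Finset.mem_range]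
    exact hT k hk
  have n13 := not_pi ha hc
  have n12 := not_pi ha hb
  have n23 := not_pi hb hc
  rcases lt_or_gt_of_ne n13 with h13 | h13
  · refine fin (Finset.Icc j (j + 2 * m)) (fun k hk => ?_) (by simp; omega)
    rw [Finset.mem_Icc] at hk
    exact ⟨by omega, claimA (hmono _ _ hk.1 (by omega)) (hmono _ _ hk.2 (by omega)) h13 ha hc⟩
  · rcases lt_or_gt_of_ne n12 with h12 | h12
    · rcases lt_or_gt_of_ne n23 with h23 | h23
      · refine fin (Finset.range (3 * m)) (fun k hk => ?_) (by simp; omega)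
        rw [Finset.mem_range] at hk
        refine ⟨hk, ?_⟩
        by_cases c1 : k ≤ j
        · exact claimB (h1 _ (by omega)) (h2 _ (by omega)) (h1 _ hk) (h2 _ hk) h13
            (Or.inl (hmono _ _ c1 (by omega))) ha hc
        by_cases c2 : k ≤ j + m
        · exact claimA (hmono _ _ (by omega) (by omega)) (hmono _ _ c2 (by omega)) h12 ha hb
        by_cases c3 : k ≤ j + 2 * m
        · exact claimA (hmono _ _ (by omega) (by omega)) (hmono _ _ c3 (by omega)) h23 hb hc
        · exact claimB (h1 _ (by omega)) (h2 _ (by omega)) (h1 _ hk) (h2 _ hk) h13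
            (Or.inr (hmono _ _ (by omega) (by omega))) ha hc
      · refine fin (Finset.range (3 * m) \ Finset.Ioo (j + m) (j + 2 * m)) (fun k hk => ?_) ?_
        · rw [Finset.mem_sdiff, Finset.mem_range, Finset.mem_Ioo] at hk
          refine ⟨hk.1, ?_⟩
          refine claimB (h1 _ (by omega)) (h2 _ (by omega)) (h1 _ hk.1) (h2 _ hk.1) h23 ?_ hb hc
          rcases le_or_gt k (j + m) with c | c
          · exact Or.inl (hmono _ _ c (by omega))
          · exact Or.inr (hmono _ _ (by omega) (by omega))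
        · rw [Finset.card_sdiff_of_subset]
          · simp; omega
          · intro k hk
            rw [Finset.mem_Ioo] at hk
            rw [Finset.mem_range]; omega
    · refine fin (Finset.range (3 * m) \ Finset.Ioo j (j + m)) (fun k hk => ?_) ?_
      · rw [Finset.mem_sdiff, Finset.mem_range, Finset.mem_Ioo] at hk
        refine ⟨hk.1, ?_⟩
        refine claimB (h1 _ (by omega)) (h2 _ (by omega)) (h1 _ hk.1) (h2 _ hk.1) h12 ?_ ha hb
        rcases le_or_gt k j with c | c
        · exact Or.inl (hmono _ _ c (by omega))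
        · exact Or.inr (hmono _ _ (by omega) (by omega))
      · rw [Finset.card_sdiff_of_subset]
        · simp; omega
        · intro k hk
          rw [Finset.mem_Ioo] at hk
          rw [Finset.mem_range]; omega

end Cyc

open Cyc in
theorem cycStmt : CycStmt := by
  intro ι s W m hcard hne hdep
  -- enumeration
  obtain ⟨e, hmono⟩ : ∃ e : Fin (3 * m) ≃ s, Monotone (fun k => Complex.arg (W (e k))) := by
    let e0 : Fin (3 * m) ≃ s := (s.equivFinOfCardEq hcard).symm
    let f : Fin (3 * m) → ℝ := fun k => Complex.arg (W (e0 k))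
    refine ⟨(Tuple.sort f).trans e0, ?_⟩
    exact Tuple.monotone_sort f
  obtain ⟨θ, hθ⟩ : ∃ θ : ℕ → ℝ, ∀ k : Fin (3 * m), θ k = Complex.arg (W (e k)) :=
    ⟨fun k => if h : k < 3 * m then Complex.arg (W (e ⟨k, h⟩)) else 0, fun k => by
      simp [k.isLt]⟩
  have hj0 : ∀ j : Fin m, (j : ℕ) < 3 * m := fun j => by have := j.isLt; omega
  have hj1 : ∀ j : Fin m, (j : ℕ) + m < 3 * m := fun j => by have := j.isLt; omega
  have hj2 : ∀ j : Fin m, (j : ℕ) + 2 * m < 3 * m := fun j => by have := j.isLt; omega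
  refine ⟨fun j => {(e ⟨j, hj0 j⟩ : ι), (e ⟨j + m, hj1 j⟩ : ι), (e ⟨j + 2 * m, hj2 j⟩ : ι)},
    ?_, ?_, ?_⟩
  · intro j x hx
    simp only [Finset.mem_insert, Finset.mem_singleton] at hx
    rcases hx with rfl | rfl | rfl <;> exact Subtype.property _
  · intro i j hij
    have hij' : (i : ℕ) ≠ j := fun h => hij (Fin.ext h)
    have hi := i.isLt
    have hj := j.isLt
    rw [Finset.disjoint_left]
    intro x hx hx'
    simp only [Finset.mem_insert, Finset.mem_singleton] at hx hx'
    rcases hx with rfl | rfl | rfl <;> rcases hx' with h | h | h <;>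
      · have h' := e.injective (Subtype.ext h)
        rw [Fin.mk.injEq] at h'
        omega
  · intro j v
    by_contra hcon
    push Not at hcon
    have p1 := hcon (e ⟨j, hj0 j⟩) (by simp)
    have p2 := hcon (e ⟨j + m, hj1 j⟩) (by simp)
    have p3 := hcon (e ⟨j + 2 * m, hj2 j⟩) (by simp)
    have hv : v ≠ 0 := by
      intro h
      rw [h, zero_dot] at p1
      exact lt_irrefl _ p1
    have hvn : 0 < ‖v‖ := norm_pos_iff.2 hv
    have hpos : ∀ k : Fin (3 * m), 0 < dot v (W (e k)) ↔
        0 < Real.cos (θ k - Complex.arg v) := by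
      intro k
      rw [dot_arg, hθ]
      have : 0 < ‖W (e k)‖ := norm_pos_iff.2 (hne _ (e k).2)
      exact mul_pos_iff_of_pos_left (by positivity)
    have q1 := (hpos ⟨j, hj0 j⟩).1 p1
    have q2 := (hpos ⟨j + m, hj1 j⟩).1 p2
    have q3 := (hpos ⟨j + 2 * m, hj2 j⟩).1 p3
    have hc := count θ (fun i k hik hk => by
        have := hmono (show (⟨i, by omega⟩ : Fin (3 * m)) ≤ ⟨k, hk⟩ from hik)
        have a1 := hθ ⟨i, by omega⟩
        have a2 := hθ ⟨k, hk⟩
        simp only at a1 a2 this
        rw [a1, a2]; exact this)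
      (fun k hk => by
        have a1 := hθ ⟨k, hk⟩
        simp only at a1
        rw [a1]; exact Complex.neg_pi_lt_arg _)
      (fun k hk => by
        have a1 := hθ ⟨k, hk⟩
        simp only at a1
        rw [a1]; exact Complex.arg_le_pi _) (Complex.arg v) j.isLt q1 q2 q3
    have hd := hdep v hv
    unfold cle at hd
    -- the positive ones in s
    have hsplit := Finset.card_filter_add_card_filter_not (s := s) (fun a => dot v (W a) ≤ 0)
    have himg : ((Finset.range (3 * m)).filter fun k => 0 < Real.cos (θ k - v.arg)).card ≤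
        (s.filter fun a => ¬ dot v (W a) ≤ 0).card := by
      refine Finset.card_le_card_of_injOn
        (fun k => if h : k < 3 * m then (e ⟨k, h⟩ : ι) else (e ⟨j, hj0 j⟩ : ι))
        ?_ ?_
      · intro k hk
        simp only [Finset.coe_filter, Finset.mem_range, Set.mem_setOf_eq] at hk
        simp only [Finset.coe_filter, Set.mem_setOf_eq, hk.1, dif_pos, not_le]
        exact ⟨(e ⟨k, hk.1⟩).2, (hpos ⟨k, hk.1⟩).2 hk.2⟩
      · intro k hk k' hk' h
        simp only [Finset.coe_filter, Finset.mem_range, Set.mem_setOf_eq] at hk hk'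
        simp only [hk.1, hk'.1, dif_pos] at h
        have h' := e.injective (Subtype.ext h)
        rw [Fin.mk.injEq] at h'
        exact h'
    omega

end Pool.Agent.Lib.MP_c05127_co
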