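import Pool.Agent.Lib.MP_c05127_co.Stmt

set_option linter.all false

/-!
MP_c05127_co (Tverberg-Vrecica for regression depth), the case k = 2. Definitions only.
-/

open scoped Classical

namespace Pool.Agent.Lib.MP_c05127_co

/-! ## The plane -/

/-- the real inner product of `ℂ` -/
def dot (v w : ℂ) : ℝ := v.re * w.re + v.im * w.im

/-- number of the `a ∈ s` with `dot v (W a) ≤ 0` -/
noncomputable def cle {ι : Type} (s : Finset ι) (W : ι → ℂ) (v : ℂ) : ℕ :=
  (s.filter (fun a => dot v (W a) ≤ 0)).card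

/-- number of the `a ∈ s` with `dot v (W a) < 0` -/
noncomputable def clt {ι : Type} (s : Finset ι) (W : ι → ℂ) (v : ℂ) : ℕ :=
  (s.filter (fun a => dot v (W a) < 0)).card

/-- the origin has depth at least `m` with respect to the vectors `W a`, `a ∈ s` -/
def Dep {ι : Type} (s : Finset ι) (W : ι → ℂ) (m : ℕ) : Prop := ∀ v : ℂ, v ≠ 0 → m ≤ cle s W v

/-- the origin is a Tverberg point of order `m` of the vectors `W a`, `a ∈ s` (dual form) -/
def Tv {ι : Type} (s : Finset ι) (W : ι → ℂ) (m : ℕ) : Prop :=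
  ∃ P : Fin m → Finset ι, (∀ j, P j ⊆ s) ∧ (∀ i j, i ≠ j → Disjoint (P i) (P j)) ∧
    ∀ j, ∀ v : ℂ, ∃ a ∈ P j, dot v (W a) ≤ 0

/-- A continuous weight, positive exactly at the `v` with `dot v (W a) > 0` for at least `n` of the
`a`. -/
noncomputable def rho {ι : Type} [Fintype ι] (n : ℕ) (W : ι → ℂ) (v : ℂ) : ℝ :=
  ∑ S ∈ Finset.powersetCard n (Finset.univ : Finset ι), ∏ a ∈ S, max 0 (dot v (W a))

/-- the centre field: the mean of `v` with weight `rho` -/
noncomputable def Fav {ι : Type} [Fintype ι] (n : ℕ) (W : ι → ℂ) : ℂ :=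
  ∫ v in Metric.closedBall (0 : ℂ) 1, (rho n W v : ℂ) * v

/-! ## Chains -/

/-- the third root of unity -/
noncomputable def om : ℂ := Complex.exp (2 * Real.pi * Complex.I / 3)

/-- ordered chains, augmented by the empty list -/
abbrev Ch (X : Type) : Type := List X →₀ ZMod 3

/-- the cone with apex `x` -/
noncomputable def cone {X : Type} (x : X) : Ch X →ₗ[ZMod 3] Ch X :=
  Finsupp.lmapDomain (ZMod 3) (ZMod 3) (fun l => x :: l)

/-- boundary of a list -/
noncomputable def bdL {X : Type} : List X → Ch X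
  | [] => 0
  | x :: l => Finsupp.single l 1 - cone x (bdL l)

/-- the boundary -/
noncomputable def bd {X : Type} : Ch X →ₗ[ZMod 3] Ch X := Finsupp.linearCombination (ZMod 3) bdL

/-- the action of a map on chains -/
noncomputable def act {X : Type} (g : X → X) : Ch X →ₗ[ZMod 3] Ch X :=
  Finsupp.lmapDomain (ZMod 3) (ZMod 3) (List.map g)

/-- `g - 1` for even `k`, `1 + g + g^2` for odd `k` -/
noncomputable def theta {M : Type} [AddCommGroup M] [Module (ZMod 3) M] (g : M →ₗ[ZMod 3] M)
    (k : ℕ) : M →ₗ[ZMod 3] M :=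
  if Even k then g - LinearMap.id else LinearMap.id + g + g ∘ₗ g

/-- multiplication by the third root of unity -/
noncomputable def mulOm {M : ℕ} (x : Fin M → ℂ) : Fin M → ℂ := fun j => om * x j

/-- the cell of the sign vector `s` in the join of `M` copies of the third roots of unity -/
def Cell {M : ℕ} (s : Fin M → ℕ) : Set (Fin M → ℂ) :=
  {x | ∃ t : Fin M → ℝ, (∀ j, 0 ≤ t j) ∧ ∑ j, t j = 1 ∧ ∀ j, x j = (t j : ℂ) * om ^ s j}

/-- lists of `k` points of a common cell with mutual distances at most `δ` -/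
def Good {M : ℕ} (δ : ℝ) (k : ℕ) (l : List (Fin M → ℂ)) : Prop :=
  l.length = k ∧ (∃ s, ∀ x ∈ l, x ∈ Cell s) ∧ ∀ x ∈ l, ∀ y ∈ l, dist x y ≤ δ

/-- the chains supported by the lists with the property `R` -/
noncomputable def Sp {X : Type} (R : List X → Prop) : Submodule (ZMod 3) (Ch X) :=
  Submodule.span (ZMod 3) {c | ∃ l, R l ∧ c = Finsupp.single l 1}

/-! ## Words -/

/-- words of length `m` with letters in `ℤ/3 ∪ {none}`: the faces of the join of `m` copies of
`ℤ/3` (including the empty face) -/
abbrev Wd (m : ℕ) : Type := Fin m → Option (ZMod 3)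

/-- chains of words -/
abbrev WC (m : ℕ) : Type := Wd m →₀ ZMod 3

/-- sign: parity of the number of letters before `j` -/
noncomputable def sg {m : ℕ} (w : Wd m) (j : Fin m) : ZMod 3 :=
  (-1) ^ (Finset.univ.filter (fun i : Fin m => i < j ∧ w i ≠ none)).card

/-- the boundary of a word -/
noncomputable def dWw {m : ℕ} (w : Wd m) : WC m :=
  ∑ j, if w j = none then 0 else sg w j • Finsupp.single (Function.update w j none) 1

/-- the boundary -/
noncomputable def dW {m : ℕ} : WC m →ₗ[ZMod 3] WC m := Finsupp.linearCombination (ZMod 3) dWw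

/-- insertion of the letter `p.1` at the place `p.2` into a word -/
noncomputable def insw {m : ℕ} (p : ZMod 3 × Fin m) (w : Wd m) : WC m :=
  if w p.2 = none then sg w p.2 • Finsupp.single (Function.update w p.2 (some p.1)) 1 else 0

/-- insertion -/
noncomputable def ins {m : ℕ} (p : ZMod 3 × Fin m) : WC m →ₗ[ZMod 3] WC m :=
  Finsupp.linearCombination (ZMod 3) (insw p)

/-- the shift of all the letters by one -/
noncomputable def gW {m : ℕ} : WC m →ₗ[ZMod 3] WC m :=
  Finsupp.lmapDomain (ZMod 3) (ZMod 3) (fun w i => (w i).map (· + 1))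

/-- the empty word -/
noncomputable def eW {m : ℕ} : WC m := Finsupp.single (fun _ => none) 1

/-- the word chain of a labelled list -/
noncomputable def PhL {X : Type} {m : ℕ} (lab : X → ZMod 3 × Fin m) : List X → WC m
  | [] => eW
  | x :: l => ins (lab x) (PhL lab l)

/-- the chain map given by a labelling -/
noncomputable def Ph {X : Type} {m : ℕ} (lab : X → ZMod 3 × Fin m) : Ch X →ₗ[ZMod 3] WC m :=
  Finsupp.linearCombination (ZMod 3) (PhL lab)

end Pool.Agent.Lib.MP_c05127_co
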