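import Pool.Agent.Lib.MP_c05127_co.Spec

set_option linter.all false

/-!
MP_c05127_co, module Desc (helper45): the descending induction.
-/

open scoped Classical

namespace Pool.Agent.Lib.MP_c05127_co.Desc

lemma theta_comm {M : Type} [AddCommGroup M] [Module (ZMod 3) M] (g f : M →ₗ[ZMod 3] M)
    (h : ∀ c, f (g c) = g (f c)) (k : ℕ) (c : M) : f (theta g k c) = theta g k (f c) := by
  by_cases hk : Even k
  · rw [theta_even g hk, theta_even g hk, map_sub, h]
  · rw [theta_odd g hk, theta_odd g hk, map_add, map_add, h, h, h]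

lemma act_mem {X : Type} {g : X → X} {R : List X → Prop} (hR : ∀ l, R l → R (l.map g))
    {c : Ch X} (hc : c ∈ Sp R) : act g c ∈ Sp R := by
  unfold Sp at hc ⊢
  induction hc using Submodule.span_induction with
  | mem x hx =>
    obtain ⟨l, hl, rfl⟩ := hx
    rw [act_single]
    exact Submodule.subset_span ⟨_, hR l hl, rfl⟩
  | zero => rw [map_zero]; exact Submodule.zero_mem _
  | add x y _ _ hx hy => rw [map_add]; exact Submodule.add_mem _ hx hy
  | smul a x _ hx => rw [map_smul]; exact Submodule.smul_mem _ _ hx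

lemma gW_none {m : ℕ} (c : WC m) : gW c (fun _ => none) = c (fun _ => none) := by
  have hinj : Function.Injective (fun (w : Wd m) (i : Fin m) => (w i).map (· + (1 : ZMod 3))) := by
    intro w w' h
    funext i
    have h1 := congrFun h i
    exact Option.map_injective (add_left_injective (1 : ZMod 3)) h1
  have h1 : gW c = Finsupp.mapDomain
      (fun (w : Wd m) (i : Fin m) => (w i).map (· + (1 : ZMod 3))) c := rfl
  rw [h1]
  exact Finsupp.mapDomain_apply hinj c (fun _ => none)

end Pool.Agent.Lib.MP_c05127_co.Desc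

namespace Pool.Agent.Lib.MP_c05127_co

open Desc

theorem descStmt (h1 : WRelStmt) (h2 : WExStmt) (h3 : PhStmt) : DescStmt := by
  rintro X g m lab R hRg hlab hsame ⟨φ, hφ, hφ0, hφs⟩
  obtain ⟨hdd, hdg, _, _, _, he⟩ := h1
  obtain ⟨hA, hB, hC⟩ := h3 X g m lab R hlab hsame
  have hmem : ∀ k ≤ m, φ k ∈ Sp R := by
    intro k hk
    have h4 := hφ k hk
    unfold Sp at h4 ⊢
    refine Submodule.span_mono ?_ h4
    rintro c ⟨l, hl, rfl⟩
    exact ⟨l, hl.1, rfl⟩
  -- `Ph` commutes with `theta`
  have hPt : ∀ (k : ℕ) (c : Ch X), c ∈ Sp R →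
      Ph lab (theta (act g) k c) = theta gW k (Ph lab c) := by
    intro k c hc
    by_cases hk : Even k
    · rw [theta_even _ hk, theta_even _ hk, map_sub, hA c hc]
    · rw [theta_odd _ hk, theta_odd _ hk, map_add, map_add, hA c hc, hA _ (act_mem hRg hc),
        hA c hc]
  have hpm : Ph lab (φ m) = 0 := by
    have h4 := hφ m le_rfl
    unfold Sp at h4
    generalize φ m = c at h4
    induction h4 using Submodule.span_induction with
    | mem x hx =>
      obtain ⟨l, hl, rfl⟩ := hx
      exact hC l (by omega)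
    | zero => exact map_zero _
    | add x y _ _ hx hy => rw [map_add, hx, hy, add_zero]
    | smul a x _ hx => rw [map_smul, hx, smul_zero]
  have hstep : ∀ k < m, dW (Ph lab (φ (k + 1))) = theta gW k (Ph lab (φ k)) := by
    intro k hk
    rw [hB _ (hmem (k + 1) hk), hφs k hk, hPt k _ (hmem k hk.le)]
  have h0 : dW (Ph lab (φ 0)) = (eW : WC m) := by
    rw [hB _ (hmem 0 (Nat.zero_le m)), hφ0]
    unfold Ph
    rw [Finsupp.linearCombination_single, one_smul]
    rfl
  have hcomm : ∀ (k : ℕ) (c : WC m), dW (theta gW k c) = theta gW k (dW c) := fun k c =>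
    theta_comm gW dW (hdg m) k c
  have hclaim : ∀ j ≤ m, ∃ (y z : WC m) (a : ZMod 3),
      Ph lab (φ (m - j)) = dW y + theta gW (m - j + 1) z + a • eW := by
    intro j
    induction j with
    | zero =>
      intro _
      refine ⟨0, 0, 0, ?_⟩
      rw [Nat.sub_zero, hpm, map_zero, map_zero, zero_smul, add_zero, add_zero]
    | succ j ih =>
      intro hj
      obtain ⟨y, z, a, h4⟩ := ih (by omega)
      have e : m - j = (m - (j + 1)) + 1 := by omega
      rw [e] at h4
      set k := m - (j + 1) with hk
      have h5 := hstep k (by omega)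
      rw [h4, map_add, map_add, map_smul, hdd, (he m).1, smul_zero, add_zero, zero_add, hcomm,
        theta_add_two] at h5
      have h6 : theta gW k (Ph lab (φ k) - dW z) = 0 := by
        rw [map_sub, ← h5, sub_self]
      obtain ⟨z', a', h7⟩ := h2 m k _ h6
      refine ⟨z, z', a', ?_⟩
      rw [add_assoc, ← h7]
      abel
  obtain ⟨y, z, a, h4⟩ := hclaim m le_rfl
  rw [Nat.sub_self] at h4
  rw [h4, map_add, map_add, map_smul, hdd, (he m).1, smul_zero, add_zero, zero_add, hcomm] at h0
  have hodd : ¬ Even (0 + 1) := by decide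
  rw [theta_odd gW hodd] at h0
  have h5 := DFunLike.congr_fun h0 (fun _ => none)
  rw [Finsupp.add_apply, Finsupp.add_apply, gW_none, gW_none, gW_none] at h5
  have h6 : (eW : WC m) (fun _ => none) = 1 := by
    unfold eW
    rw [Finsupp.single_eq_same]
  rw [h6] at h5
  revert h5
  generalize (dW z) (fun _ => none) = b
  revert b
  decide

end Pool.Agent.Lib.MP_c05127_co
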