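import Pool.Agent.Lib.MP_c05127_co.Spec

set_option linter.all false

open scoped Classical
open MeasureTheory

namespace Pool.Agent.Lib.MP_c05127_co.Fc

open Pool.Agent.Lib.MP_c05127_co

lemma dot_rot {z : ℂ} (hz : ‖z‖ = 1) (v w : ℂ) : dot (z * v) (z * w) = dot v w := by
  have h : z.re * z.re + z.im * z.im = 1 := by
    have h1 := Complex.normSq_apply z
    rw [Complex.normSq_eq_norm_sq, hz] at h1
    linarith
  unfold dot
  simp only [Complex.mul_re, Complex.mul_im]
  linear_combination (v.re * w.re + v.im * w.im) * h

lemma rho_rot {ι : Type} [Fintype ι] (n : ℕ) {z : ℂ} (hz : ‖z‖ = 1) (W : ι → ℂ) (v : ℂ) :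
    rho n (fun a => z * W a) (z * v) = rho n W v := by
  unfold rho
  refine Finset.sum_congr rfl fun S _ => Finset.prod_congr rfl fun a _ => ?_
  rw [dot_rot hz]

lemma cont_uncurry {ι : Type} [Fintype ι] (n : ℕ) :
    Continuous (Function.uncurry (fun (W : ι → ℂ) (v : ℂ) => (rho n W v : ℂ) * v)) := by
  unfold rho Function.uncurry
  refine Continuous.mul ?_ continuous_snd
  refine Complex.continuous_ofReal.comp ?_
  refine continuous_finsetSum _ fun S _ => continuous_finsetProd _ fun a _ => ?_
  refine continuous_const.max ?_
  unfold dot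
  fun_prop

end Pool.Agent.Lib.MP_c05127_co.Fc

namespace Pool.Agent.Lib.MP_c05127_co

open Fc

theorem fcStmt : FcStmt := by
  intro ι _ n
  constructor
  · unfold Fav
    exact continuous_parametric_integral_of_continuous (cont_uncurry n) (isCompact_closedBall 0 1)
  · intro z hz W
    have hz' : z ≠ 0 := by
      intro h
      rw [h, norm_zero] at hz
      exact zero_ne_one hz
    let c : Circle := ⟨z, mem_sphere_zero_iff_norm.2 hz⟩
    have hrot : ∀ v, rotation c v = z * v := fun v => rotation_apply c v
    have hmp : MeasurePreserving (rotation c) volume volume :=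
      (rotation c).measurePreserving
    have hemb : MeasurableEmbedding (rotation c) :=
      (rotation c).toHomeomorph.measurableEmbedding
    have hpre : rotation c ⁻¹' (Metric.closedBall (0 : ℂ) 1) = Metric.closedBall (0 : ℂ) 1 := by
      ext v
      simp only [Set.mem_preimage, mem_closedBall_zero_iff, LinearIsometryEquiv.norm_map]
    unfold Fav
    have h1 := hmp.setIntegral_preimage_emb hemb
      (fun v => (rho n (fun a => z * W a) v : ℂ) * v) (Metric.closedBall (0 : ℂ) 1)
    rw [hpre] at h1
    rw [← h1]
    simp only [hrot]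
    rw [← integral_const_mul]
    refine integral_congr_ae ?_
    refine Filter.Eventually.of_forall fun v => ?_
    simp only [rho_rot n hz]
    ring

end Pool.Agent.Lib.MP_c05127_co
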