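import Pool.Agent.Lib.MP_c05127_co.Spec

set_option linter.all false

open scoped Classical
open MeasureTheory

namespace Pool.Agent.Lib.MP_c05127_co

namespace Fh

variable {ι : Type} [Fintype ι]

lemma rho_cont (n : ℕ) (W : ι → ℂ) : Continuous (rho n W) := by
  unfold rho dot
  fun_prop

lemma rho_nonneg (n : ℕ) (W : ι → ℂ) (v : ℂ) : 0 ≤ rho n W v :=
  Finset.sum_nonneg fun S _ => Finset.prod_nonneg fun a _ => le_max_left _ _

lemma rho_mono (n : ℕ) (W : ι → ℂ) {v v' : ℂ} (h : ∀ a, dot v (W a) ≤ dot v' (W a)) :
    rho n W v ≤ rho n W v' :=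
  Finset.sum_le_sum fun S _ => Finset.prod_le_prod (fun a _ => le_max_left _ _)
    fun a _ => max_le_max le_rfl (h a)

/-- the reflection -/
noncomputable def R (u v : ℂ) : ℂ := v - ((2 * (dot u v / ‖u‖ ^ 2) : ℝ) : ℂ) * u

lemma dot_R (u v w : ℂ) : dot (R u v) w = dot v w - 2 * (dot u v / ‖u‖ ^ 2) * dot u w := by
  unfold R
  rw [sub_eq_add_neg, add_dot, neg_dot, smul_dot]
  ring

lemma dot_u_R {u : ℂ} (hu : u ≠ 0) (v : ℂ) : dot u (R u v) = - dot u v := by
  rw [dot_comm, dot_R, dot_comm v u, dot_self]
  have : ‖u‖ ≠ 0 := norm_ne_zero_iff.2 hu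
  field_simp
  ring

lemma R_R {u : ℂ} (hu : u ≠ 0) (v : ℂ) : R u (R u v) = v := by
  have h := dot_u_R hu v
  unfold R at h ⊢
  rw [h]
  push_cast
  ring

lemma norm_R {u : ℂ} (hu : u ≠ 0) (v : ℂ) : ‖R u v‖ = ‖v‖ := by
  have h1 : dot (R u v) (R u v) = dot v v := by
    rw [dot_R, dot_u_R hu, dot_comm v (R u v), dot_R, dot_comm u v]
    ring
  rw [dot_self, dot_self] at h1
  exact (pow_left_inj₀ (norm_nonneg _) (norm_nonneg _) (by norm_num)).1 h1

/-- the reflection as a linear isometry -/
noncomputable def RL {u : ℂ} (hu : u ≠ 0) : ℂ ≃ₗᵢ[ℝ] ℂ where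
  toFun := R u
  map_add' v w := by unfold R; rw [dot_add]; push_cast; ring
  map_smul' c v := by
    unfold R
    have : dot u (c • v) = c * dot u v := by
      rw [Complex.real_smul, dot_smul]
    rw [this]
    simp only [Complex.real_smul, RingHom.id_apply]
    push_cast
    ring
  invFun := R u
  left_inv := R_R hu
  right_inv := R_R hu
  norm_map' v := norm_R hu v

lemma RL_apply {u : ℂ} (hu : u ≠ 0) (v : ℂ) : RL hu v = R u v := rfl

lemma integral_refl {u : ℂ} (hu : u ≠ 0) (f : ℂ → ℝ) :
    ∫ v in Metric.closedBall (0 : ℂ) 1, f (R u v) = ∫ v in Metric.closedBall (0 : ℂ) 1, f v := by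
  have hmp : MeasurePreserving (RL hu) volume volume := (RL hu).measurePreserving
  have hpre : (RL hu) ⁻¹' (Metric.closedBall (0 : ℂ) 1) = Metric.closedBall (0 : ℂ) 1 := by
    ext v
    simp [RL_apply, norm_R hu]
  have := hmp.setIntegral_preimage_emb (RL hu).toHomeomorph.measurableEmbedding f
    (Metric.closedBall (0 : ℂ) 1)
  rw [hpre] at this
  exact this

end Fh

open Fh in
theorem fhStmt : FhStmt := by
  intro ι _ n hn W u hu hW
  have hcont := rho_cont n W
  have hdc : Continuous (fun v : ℂ => dot u v) := by unfold dot; fun_prop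
  have hRc : Continuous (R u) := (RL hu).continuous
  have hint : ∀ f : ℂ → ℝ, Continuous f → IntegrableOn f (Metric.closedBall (0 : ℂ) 1) :=
    fun f hf => hf.continuousOn.integrableOn_compact (isCompact_closedBall _ _)
  -- the inner product of the mean
  have h1 : dot u (Fav n W) = ∫ v in Metric.closedBall (0 : ℂ) 1, rho n W v * dot u v := by
    have hi : IntegrableOn (fun v : ℂ => (rho n W v : ℂ) * v) (Metric.closedBall (0 : ℂ) 1) := by
      have : Continuous fun v : ℂ => (rho n W v : ℂ) * v := by fun_prop
      exact this.continuousOn.integrableOn_compact (isCompact_closedBall _ _)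
    let T : ℂ →L[ℝ] ℝ := LinearMap.toContinuousLinearMap
      { toFun := fun v => dot u v
        map_add' := fun v w => dot_add u v w
        map_smul' := fun c v => by
          rw [Complex.real_smul, dot_smul]; rfl }
    have := T.integral_comp_comm hi
    have e1 : ∀ v : ℂ, T ((rho n W v : ℂ) * v) = rho n W v * dot u v := by
      intro v
      exact dot_smul u v (rho n W v)
    simp only [e1] at this
    rw [this]
    rfl
  have h2 : 2 * dot u (Fav n W) =
      ∫ v in Metric.closedBall (0 : ℂ) 1, (rho n W v - rho n W (R u v)) * dot u v := by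
    have h3 := integral_refl hu (fun v => rho n W v * dot u v)
    have h4 : ∫ v in Metric.closedBall (0 : ℂ) 1, (rho n W v - rho n W (R u v)) * dot u v =
        (∫ v in Metric.closedBall (0 : ℂ) 1, rho n W v * dot u v) +
        ∫ v in Metric.closedBall (0 : ℂ) 1, rho n W (R u v) * dot u (R u v) := by
      rw [← integral_add (hint _ (by fun_prop)) (hint _ (by fun_prop))]
      congr 1
      funext v
      rw [dot_u_R hu]
      ring
    rw [h4, h3, ← h1]
    ring
  have key : ∀ v : ℂ, 0 ≤ dot u v → rho n W (R u v) ≤ rho n W v := by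
    intro v hv
    apply rho_mono
    intro a
    rw [dot_R]
    have : 0 ≤ dot u v / ‖u‖ ^ 2 := by positivity
    have := mul_nonneg this (hW a)
    linarith
  have hg0 : ∀ v : ℂ, 0 ≤ (rho n W v - rho n W (R u v)) * dot u v := by
    intro v
    rcases le_total 0 (dot u v) with h | h
    · exact mul_nonneg (sub_nonneg.2 (key v h)) h
    · have h5 := key (R u v) (by rw [dot_u_R hu]; linarith)
      rw [R_R hu] at h5
      exact mul_nonneg_of_nonpos_of_nonpos (sub_nonpos.2 h5) h
  constructor
  · have : 0 ≤ ∫ v in Metric.closedBall (0 : ℂ) 1, (rho n W v - rho n W (R u v)) * dot u v :=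
      integral_nonneg hg0
    linarith
  · intro hcard
    have hgc : Continuous fun v : ℂ => (rho n W v - rho n W (R u v)) * dot u v := by fun_prop
    have hun : 0 < ‖u‖ := norm_pos_iff.2 hu
    have hpos : 0 < ∫ v in Metric.closedBall (0 : ℂ) 1,
        (rho n W v - rho n W (R u v)) * dot u v := by
      rw [setIntegral_pos_iff_support_of_nonneg_ae (Filter.Eventually.of_forall hg0)
        (hint _ hgc)]
      have hopen : IsOpen ((Function.support fun v : ℂ =>
          (rho n W v - rho n W (R u v)) * dot u v) ∩ Metric.ball (0 : ℂ) 1) :=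
        hgc.isOpen_support.inter Metric.isOpen_ball
      refine lt_of_lt_of_le (hopen.measure_pos volume ?_)
        (measure_mono (Set.inter_subset_inter_right _ Metric.ball_subset_closedBall))
      obtain ⟨c, hc0, hc⟩ : ∃ c : ℝ, 0 < c ∧ c = 1 / (2 * ‖u‖) := ⟨_, by positivity, rfl⟩
      refine ⟨(c : ℂ) * u, ?_, ?_⟩
      · rw [Function.mem_support]
        have hdu : dot u ((c : ℂ) * u) = c * ‖u‖ ^ 2 := by rw [dot_smul, dot_self]
        have hR : R u ((c : ℂ) * u) = -((c : ℂ) * u) := by
          unfold R
          rw [hdu]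
          have : (2 * (c * ‖u‖ ^ 2 / ‖u‖ ^ 2) : ℝ) = 2 * c := by field_simp
          rw [this]; push_cast; ring
        have z : rho n W (R u ((c : ℂ) * u)) = 0 := by
          rw [hR]
          unfold rho
          apply Finset.sum_eq_zero
          intro S hS
          rw [Finset.mem_powersetCard] at hS
          obtain ⟨a, ha⟩ := Finset.card_pos.1 (by omega : 0 < S.card)
          apply Finset.prod_eq_zero ha
          rw [neg_dot, smul_dot]
          apply max_eq_left
          have := mul_nonneg hc0.le (hW a)
          linarith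
        have p : 0 < rho n W ((c : ℂ) * u) := by
          obtain ⟨S, hS, hSc⟩ := Finset.exists_subset_card_eq hcard
          have : 0 < ∏ a ∈ S, max 0 (dot ((c : ℂ) * u) (W a)) := by
            apply Finset.prod_pos
            intro a ha
            have := hS ha
            simp only [Finset.mem_filter, Finset.mem_univ, true_and] at this
            rw [smul_dot]
            exact lt_max_of_lt_right (mul_pos hc0 this)
          refine lt_of_lt_of_le this ?_
          unfold rho
          exact Finset.single_le_sum (f := fun S => ∏ a ∈ S, max 0 (dot ((c : ℂ) * u) (W a)))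
            (fun S _ => Finset.prod_nonneg fun a _ => le_max_left _ _)
            (Finset.mem_powersetCard.2 ⟨Finset.subset_univ _, hSc⟩)
        rw [z, sub_zero, hdu]
        positivity
      · rw [Metric.mem_ball, dist_zero_right, norm_mul, Complex.norm_real, Real.norm_of_nonneg hc0.le,
          hc]
        have : 1 / (2 * ‖u‖) * ‖u‖ = 1 / 2 := by field_simp
        rw [this]; norm_num
    linarith

end Pool.Agent.Lib.MP_c05127_co
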