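import Pool.Agent.Lib.MP_c05127_co.Spec

set_option linter.all false

/-!
MP_c05127_co: module Field (the main field).
-/

open scoped Classical

namespace Pool.Agent.Lib.MP_c05127_co.Field

/-- configurations in a half plane -/
def Hc (ι : Type) [Fintype ι] : Set (ι → ℂ) :=
  {W | ∃ u : ℂ, ‖u‖ = 1 ∧ ∀ a, 0 ≤ dot u (W a)}

theorem hc_closed (ι : Type) [Fintype ι] : IsClosed (Hc ι) := by
  haveI : CompactSpace (Metric.sphere (0 : ℂ) 1) :=
    isCompact_iff_compactSpace.mp (isCompact_sphere (0 : ℂ) 1)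
  have h1 : IsClosed {p : (ι → ℂ) × Metric.sphere (0 : ℂ) 1 | ∀ a, 0 ≤ dot (p.2 : ℂ) (p.1 a)} := by
    have : {p : (ι → ℂ) × Metric.sphere (0 : ℂ) 1 | ∀ a, 0 ≤ dot (p.2 : ℂ) (p.1 a)} =
        ⋂ a, {p : (ι → ℂ) × Metric.sphere (0 : ℂ) 1 | 0 ≤ dot (p.2 : ℂ) (p.1 a)} := by
      ext p; simp
    rw [this]
    refine isClosed_iInter fun a => ?_
    refine isClosed_le continuous_const ?_
    have h2 : Continuous fun p : (ι → ℂ) × Metric.sphere (0 : ℂ) 1 =>
        ((p.2 : ℂ), p.1 a) := by fun_prop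
    exact continuous_dot.comp h2
  have h2 : Hc ι = Prod.fst ''
      {p : (ι → ℂ) × Metric.sphere (0 : ℂ) 1 | ∀ a, 0 ≤ dot (p.2 : ℂ) (p.1 a)} := by
    ext W
    constructor
    · rintro ⟨u, hu, h⟩
      exact ⟨(W, ⟨u, by simpa using hu⟩), h, rfl⟩
    · rintro ⟨⟨W', u⟩, h, rfl⟩
      exact ⟨u, by simpa using u.2, h⟩
  rw [h2]
  exact isClosedMap_fst_of_compactSpace _ h1

theorem dot_rot (z : ℂ) (hz : ‖z‖ = 1) (u w : ℂ) : dot (z * u) (z * w) = dot u w := by
  rw [dot_mul, ← mul_assoc, mul_comm (starRingEnd ℂ z) z, Complex.mul_conj,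
    Complex.normSq_eq_norm_sq, hz]
  simp

theorem conj_mul_self (z : ℂ) (hz : ‖z‖ = 1) : starRingEnd ℂ z * z = 1 := by
  rw [mul_comm, Complex.mul_conj, Complex.normSq_eq_norm_sq, hz]
  simp

theorem dep_rot {ι : Type} [Fintype ι] (z : ℂ) (hz : ‖z‖ = 1) (W : ι → ℂ) (r : ℕ)
    (h : Dep Finset.univ (z • W) r) : Dep Finset.univ W r := by
  intro v hv
  have hz0 : z ≠ 0 := by
    rintro rfl
    rw [norm_zero] at hz
    exact zero_ne_one hz
  have h1 := h (z * v) (mul_ne_zero hz0 hv)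
  have h2 : cle Finset.univ (z • W) (z * v) = cle Finset.univ W v := by
    unfold cle
    congr 1
    apply Finset.filter_congr
    intro a _
    rw [Pi.smul_apply, smul_eq_mul, dot_rot z hz]
  rwa [h2] at h1

theorem tv_rot {ι : Type} [Fintype ι] (z : ℂ) (hz : ‖z‖ = 1) (W : ι → ℂ) (r : ℕ)
    (h : Tv Finset.univ W r) : Tv Finset.univ (z • W) r := by
  obtain ⟨P, h1, h2, h3⟩ := h
  refine ⟨P, h1, h2, fun j v => ?_⟩
  obtain ⟨a, ha, h4⟩ := h3 j (starRingEnd ℂ z * v)
  refine ⟨a, ha, ?_⟩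
  rw [Pi.smul_apply, smul_eq_mul, dot_mul]
  exact h4

theorem hc_rot {ι : Type} [Fintype ι] (z : ℂ) (hz : ‖z‖ = 1) (W : ι → ℂ)
    (h : W ∈ Hc ι) : z • W ∈ Hc ι := by
  obtain ⟨u, hu, h1⟩ := h
  refine ⟨z * u, by rw [norm_mul, hz, hu, one_mul], fun a => ?_⟩
  rw [Pi.smul_apply, smul_eq_mul, dot_rot z hz]
  exact h1 a

theorem bad_rot {ι : Type} [Fintype ι] (r : ℕ) (h : (ι → ℂ) → ℂ)
    (hh : ∀ z : ℂ, ‖z‖ = 1 → ∀ W : ι → ℂ, h (fun a => z * W a) = z * h W)
    (hF : ∀ z : ℂ, ‖z‖ = 1 → ∀ W : ι → ℂ, Fav (2 * r - 1) (fun a => z * W a) =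
      z * Fav (2 * r - 1) W)
    (z : ℂ) (hz : ‖z‖ = 1) (W : ι → ℂ) (hW : W ∈ Bad ι r h) : z • W ∈ Bad ι r h := by
  obtain ⟨h1, c, hc, h2⟩ := hW
  refine ⟨fun h3 => h1 (dep_rot z hz W r h3), c, hc, ?_⟩
  have e : z • W = fun a => z * W a := rfl
  rw [e, hF z hz, hh z hz, h2]
  ring

end Pool.Agent.Lib.MP_c05127_co.Field

namespace Pool.Agent.Lib.MP_c05127_co

open Field

theorem fieldStmt (h1 : ClosStmt) (h2 : HfunStmt) (h3 : BadStmt) (h4 : FcStmt) (h5 : FhStmt)
    (h6 : FzStmt) (h7 : WallStmt) : FieldStmt := by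
  intro ι _ r hr hcard
  obtain ⟨h, hcont, hrot, hprop⟩ := h2 ι r hr hcard
  obtain ⟨hFc, hFr⟩ := h4 ι (2 * r - 1)
  obtain ⟨hz1, hz2, _⟩ := h6 ι r hr hcard (fun _ => 0)
  have hFz1 : ∀ W : ι → ℂ, Dep Finset.univ W r → Fav (2 * r - 1) W = 0 :=
    fun W => (h6 ι r hr hcard W).1
  have hFz2 : ∀ W : ι → ℂ, ¬ Dep Finset.univ W r → Fav (2 * r - 1) W ≠ 0 :=
    fun W => (h6 ι r hr hcard W).2.1
  have hcardpos : 0 < Fintype.card ι := by omega
  obtain ⟨a₀⟩ : Nonempty ι := Fintype.card_pos_iff.mp hcardpos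
  obtain ⟨hTT, hYY, _, _⟩ := h1 ι r a₀ hr hcard
  have hbad := h3 ι r h hr hcard ⟨hcont, hrot, hprop⟩
  -- half plane configurations of depth at least `r`
  have hHY : Hc ι ∩ YY ι r ⊆ TT ι r := by
    rintro W ⟨⟨u, hu, hWu⟩, hWY⟩
    by_contra hWT
    have hu0 : u ≠ 0 := by
      rintro rfl
      rw [norm_zero] at hu
      exact zero_ne_one hu
    obtain ⟨_, hw2, _⟩ := h7 ι W r hr hcard hWY hWT
    have hclt : clt Finset.univ W u = 0 := by
      unfold clt
      rw [Finset.card_eq_zero, Finset.filter_eq_empty_iff]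
      intro a _
      exact not_lt.mpr (hWu a)
    obtain ⟨hw3, b, c, _, _, hb, hc⟩ := hw2 u hu0 (by rw [hclt]; omega)
    rw [hclt] at hw3
    have hr1 : r = 1 := by omega
    subst hr1
    have hsub : Fintype.card ι ≤ 1 := by omega
    have hbc : b = c := (Fintype.card_le_one_iff.mp hsub) b c
    subst hbc
    linarith
  -- the set where the correction vanishes
  set S : Set (ι → ℂ) := Bad ι r h ∪ Hc ι ∪ TT ι r with hS
  have h0S : (0 : ι → ℂ) ∈ Hc ι := ⟨1, norm_one, fun a => by simp⟩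
  have hSne : S.Nonempty := ⟨0, Or.inl (Or.inr h0S)⟩
  have hSY : closure S ∩ YY ι r ⊆ TT ι r := by
    rintro W ⟨hW, hWY⟩
    rw [hS, closure_union, closure_union] at hW
    rcases hW with (hW | hW) | hW
    · exact hbad ⟨hW, hWY⟩
    · rw [(hc_closed ι).closure_eq] at hW
      exact hHY ⟨hW, hWY⟩
    · rwa [hTT.closure_eq] at hW
  have hSrot : ∀ z : ℂ, ‖z‖ = 1 → ∀ W ∈ S, z • W ∈ S := by
    rintro z hz W ((hW | hW) | hW)
    · exact Or.inl (Or.inl (bad_rot r h hrot hFr z hz W hW))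
    · exact Or.inl (Or.inr (hc_rot z hz W hW))
    · exact Or.inr (tv_rot z hz W r hW)
  have hinf : ∀ z : ℂ, ‖z‖ = 1 → ∀ W : ι → ℂ, Metric.infDist (z • W) S = Metric.infDist W S := by
    intro z hz W
    have hz0 : z ≠ 0 := by
      rintro rfl
      rw [norm_zero] at hz
      exact zero_ne_one hz
    have hiso : Isometry (fun W : ι → ℂ => z • W) := by
      refine Isometry.of_dist_eq fun x y => ?_
      rw [dist_smul₀, hz, one_mul]
    have himg : (fun W : ι → ℂ => z • W) '' S = S := by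
      apply Set.Subset.antisymm
      · rintro _ ⟨W', hW', rfl⟩
        exact hSrot z hz W' hW'
      · intro W' hW'
        refine ⟨z⁻¹ • W', hSrot z⁻¹ (by rw [norm_inv, hz, inv_one]) W' hW', ?_⟩
        simp only [smul_smul, mul_inv_cancel₀ hz0, one_smul]
    have := Metric.infDist_image hiso (x := W) (t := S)
    rw [himg] at this
    exact this
  refine ⟨fun W => Fav (2 * r - 1) W + (Metric.infDist W S : ℂ) * h W, ?_, ?_, ?_, ?_⟩
  · have : Continuous fun W : ι → ℂ => ((Metric.infDist W S : ℝ) : ℂ) :=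
      Complex.continuous_ofReal.comp (Metric.continuous_infDist_pt S)
    exact hFc.add (this.mul hcont)
  · intro z hz W
    have e : (fun a => z * W a) = z • W := rfl
    show Fav (2 * r - 1) (fun a => z * W a) +
      (Metric.infDist (fun a => z * W a) S : ℂ) * h (fun a => z * W a) = _
    rw [hFr z hz W, hrot z hz W, e, hinf z hz W]
    ring
  · intro W hW
    replace hW : Fav (2 * r - 1) W + (Metric.infDist W S : ℂ) * h W = 0 := hW
    by_cases hY : Dep Finset.univ W r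
    · by_contra hT
      rw [hFz1 W hY, zero_add] at hW
      have hh0 := (hprop W hY hT).1
      have hg : Metric.infDist W S = 0 := by
        rcases mul_eq_zero.mp hW with h8 | h8
        · exact_mod_cast h8
        · exact absurd h8 hh0
      have hcl : W ∈ closure S := by
        rw [Metric.mem_closure_iff_infDist_zero hSne]
        exact hg
      exact hT (hSY ⟨hcl, hY⟩)
    · exfalso
      have hF0 := hFz2 W hY
      have hBad : W ∈ Bad ι r h := by
        refine ⟨hY, Metric.infDist W S, Metric.infDist_nonneg, ?_⟩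
        rw [neg_mul]
        exact eq_neg_of_add_eq_zero_left hW
      have hg : Metric.infDist W S = 0 := Metric.infDist_zero_of_mem (Or.inl (Or.inl hBad))
      rw [hg] at hW
      simp at hW
      exact hF0 hW
  · intro W u hu hWu
    have hn : (0 : ℝ) < ‖u‖ := norm_pos_iff.mpr hu
    have hHc : W ∈ Hc ι := by
      refine ⟨((‖u‖⁻¹ : ℝ) : ℂ) * u, ?_, fun a => ?_⟩
      · rw [norm_mul, Complex.norm_real, Real.norm_of_nonneg (by positivity),
          inv_mul_cancel₀ hn.ne']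
      · rw [smul_dot]
        exact mul_nonneg (by positivity) (hWu a)
    have hg : Metric.infDist W S = 0 := Metric.infDist_zero_of_mem (Or.inl (Or.inr hHc))
    obtain ⟨h8, h9⟩ := h5 ι (2 * r - 1) (by omega) W u hu hWu
    simp only [hg, Complex.ofReal_zero, zero_mul, add_zero]
    refine ⟨h8, fun hcle => h9 ?_⟩
    have hsum : (Finset.univ.filter (fun a => dot u (W a) ≤ 0)).card +
        (Finset.univ.filter (fun a => ¬ dot u (W a) ≤ 0)).card = Fintype.card ι := by
      rw [Finset.card_filter_add_card_filter_not]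
      rfl
    have hsame : (Finset.univ.filter (fun a => ¬ dot u (W a) ≤ 0)) =
        Finset.univ.filter (fun a => 0 < dot u (W a)) := by
      apply Finset.filter_congr
      intro a _
      exact not_le
    rw [hsame] at hsum
    have : (Finset.univ.filter (fun a => dot u (W a) ≤ 0)).card < r := hcle
    omega

end Pool.Agent.Lib.MP_c05127_co
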