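import Pool.Agent.Lib.MP_c05127_co.Spec

set_option linter.all false

/-!
The module Fin: from vectors to hyperplanes.
-/

open scoped Classical

namespace Pool.Agent.Lib.MP_c05127_co

namespace FinMod

lemma one_le_RD {d : ℕ} (B : Finset (AffineSubspace ℝ (E d))) (q x : E d)
    (L : Submodule ℝ (E d)) (hx : x ∈ L) (hx0 : x ≠ 0)
    (h : ∀ v ∈ L, v ≠ 0 → ∃ H ∈ B, Hits H q v) : 1 ≤ RD B q L := by
  unfold RD
  have hne : {n | ∃ v ∈ L, v ≠ 0 ∧ n = (B.filter (fun h => Hits h q v)).card}.Nonempty :=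
    ⟨_, x, hx, hx0, rfl⟩
  obtain ⟨v, hv, hv0, hn⟩ := Nat.sInf_mem hne
  rw [hn]
  obtain ⟨H, hH, hits⟩ := h v hv hv0
  exact Finset.card_pos.2 ⟨H, Finset.mem_filter.2 ⟨hH, hits⟩⟩

lemma hits_of {d : ℕ} (H : AffineSubspace ℝ (E d)) (a q v : E d)
    (h1 : ∀ x, x ∈ H ↔ inner ℝ a x = (1 : ℝ)) (h0 : ∀ x, x ∈ H.direction ↔ inner ℝ a x = (0 : ℝ))
    (h : (inner ℝ a q - 1) * inner ℝ a v ≤ (0 : ℝ)) : Hits H q v := by
  by_cases hv : inner ℝ a v = (0 : ℝ)
  · exact Or.inr ((h0 v).2 hv)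
  · left
    refine ⟨(1 - inner ℝ a q) / inner ℝ a v, ?_, ?_⟩
    · have h3 : (1 - inner ℝ a q) / inner ℝ a v =
          ((1 - inner ℝ a q) * inner ℝ a v) / (inner ℝ a v) ^ 2 := by
        field_simp
      rw [h3]
      apply div_nonneg _ (sq_nonneg _)
      linarith
    · rw [h1, inner_add_right, inner_smul_right]
      field_simp
      ring

end FinMod

open FinMod in
theorem finStmt (h1 : GeoStmt) (h2 : HypStmt) : FinStmt := by
  intro d r A hd hr hA hcard hdir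
  have hcard' : ∀ i, (A i).card = 3 * r i - 2 := by
    intro i
    have := hcard i
    have := hr i
    omega
  let e : ∀ i, A i ≃ Fin (3 * r i - 2) := fun i => Finset.equivFinOfCardEq (hcard' i)
  let hh : ∀ i, Fin (3 * r i - 2) → AffineSubspace ℝ (E d) := fun i k => ((e i).symm k).1
  have hhmem : ∀ i k, hh i k ∈ A i := fun i k => ((e i).symm k).2
  have hhinj : ∀ i, Function.Injective (hh i) := by
    intro i k k' h
    exact (e i).symm.injective (Subtype.ext h)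
  have hhsurj : ∀ i, ∀ h ∈ A i, ∃ k, hh i k = h := by
    intro i h hm
    exact ⟨e i ⟨h, hm⟩, by simp [hh]⟩
  have hn : ∀ i k, ∃ a : E d, a ≠ 0 ∧ (∀ x, x ∈ hh i k ↔ inner ℝ a x = (1 : ℝ)) ∧
      ∀ x, x ∈ (hh i k).direction ↔ inner ℝ a x = (0 : ℝ) := by
    intro i k
    obtain ⟨g1, g2, g3⟩ := hA i _ (hhmem i k)
    exact h2 d _ g1 g2 g3
  choose a ha0 ha1 had using hn
  obtain ⟨x, y, q, hli, hq, hT⟩ := h1 d hd r hr a (by
    intro u hu
    obtain ⟨i, hi⟩ := hdir u hu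
    refine ⟨i, lt_of_le_of_lt ?_ hi⟩
    rw [← Finset.card_image_of_injective _ (hhinj i)]
    apply Finset.card_le_card
    intro h hm
    obtain ⟨k, hk, rfl⟩ := Finset.mem_image.1 hm
    simp only [Finset.mem_filter, Finset.mem_univ, true_and] at hk
    exact Finset.mem_filter.2 ⟨hhmem i k, (had i k u).2 hk⟩)
  have hspan : Submodule.span ℝ (Set.range ![x, y]) = Submodule.span ℝ {x, y} := by
    congr 1
    simp [Matrix.range_cons, Matrix.range_empty, Set.pair_comm]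
  refine ⟨Submodule.span ℝ {x, y}, ?_, q, hq, ?_⟩
  · rw [← hspan, finrank_span_eq_card hli]
    simp
  intro i
  obtain ⟨P, -, hPd, hPv⟩ := hT i
  have hx0 : x ≠ 0 := by
    have := hli.ne_zero 0
    simpa using this
  have hxL : x ∈ Submodule.span ℝ {x, y} := Submodule.subset_span (by simp)
  let c : AffineSubspace ℝ (E d) → Fin (r i) := fun h =>
    if H : ∃ j, ∃ k ∈ P j, hh i k = h then H.choose else ⟨0, hr i⟩
  have hc : ∀ j, ∀ k ∈ P j, c (hh i k) = j := by
    intro j k hk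
    have H : ∃ j', ∃ k' ∈ P j', hh i k' = hh i k := ⟨j, k, hk, rfl⟩
    have e1 : c (hh i k) = H.choose := dif_pos H
    obtain ⟨k', hk', e2⟩ := H.choose_spec
    have e3 := hhinj i e2
    subst e3
    rw [e1]
    by_contra hne
    exact Finset.disjoint_left.1 (hPd _ _ hne) hk' hk
  refine ⟨fun j => (A i).filter (fun h => c h = j), ?_, ?_, ?_⟩
  · intro j j' hne
    rw [Finset.disjoint_left]
    intro h hm hm'
    exact hne ((Finset.mem_filter.1 hm).2.symm.trans (Finset.mem_filter.1 hm').2)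
  · intro h
    constructor
    · intro hm
      exact ⟨c h, Finset.mem_filter.2 ⟨hm, rfl⟩⟩
    · rintro ⟨j, hm⟩
      exact (Finset.mem_filter.1 hm).1
  · intro j
    refine one_le_RD _ q x _ hxL hx0 (fun v hv hv0 => ?_)
    obtain ⟨α, β, hαβ⟩ := Submodule.mem_span_pair.1 hv
    obtain ⟨k, hk, hle⟩ := hPv j ⟨α, β⟩
    refine ⟨hh i k, Finset.mem_filter.2 ⟨hhmem i k, hc j k hk⟩, ?_⟩
    refine hits_of _ (a i k) q v (ha1 i k) (had i k) ?_
    rw [dot_smul] at hle
    have e1 : dot ⟨α, β⟩ ⟨inner ℝ (a i k) x, inner ℝ (a i k) y⟩ = inner ℝ (a i k) v := by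
      rw [← hαβ, inner_add_right, inner_smul_right, inner_smul_right]
      rfl
    rw [e1] at hle
    exact hle

end Pool.Agent.Lib.MP_c05127_co
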