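import Pool.Agent.Lib.MP_c05127_co.Spec

set_option linter.all false

/-! (Fz) zeros and cone property of the centre field. -/

open scoped Classical
open MeasureTheory

namespace Pool.Agent.Lib.MP_c05127_co

namespace Fz

/-- the functional `dot z` -/
noncomputable def L (z : ℂ) : ℂ →L[ℝ] ℝ := z.re • Complex.reCLM + z.im • Complex.imCLM

lemma L_apply (z v : ℂ) : L z v = dot z v := by
  unfold L dot; simp

lemma exists_dot (f : ℂ →L[ℝ] ℝ) : ∃ y : ℂ, ∀ v, f v = dot y v := by
  refine ⟨⟨f 1, f Complex.I⟩, fun v => ?_⟩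
  have h : v = v.re • (1 : ℂ) + v.im • Complex.I := by
    apply Complex.ext <;> simp
  conv_lhs => rw [h]
  rw [map_add, map_smul, map_smul]
  unfold dot
  simp only [smul_eq_mul]
  ring

section
variable {ι : Type} [Fintype ι]

lemma continuous_dot_right (w : ℂ) : Continuous (fun v : ℂ => dot v w) := by
  unfold dot; fun_prop

lemma continuous_dot_left (w : ℂ) : Continuous (fun v : ℂ => dot w v) := by
  unfold dot; fun_prop

lemma continuous_rho (n : ℕ) (W : ι → ℂ) : Continuous (fun v => rho n W v) := by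
  unfold rho
  apply continuous_finsetSum
  intro S _
  apply continuous_finsetProd
  intro a _
  exact continuous_const.max (continuous_dot_right (W a))

lemma rho_nonneg (n : ℕ) (W : ι → ℂ) (v : ℂ) : 0 ≤ rho n W v := by
  unfold rho
  exact Finset.sum_nonneg (fun S _ => Finset.prod_nonneg (fun a _ => le_max_left _ _))

lemma rho_pos_iff (n : ℕ) (W : ι → ℂ) (v : ℂ) :
    0 < rho n W v ↔ n ≤ (Finset.univ.filter (fun a => 0 < dot v (W a))).card := by
  constructor
  · intro h
    unfold rho at h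
    obtain ⟨S, hS, hpos⟩ := Finset.exists_ne_zero_of_sum_ne_zero h.ne'
    rw [Finset.mem_powersetCard] at hS
    rw [← hS.2]
    apply Finset.card_le_card
    intro a ha
    rw [Finset.mem_filter]
    refine ⟨Finset.mem_univ _, ?_⟩
    rw [Finset.prod_ne_zero_iff] at hpos
    have h1 := hpos a ha
    by_contra h2
    exact h1 (max_eq_left (not_lt.1 h2))
  · intro h
    obtain ⟨S, hS, hc⟩ := Finset.exists_subset_card_eq h
    unfold rho
    apply Finset.sum_pos'
    · exact fun S _ => Finset.prod_nonneg (fun a _ => le_max_left _ _)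
    · refine ⟨S, Finset.mem_powersetCard.2 ⟨Finset.subset_univ _, hc⟩, ?_⟩
      apply Finset.prod_pos
      intro a ha
      exact lt_max_of_lt_right (Finset.mem_filter.1 (hS ha)).2

lemma cle_add (W : ι → ℂ) (v : ℂ) :
    cle Finset.univ W v + (Finset.univ.filter (fun a => 0 < dot v (W a))).card =
      Fintype.card ι := by
  unfold cle
  have h : (Finset.univ.filter (fun a => 0 < dot v (W a))) =
      (Finset.univ.filter (fun a => ¬ dot v (W a) ≤ 0)) := by
    ext a; simp
  rw [h, Finset.card_filter_add_card_filter_not]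
  exact Finset.card_univ

/-- the open cone -/
def O (r : ℕ) (W : ι → ℂ) : Set ℂ := {v | cle Finset.univ W v < r}

lemma mem_O {r : ℕ} (hr : 1 ≤ r) (hc : Fintype.card ι = 3 * r - 2) (W : ι → ℂ) (v : ℂ) :
    v ∈ O r W ↔ 0 < rho (2 * r - 1) W v := by
  rw [rho_pos_iff]
  have := cle_add W v
  unfold O
  rw [Set.mem_setOf_eq]
  omega

lemma isOpen_O {r : ℕ} (hr : 1 ≤ r) (hc : Fintype.card ι = 3 * r - 2) (W : ι → ℂ) :
    IsOpen (O r W) := by
  have h : O r W = (fun v => rho (2 * r - 1) W v) ⁻¹' Set.Ioi 0 := by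
    ext v
    rw [mem_O hr hc]
    rfl
  rw [h]
  exact isOpen_Ioi.preimage (continuous_rho _ _)

lemma zero_notMem {r : ℕ} (hr : 1 ≤ r) (hc : Fintype.card ι = 3 * r - 2) (W : ι → ℂ) :
    (0 : ℂ) ∉ O r W := by
  unfold O cle
  simp only [zero_dot, le_refl, Finset.filter_true, Finset.card_univ, Set.mem_setOf_eq, hc]
  omega

lemma smul_mem {r : ℕ} {W : ι → ℂ} {v : ℂ} (h : v ∈ O r W) {t : ℝ} (ht : 0 < t) :
    (t : ℂ) * v ∈ O r W := by
  unfold O cle at h ⊢
  rw [Set.mem_setOf_eq] at h ⊢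
  have he : (Finset.univ.filter (fun a => dot ((t : ℂ) * v) (W a) ≤ 0)) =
      (Finset.univ.filter (fun a => dot v (W a) ≤ 0)) := ?_
  · rw [he]; exact h
  ext a
  simp only [Finset.mem_filter, Finset.mem_univ, true_and, smul_dot]
  constructor
  · intro h1
    by_contra h2
    exact absurd h1 (not_le.2 (mul_pos ht (not_le.1 h2)))
  · intro h1
    exact mul_nonpos_of_nonneg_of_nonpos ht.le h1

lemma dot_Fav (n : ℕ) (W : ι → ℂ) (z : ℂ) :
    dot z (Fav n W) = ∫ v in Metric.closedBall (0 : ℂ) 1, rho n W v * dot z v := by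
  have hcont : Continuous (fun v : ℂ => (rho n W v : ℂ) * v) :=
    (Complex.continuous_ofReal.comp (continuous_rho n W)).mul continuous_id
  have hint : Integrable (fun v : ℂ => (rho n W v : ℂ) * v)
      (volume.restrict (Metric.closedBall (0 : ℂ) 1)) :=
    hcont.continuousOn.integrableOn_compact (isCompact_closedBall 0 1)
  have h := (L z).integral_comp_comm hint
  unfold Fav
  rw [← L_apply, ← h]
  congr 1
  funext v
  rw [L_apply, dot_smul]

lemma pos_Fav {r : ℕ} (hr : 1 ≤ r) (hc : Fintype.card ι = 3 * r - 2) (W : ι → ℂ) (z : ℂ)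
    (hne : (O r W).Nonempty) (hz : ∀ v ∈ O r W, 0 < dot z v) :
    0 < dot z (Fav (2 * r - 1) W) := by
  rw [dot_Fav]
  have hcont : Continuous (fun v : ℂ => rho (2 * r - 1) W v * dot z v) :=
    (continuous_rho _ W).mul (continuous_dot_left z)
  have hnn : ∀ v : ℂ, 0 ≤ rho (2 * r - 1) W v * dot z v := by
    intro v
    by_cases hv : v ∈ O r W
    · exact mul_nonneg (rho_nonneg _ _ _) (hz v hv).le
    · rw [mem_O hr hc] at hv
      have : rho (2 * r - 1) W v = 0 := le_antisymm (not_lt.1 hv) (rho_nonneg _ _ _)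
      rw [this, zero_mul]
  have hint : IntegrableOn (fun v : ℂ => rho (2 * r - 1) W v * dot z v)
      (Metric.closedBall (0 : ℂ) 1) volume :=
    hcont.continuousOn.integrableOn_compact (isCompact_closedBall 0 1)
  rw [setIntegral_pos_iff_support_of_nonneg_ae (Filter.Eventually.of_forall hnn) hint]
  obtain ⟨v, hv⟩ := hne
  have hopen : IsOpen (O r W ∩ Metric.ball (0 : ℂ) 1) := (isOpen_O hr hc W).inter Metric.isOpen_ball
  have hne2 : (O r W ∩ Metric.ball (0 : ℂ) 1).Nonempty := by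
    have hp : 0 < ‖v‖ + 1 := by positivity
    refine ⟨(((‖v‖ + 1)⁻¹ : ℝ) : ℂ) * v, smul_mem hv (inv_pos.2 hp), ?_⟩
    rw [mem_ball_zero_iff, norm_mul, Complex.norm_real, Real.norm_of_nonneg (inv_pos.2 hp).le,
      inv_mul_lt_iff₀ hp]
    linarith
  refine lt_of_lt_of_le (hopen.measure_pos volume hne2) (measure_mono ?_)
  rintro w ⟨hw1, hw2⟩
  refine ⟨?_, Metric.ball_subset_closedBall hw2⟩
  rw [Function.mem_support]
  exact (mul_pos ((mem_O hr hc W w).1 hw1) (hz w hw1)).ne'

lemma exists_y {r : ℕ} (h : CaraStmt) (hr : 1 ≤ r) (hc : Fintype.card ι = 3 * r - 2)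
    (W : ι → ℂ) : ∃ y : ℂ, ∀ v ∈ O r W, 0 < dot y v := by
  have h0 : (0 : ℂ) ∉ convexHull ℝ (O r W) := by
    apply h ι Finset.univ W (r - 1) (O r W)
    · intro v hv
      have : cle Finset.univ W v < r := hv
      omega
    · rw [Finset.card_univ, hc]
      omega
  obtain ⟨f, hf⟩ := geometric_hahn_banach_point_open (convex_convexHull ℝ (O r W))
    (isOpen_O hr hc W).convexHull h0
  obtain ⟨y, hy⟩ := exists_dot f
  refine ⟨y, fun v hv => ?_⟩
  have := hf v (subset_convexHull ℝ _ hv)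
  rw [map_zero, hy] at this
  exact this

lemma nonempty_O {r : ℕ} {W : ι → ℂ} (h : ¬ Dep Finset.univ W r) : (O r W).Nonempty := by
  unfold Dep at h
  push Not at h
  obtain ⟨v, _, hv⟩ := h
  exact ⟨v, hv⟩

lemma Fav_zero {r : ℕ} (hr : 1 ≤ r) (hc : Fintype.card ι = 3 * r - 2) {W : ι → ℂ}
    (h : Dep Finset.univ W r) : Fav (2 * r - 1) W = 0 := by
  have h0 : ∀ v : ℂ, rho (2 * r - 1) W v = 0 := by
    intro v
    by_contra hne
    have hpos : 0 < rho (2 * r - 1) W v := lt_of_le_of_ne (rho_nonneg _ _ _) (Ne.symm hne)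
    rw [← mem_O hr hc] at hpos
    by_cases hv : v = 0
    · rw [hv] at hpos
      exact zero_notMem hr hc W hpos
    · have h1 := h v hv
      have h2 : cle Finset.univ W v < r := hpos
      omega
  unfold Fav
  simp [h0]

end

lemma parallel {e w : ℂ} (he : e ≠ 0) (h : dot (Complex.I * e) w = 0) :
    ∃ l : ℝ, w = (l : ℂ) * e := by
  have hpos : 0 < e.re * e.re + e.im * e.im := dot_self_pos he
  have h1 : -e.im * w.re + e.re * w.im = 0 := by
    have := h
    unfold dot at this
    simpa using this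
  refine ⟨(e.re * w.re + e.im * w.im) / (e.re * e.re + e.im * e.im), ?_⟩
  apply Complex.ext
  · rw [Complex.re_ofReal_mul, div_mul_eq_mul_div, eq_div_iff hpos.ne']
    linear_combination (-e.im) * h1
  · rw [Complex.im_ofReal_mul, div_mul_eq_mul_div, eq_div_iff hpos.ne']
    linear_combination (e.re) * h1

lemma combine {e y v v' : ℂ} (he : e ≠ 0) (hye : dot y e < 0) (hv : 0 < dot y v)
    (hv' : 0 < dot y v') (h1 : 0 ≤ dot (Complex.I * e) v) (h2 : dot (Complex.I * e) v' ≤ 0) :
    ∃ s s' : ℝ, 0 ≤ s ∧ 0 ≤ s' ∧ (s : ℂ) * v + (s' : ℂ) * v' = -e := by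
  obtain ⟨q, p, hq, hp, hqp, h0⟩ : ∃ q p : ℝ, 0 ≤ q ∧ 0 ≤ p ∧ 0 < q + p ∧
      q * dot (Complex.I * e) v + p * dot (Complex.I * e) v' = 0 := by
    by_cases h : dot (Complex.I * e) v = 0
    · exact ⟨1, 0, zero_le_one, le_refl _, by norm_num, by rw [h]; ring⟩
    · have h3 : 0 < dot (Complex.I * e) v := lt_of_le_of_ne h1 (Ne.symm h)
      exact ⟨-dot (Complex.I * e) v', dot (Complex.I * e) v, by linarith, h1, by linarith, by ring⟩
  obtain ⟨l, hl⟩ := parallel (w := (q : ℂ) * v + (p : ℂ) * v') he (by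
    rw [dot_add, dot_smul, dot_smul]; exact h0)
  have hy : 0 < dot y ((q : ℂ) * v + (p : ℂ) * v') := by
    rw [dot_add, dot_smul, dot_smul]
    rcases hq.lt_or_eq with hq' | hq'
    · have := mul_pos hq' hv
      have := mul_nonneg hp hv'.le
      linarith
    · have hp' : 0 < p := by linarith
      have := mul_pos hp' hv'
      rw [← hq']
      linarith
  rw [hl, dot_smul] at hy
  have hlneg : l < 0 := by
    by_contra h3
    exact absurd hy (not_lt.2 (mul_nonpos_of_nonneg_of_nonpos (not_lt.1 h3) hye.le))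
  have hlne : (l : ℂ) ≠ 0 := by
    exact_mod_cast hlneg.ne
  refine ⟨q / (-l), p / (-l), div_nonneg hq (by linarith), div_nonneg hp (by linarith), ?_⟩
  have h4 : ((q / (-l) : ℝ) : ℂ) * v + ((p / (-l) : ℝ) : ℂ) * v' =
      -(((q : ℂ) * v + (p : ℂ) * v') / l) := by
    push_cast
    field_simp
    ring
  rw [h4, hl]
  field_simp

end Fz

open Fz in
theorem fzStmt (h : CaraStmt) : FzStmt := by
  intro ι _ r hr hc W
  refine ⟨fun hd => Fav_zero hr hc hd, fun hd hF => ?_, fun e c hcpos he hF => ?_⟩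
  · obtain ⟨y, hy⟩ := exists_y h hr hc W
    have := pos_Fav hr hc W y (nonempty_O hd) hy
    rw [hF, dot_zero] at this
    exact lt_irrefl _ this
  · have hcne : (c : ℂ) ≠ 0 := by exact_mod_cast hcpos.ne'
    have hFne : Fav (2 * r - 1) W ≠ 0 := by
      rw [hF]
      exact mul_ne_zero (neg_ne_zero.2 hcne) he
    have hd : ¬ Dep Finset.univ W r := fun hd => hFne (Fav_zero hr hc hd)
    have hne := nonempty_O hd
    obtain ⟨y, hy⟩ := exists_y h hr hc W
    have hypos := pos_Fav hr hc W y hne hy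
    have hFe : ∀ z : ℂ, dot z (Fav (2 * r - 1) W) = -(c * dot z e) := by
      intro z
      rw [hF, neg_mul, dot_neg, dot_smul]
    have hye : dot y e < 0 := by
      rw [hFe] at hypos
      by_contra h3
      have := mul_nonneg hcpos.le (not_lt.1 h3)
      linarith
    obtain ⟨v, hv, hv1⟩ : ∃ v ∈ O r W, 0 ≤ dot (Complex.I * e) v := by
      by_contra hcon
      push Not at hcon
      have h5 := pos_Fav hr hc W (-(Complex.I * e)) hne (fun v hv => by
        rw [neg_dot]
        have := hcon v hv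
        linarith)
      rw [hFe, neg_dot, I_dot] at h5
      simp at h5
    obtain ⟨v', hv', hv1'⟩ : ∃ v ∈ O r W, dot (Complex.I * e) v ≤ 0 := by
      by_contra hcon
      push Not at hcon
      have h5 := pos_Fav hr hc W (Complex.I * e) hne hcon
      rw [hFe, I_dot] at h5
      simp at h5
    obtain ⟨s, s', hs, hs', hss⟩ := combine he hye (hy v hv) (hy v' hv') hv1 hv1'
    have hv0 : v ≠ 0 := fun h0 => zero_notMem hr hc W (h0 ▸ hv)
    have hv0' : v' ≠ 0 := fun h0 => zero_notMem hr hc W (h0 ▸ hv')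
    have hn : 0 < ‖v‖ := norm_pos_iff.2 hv0
    have hn' : 0 < ‖v'‖ := norm_pos_iff.2 hv0'
    have hnc : (‖v‖ : ℂ) ≠ 0 := by exact_mod_cast hn.ne'
    have hnc' : (‖v'‖ : ℂ) ≠ 0 := by exact_mod_cast hn'.ne'
    refine ⟨((‖v‖⁻¹ : ℝ) : ℂ) * v, ((‖v'‖⁻¹ : ℝ) : ℂ) * v', ?_, ?_, smul_mem hv (inv_pos.2 hn),
      smul_mem hv' (inv_pos.2 hn'), s * ‖v‖, s' * ‖v'‖, by positivity, by positivity, ?_⟩
    · rw [norm_mul, Complex.norm_real, Real.norm_of_nonneg (inv_pos.2 hn).le, inv_mul_cancel₀ hn.ne']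
    · rw [norm_mul, Complex.norm_real, Real.norm_of_nonneg (inv_pos.2 hn').le,
        inv_mul_cancel₀ hn'.ne']
    · rw [← hss]
      push_cast
      field_simp

end Pool.Agent.Lib.MP_c05127_co
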