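import Pool.Agent.Lib.MP_c05127_co.Spec

set_option linter.all false

open scoped Classical

namespace Pool.Agent.Lib.MP_c05127_co

theorem gen1Stmt : Gen1Stmt := by
  intro d r A hd hgen hsum u hu
  by_contra hcon
  push Not at hcon
  set S : Finset (AffineSubspace ℝ (E d)) :=
    Finset.univ.biUnion (fun i => (A i).filter (fun h => u ∈ h.direction)) with hS
  have hcard : d ≤ S.card := by
    rw [hS, Finset.card_biUnion]
    · exact hsum.trans (Finset.sum_le_sum fun i _ => hcon i)
    · intro i _ j _ hij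
      exact Finset.disjoint_of_subset_left (Finset.filter_subset _ _)
        (Finset.disjoint_of_subset_right (Finset.filter_subset _ _) (hgen.1 i j hij))
  obtain ⟨T, hTS, hT⟩ := Finset.exists_subset_card_eq hcard
  have hmem : ∀ h ∈ T, (∃ i, h ∈ A i) ∧ u ∈ h.direction := by
    intro h hh
    have h1 := hTS hh
    rw [hS, Finset.mem_biUnion] at h1
    obtain ⟨i, _, h2⟩ := h1
    rw [Finset.mem_filter] at h2
    exact ⟨⟨i, h2.1⟩, h2.2⟩
  have h3 := hgen.2 T (fun h hh => (hmem h hh).1) hT.le
  have h4 : Module.finrank ℝ (⨅ h ∈ T, h.direction : Submodule ℝ (E d)) = 0 := by omega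
  have h5 : (⨅ h ∈ T, h.direction : Submodule ℝ (E d)) = ⊥ := Submodule.finrank_eq_zero.mp h4
  have h6 : u ∈ (⨅ h ∈ T, h.direction : Submodule ℝ (E d)) := by
    rw [Submodule.mem_iInf]
    intro h
    rw [Submodule.mem_iInf]
    intro hh
    exact (hmem h hh).2
  rw [h5, Submodule.mem_bot] at h6
  exact hu h6

end Pool.Agent.Lib.MP_c05127_co
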