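import Pool.Agent.Lib.MP_c05127_co.Spec

set_option linter.all false

/-!
MP_c05127_co: the trivial case `∑ r i < d`.
-/

open scoped Classical

namespace Pool.Agent.Lib.MP_c05127_co

namespace Gen2

lemma one_le_RD {d : ℕ} {A : Finset (AffineSubspace ℝ (E d))} {q : E d}
    {L : Submodule ℝ (E d)} {h : AffineSubspace ℝ (E d)} (hh : h ∈ A) (hq : q ∈ h) (hqL : q ∈ L)
    (hq0 : q ≠ 0) : 1 ≤ RD A q L := by
  unfold RD
  refine le_csInf ⟨_, q, hqL, hq0, rfl⟩ ?_
  rintro n ⟨v, _, _, rfl⟩
  refine Finset.card_pos.mpr ⟨h, ?_⟩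
  rw [Finset.mem_filter]
  refine ⟨hh, Or.inl ⟨0, le_rfl, ?_⟩⟩
  rw [zero_smul, add_zero]
  exact hq

end Gen2

theorem gen2Stmt (hH : HypStmt) : Gen2Stmt := by
  intro d r A hd hr hA hcard hG hsum
  have hr1 : ∀ i, r i = 1 := by
    intro i
    by_contra hne
    have h2 : 1 < r i := by
      have := hr i
      omega
    have h3 : ∑ _j : Fin (d - 1), 1 < ∑ j, r j :=
      Finset.sum_lt_sum (fun j _ => hr j) ⟨i, Finset.mem_univ i, h2⟩
    simp at h3
    omega
  have hc1 : ∀ i, (A i).card = 1 := by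
    intro i
    rw [hcard, hr1]
  have hex : ∀ i, ∃ h, A i = {h} := fun i => Finset.card_eq_one.mp (hc1 i)
  choose h hh using hex
  have hmem : ∀ i, h i ∈ A i := by
    intro i
    rw [hh]
    exact Finset.mem_singleton_self _
  choose a ha using fun i => hH d (h i) (hA i _ (hmem i)).1 (hA i _ (hmem i)).2.1
    (hA i _ (hmem i)).2.2
  have hinj : Function.Injective h := by
    intro i j hij
    by_contra hne
    have h1 := hG.1 i j hne
    exact Finset.disjoint_left.mp h1 (hmem i) (hij ▸ hmem j)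
  set S : Finset (AffineSubspace ℝ (E d)) := Finset.univ.image h with hSdef
  have hS : S.card = d - 1 := by
    rw [hSdef, Finset.card_image_of_injective _ hinj, Finset.card_univ, Fintype.card_fin]
  have hfin := hG.2 S (by
    intro g hg
    rw [hSdef, Finset.mem_image] at hg
    obtain ⟨i, _, rfl⟩ := hg
    exact ⟨i, hmem i⟩) (by omega)
  set Φ : E d →ₗ[ℝ] (Fin (d - 1) → ℝ) :=
    LinearMap.pi (fun i => (innerSL ℝ (a i)).toLinearMap) with hΦ
  have hΦa : ∀ x i, Φ x i = inner ℝ (a i) x := fun x i => rfl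
  have hker : LinearMap.ker Φ = ⨅ g ∈ S, g.direction := by
    ext x
    rw [LinearMap.mem_ker, Submodule.mem_iInf]
    constructor
    · intro hx g
      rw [Submodule.mem_iInf]
      intro hg
      rw [hSdef, Finset.mem_image] at hg
      obtain ⟨i, _, rfl⟩ := hg
      rw [(ha i).2.2 x, ← hΦa, hx]
      rfl
    · intro hx
      funext i
      rw [hΦa]
      have h1 := hx (h i)
      rw [Submodule.mem_iInf] at h1
      have h2 := h1 (by rw [hSdef]; exact Finset.mem_image_of_mem _ (Finset.mem_univ i))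
      rw [(ha i).2.2 x] at h2
      rw [h2]
      rfl
  have hrange : LinearMap.range Φ = ⊤ := by
    apply Submodule.eq_top_of_finrank_eq
    have h1 := LinearMap.finrank_range_add_finrank_ker Φ
    rw [finrank_euclideanSpace_fin, hker] at h1
    rw [Module.finrank_fin_fun]
    omega
  obtain ⟨q, hq⟩ : ∃ q, Φ q = fun _ => 1 := by
    have h1 : (fun _ => 1 : Fin (d - 1) → ℝ) ∈ LinearMap.range Φ := by
      rw [hrange]
      trivial
    exact h1
  have hqh : ∀ i, q ∈ h i := by
    intro i
    rw [(ha i).2.1 q, ← hΦa, hq]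
  have hq0 : q ≠ 0 := by
    rintro rfl
    exact (hA _ _ (hmem ⟨0, by omega⟩)).2.2 (hqh ⟨0, by omega⟩)
  -- a plane containing `q`
  obtain ⟨w, hw⟩ : ∃ w : E d, w ∉ Submodule.span ℝ {q} := by
    by_contra hcon
    push Not at hcon
    have h1 : Submodule.span ℝ {q} = ⊤ := by
      rw [eq_top_iff]
      intro x _
      exact hcon x
    have h2 := finrank_span_singleton (K := ℝ) hq0
    rw [h1, finrank_top, finrank_euclideanSpace_fin] at h2
    omega
  have hli : LinearIndependent ℝ ![w, q] := by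
    rw [linearIndependent_fin_succ]
    constructor
    · rw [show (Fin.tail ![w, q]) = ![q] from rfl]
      exact linearIndependent_unique_iff.mpr hq0
    · rw [show (Fin.tail ![w, q]) = ![q] from rfl]
      simpa using hw
  refine ⟨Submodule.span ℝ (Set.range ![w, q]), ?_, q, ?_, ?_⟩
  · rw [finrank_span_eq_card hli, Fintype.card_fin]
  · exact Submodule.subset_span ⟨1, rfl⟩
  · intro i
    refine ⟨fun _ => A i, ?_, ?_, ?_⟩
    · intro j j' hjj
      exfalso
      apply hjj
      have h1 := j.2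
      have h2 := j'.2
      have h3 := hr1 i
      exact Fin.ext (by omega)
    · intro g
      constructor
      · intro hg
        exact ⟨⟨0, hr i⟩, hg⟩
      · rintro ⟨_, hg⟩
        exact hg
    · intro j
      exact Gen2.one_le_RD (hmem i) (hqh i) (Submodule.subset_span ⟨1, rfl⟩) hq0

end Pool.Agent.Lib.MP_c05127_co
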