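import Pool.Agent.Lib.MP_c05127_co.Spec

set_option linter.all false

/-!
The module Geo: from the theorem of Borsuk-Ulam type and the field to the geometric statement.
-/

open scoped Classical

namespace Pool.Agent.Lib.MP_c05127_co

namespace Geo

variable {d : ℕ}

/-- the linear form of a real vector, on complex vectors -/
noncomputable def L (b : E d) (z : Fin d → ℂ) : ℂ := ∑ j, ((b j : ℝ) : ℂ) * z j

/-- the positive part of the difference of the norms -/
noncomputable def tt (z : Fin d → ℂ) (ζ : ℂ) : ℝ := max 0 (‖z‖ - ‖ζ‖)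

/-- the negative part of the difference of the norms -/
noncomputable def ss (z : Fin d → ℂ) (ζ : ℂ) : ℝ := max 0 (‖ζ‖ - ‖z‖)

/-- the planar vectors -/
noncomputable def ww (b : E d) (z : Fin d → ℂ) (ζ : ℂ) : ℂ :=
  ((dot ζ (L b z) - tt z ζ : ℝ) : ℂ) * L b z

lemma dot_om (v w : ℂ) : dot (om * v) (om * w) = dot v w := by
  rw [dot_mul]
  have h : (starRingEnd ℂ) om * (om * v) = v := by
    rw [← mul_assoc, mul_comm ((starRingEnd ℂ) om) om, Complex.mul_conj, Complex.normSq_eq_norm_sq,
      norm_om]
    simp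
  rw [h]

lemma L_om (b : E d) (z : Fin d → ℂ) : L b (fun j => om * z j) = om * L b z := by
  unfold L
  rw [Finset.mul_sum]
  exact Finset.sum_congr rfl (fun j _ => by ring)

lemma norm_mul_om (z : Fin d → ℂ) : ‖(fun j => om * z j)‖ = ‖z‖ := by
  have h : (fun j => om * z j) = om • z := by
    funext j; simp
  rw [h, norm_smul, norm_om, one_mul]

lemma tt_om (z : Fin d → ℂ) (ζ : ℂ) : tt (fun j => om * z j) (om * ζ) = tt z ζ := by
  unfold tt
  rw [norm_mul_om, norm_mul, norm_om, one_mul]

lemma ss_om (z : Fin d → ℂ) (ζ : ℂ) : ss (fun j => om * z j) (om * ζ) = ss z ζ := by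
  unfold ss
  rw [norm_mul_om, norm_mul, norm_om, one_mul]

lemma ww_om (b : E d) (z : Fin d → ℂ) (ζ : ℂ) :
    ww b (fun j => om * z j) (om * ζ) = om * ww b z ζ := by
  unfold ww
  rw [L_om, dot_om, tt_om]
  ring

/-- If the sum of the squares of the components vanishes then the real and the imaginary part are
independent. -/
lemma key (z : Fin d → ℂ) (hz : ∑ j, z j ^ 2 = 0) (hz0 : z ≠ 0) (c : ℂ)
    (h : ∀ j, dot c (z j) = 0) : c = 0 := by
  by_contra hc
  apply hz0
  have h1 : ∑ j, ((starRingEnd ℂ) c * z j) ^ 2 = 0 := by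
    have : ∑ j, ((starRingEnd ℂ) c * z j) ^ 2 = ((starRingEnd ℂ) c) ^ 2 * ∑ j, z j ^ 2 := by
      rw [Finset.mul_sum]
      exact Finset.sum_congr rfl (fun j _ => by ring)
    rw [this, hz, mul_zero]
  have h2 : ∀ j, ((starRingEnd ℂ) c * z j).re = 0 := by
    intro j
    rw [← dot_eq_re]
    exact h j
  have h3 : ∑ j, ((starRingEnd ℂ) c * z j).im ^ 2 = 0 := by
    have h4 := congrArg Complex.re h1
    rw [Complex.re_sum] at h4
    have h5 : ∀ j, (((starRingEnd ℂ) c * z j) ^ 2).re = - ((starRingEnd ℂ) c * z j).im ^ 2 := by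
      intro j
      rw [sq, Complex.mul_re, h2 j]
      ring
    rw [Finset.sum_congr rfl (fun j _ => h5 j), Finset.sum_neg_distrib, Complex.zero_re] at h4
    linarith
  have h4 : ∀ j ∈ Finset.univ, ((starRingEnd ℂ) c * z j).im ^ 2 = 0 :=
    (Finset.sum_eq_zero_iff_of_nonneg (fun j _ => sq_nonneg _)).1 h3
  funext j
  have h5 : ((starRingEnd ℂ) c * z j).im = 0 := by
    have := h4 j (Finset.mem_univ j)
    exact pow_eq_zero_iff (two_ne_zero) |>.1 this
  have h6 : (starRingEnd ℂ) c * z j = 0 := Complex.ext (h2 j) h5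
  rcases mul_eq_zero.1 h6 with h7 | h7
  · exact absurd ((map_eq_zero _).1 h7) hc
  · exact h7

/-- the inner product with a real combination -/
lemma inner_dot (b : E d) (z : Fin d → ℂ) (ζ : ℂ) :
    inner ℝ b (WithLp.toLp 2 (fun j => dot ζ (z j)) : E d) = dot ζ (L b z) := by
  have h : dot ζ (L b z) = ∑ j, b j * dot ζ (z j) := by
    rw [dot_eq_re]
    unfold L
    rw [Finset.mul_sum, Complex.re_sum]
    refine Finset.sum_congr rfl (fun j _ => ?_)
    rw [← dot_eq_re, dot_smul]
  rw [h, PiLp.inner_apply]
  refine Finset.sum_congr rfl (fun j _ => ?_)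
  simp
  ring

lemma inner_re (b : E d) (z : Fin d → ℂ) :
    inner ℝ b (WithLp.toLp 2 (fun j => (z j).re) : E d) = (L b z).re := by
  have h := inner_dot b z 1
  have h1 : ∀ w : ℂ, dot 1 w = w.re := by intro w; unfold dot; simp
  simp only [h1] at h
  exact h

lemma inner_im (b : E d) (z : Fin d → ℂ) :
    inner ℝ b (WithLp.toLp 2 (fun j => (z j).im) : E d) = (L b z).im := by
  have h := inner_dot b z Complex.I
  have h1 : ∀ w : ℂ, dot Complex.I w = w.im := by intro w; unfold dot; simp
  simp only [h1] at h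
  exact h

lemma continuous_ww (b : E d) :
    Continuous (fun p : (Fin d → ℂ) × ℂ => ww b p.1 p.2) := by
  unfold ww L tt dot
  fun_prop

lemma continuous_ss : Continuous (fun p : (Fin d → ℂ) × ℂ => ss p.1 p.2) := by
  unfold ss
  fun_prop

lemma Tv_scale {ι : Type} (s : Finset ι) (W W' : ι → ℂ) (m : ℕ) (t : ℝ) (ht : 0 < t)
    (h : ∀ a, W a = (t : ℂ) * W' a) (hT : Tv s W m) : Tv s W' m := by
  obtain ⟨P, h1, h2, h3⟩ := hT
  refine ⟨P, h1, h2, fun j v => ?_⟩
  obtain ⟨a, ha, hle⟩ := h3 j v
  refine ⟨a, ha, ?_⟩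
  rw [h, dot_smul] at hle
  by_contra hcon
  push Not at hcon
  have := mul_pos ht hcon
  linarith

end Geo

open Geo in
theorem geoStmt (h1 : BUStmt) (h2 : FieldStmt) : GeoStmt := by
  intro d hd r hr a hdir
  have hF := fun i => h2 (Fin (3 * r i - 2)) (r i) (hr i) (by simp)
  choose f hfc hfe hf0 hfh using hF
  let zz : (Fin (d + 1) → ℂ) → (Fin d → ℂ) := fun p j => p (Fin.castSucc j)
  let ze : (Fin (d + 1) → ℂ) → ℂ := fun p => p (Fin.last d)
  let G : (i : Fin (d - 1)) → (Fin (d + 1) → ℂ) → ℂ := fun i p =>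
    f i (fun k => ww (a i k) (zz p) (ze p)) + (ss (zz p) (ze p) : ℂ) * ze p
  let g : (Fin (d + 1) → ℂ) → (Fin d → ℂ) := fun p j =>
    if h : j.val = 0 then ∑ l, (zz p l) ^ 2 else G ⟨j.val - 1, by omega⟩ p
  have hzzc : Continuous zz := continuous_pi (fun j => continuous_apply _)
  have hzec : Continuous ze := continuous_apply _
  have hpc : Continuous (fun p => (zz p, ze p)) := hzzc.prodMk hzec
  have hGc : ∀ i, Continuous (G i) := by
    intro i
    refine Continuous.add ?_ ?_
    · refine (hfc i).comp (continuous_pi (fun k => ?_))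
      exact (continuous_ww (a i k)).comp hpc
    · refine Continuous.mul ?_ hzec
      exact Complex.continuous_ofReal.comp (continuous_ss.comp hpc)
  have hgc : Continuous g := by
    refine continuous_pi (fun j => ?_)
    by_cases h : j.val = 0
    · simp only [g, dif_pos h]
      fun_prop
    · simp only [g, dif_neg h]
      exact hGc _
  have hGe : ∀ i p, G i (mulOm p) = om * G i p := by
    intro i p
    have e1 : zz (mulOm p) = fun j => om * zz p j := rfl
    have e2 : ze (mulOm p) = om * ze p := rfl
    simp only [G, e1, e2, ss_om, ww_om]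
    rw [hfe i om norm_om]
    ring
  obtain ⟨p, hp0, hgp⟩ := h1 d (fun j => if j.val = 0 then 2 else 1) g
    (by intro j; by_cases h : j.val = 0 <;> simp [h]) hgc.continuousOn (by
      intro p
      funext j
      by_cases h : j.val = 0
      · simp only [g, dif_pos h, if_pos h]
        rw [Finset.mul_sum]
        refine Finset.sum_congr rfl (fun l _ => ?_)
        change (om * zz p l) ^ 2 = _
        ring
      · simp only [g, dif_neg h, if_neg h]
        rw [hGe, pow_one])
  -- the equations
  have hsq : ∑ l, (zz p l) ^ 2 = 0 := by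
    have := congrFun hgp ⟨0, by omega⟩
    simpa [g] using this
  have hG : ∀ i, G i p = 0 := by
    intro i
    have := congrFun hgp ⟨i.val + 1, by omega⟩
    simpa [g] using this
  set z := zz p with hz
  set ζ := ze p with hζ
  have hpz : z = 0 → ζ = 0 → False := by
    intro h h'
    apply hp0
    funext j
    refine Fin.lastCases h' (fun j => ?_) j
    exact congrFun h j
  have hG' : ∀ i, f i (fun k => ww (a i k) z ζ) + (ss z ζ : ℂ) * ζ = 0 := hG
  rcases le_or_gt ‖z‖ ‖ζ‖ with hle | hlt
  · exfalso
    have hζ0 : ζ ≠ 0 := by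
      intro h
      rw [h, norm_zero] at hle
      exact hpz (norm_le_zero_iff.1 hle) h
    have ht : tt z ζ = 0 := by
      unfold tt
      exact max_eq_left (by linarith)
    have hw : ∀ b : E d, dot ζ (ww b z ζ) = dot ζ (L b z) ^ 2 := by
      intro b
      unfold ww
      rw [dot_smul, ht]
      ring
    have hpos : ∀ i, 0 ≤ dot ζ (f i (fun k => ww (a i k) z ζ)) ∧
        (cle Finset.univ (fun k => ww (a i k) z ζ) ζ < r i →
          0 < dot ζ (f i (fun k => ww (a i k) z ζ))) := by
      intro i
      refine hfh i _ ζ hζ0 (fun k => ?_)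
      rw [hw]
      positivity
    have hzero : ∀ i, dot ζ (f i (fun k => ww (a i k) z ζ)) + ss z ζ * dot ζ ζ = 0 := by
      intro i
      have := congrArg (dot ζ) (hG' i)
      rw [dot_add, dot_smul, dot_zero] at this
      exact this
    have hss : 0 ≤ ss z ζ := le_max_left _ _
    have hdd : 0 < dot ζ ζ := dot_self_pos hζ0
    have hmul : 0 ≤ ss z ζ * dot ζ ζ := mul_nonneg hss hdd.le
    have hs0 : ss z ζ = 0 := by
      have h3 := hzero ⟨0, by omega⟩
      have h4 := (hpos ⟨0, by omega⟩).1
      have h5 : ss z ζ * dot ζ ζ = 0 := by linarith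
      rcases mul_eq_zero.1 h5 with h6 | h6
      · exact h6
      · exact absurd h6 hdd.ne'
    have hz0 : z ≠ 0 := by
      intro h
      have : ‖ζ‖ - ‖z‖ ≤ 0 := by
        rw [← hs0]
        exact le_max_right _ _
      rw [h, norm_zero, sub_zero] at this
      exact hζ0 (norm_le_zero_iff.1 this)
    have hu : (WithLp.toLp 2 (fun j => dot ζ (z j)) : E d) ≠ 0 := by
      intro h
      apply hζ0
      refine key z hsq hz0 ζ (fun j => ?_)
      have := congrArg (fun v : E d => v j) h
      simpa using this
    obtain ⟨i, hi⟩ := hdir _ hu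
    have h6 : ¬ cle Finset.univ (fun k => ww (a i k) z ζ) ζ < r i := by
      intro h
      have h7 := (hpos i).2 h
      have h8 := hzero i
      linarith
    apply h6
    refine lt_of_eq_of_lt ?_ hi
    unfold cle
    congr 1
    apply Finset.filter_congr
    intro k _
    rw [hw, inner_dot]
    constructor
    · intro h
      exact pow_eq_zero_iff (two_ne_zero) |>.1 (le_antisymm h (sq_nonneg _))
    · intro h
      rw [h]
      norm_num
  · have hs0 : ss z ζ = 0 := by
      unfold ss
      exact max_eq_left (by linarith)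
    have htt : tt z ζ = ‖z‖ - ‖ζ‖ := by
      unfold tt
      exact max_eq_right (by linarith)
    have ht : 0 < tt z ζ := by
      rw [htt]; linarith
    have hz0 : z ≠ 0 := by
      intro h
      rw [h, norm_zero] at hlt
      exact absurd (norm_nonneg ζ) (not_le.2 hlt)
    have hT : ∀ i, Tv Finset.univ (fun k => ww (a i k) z ζ) (r i) := by
      intro i
      apply hf0
      have := hG' i
      rw [hs0] at this
      simpa using this
    set x : E d := WithLp.toLp 2 (fun j => (z j).re) with hx
    set y : E d := WithLp.toLp 2 (fun j => (z j).im) with hy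
    refine ⟨x, y, (tt z ζ)⁻¹ • (ζ.re • x + ζ.im • y), ?_, ?_, ?_⟩
    · rw [LinearIndependent.pair_iff]
      intro s t hst
      have h3 : (⟨s, t⟩ : ℂ) = 0 := by
        refine key z hsq hz0 _ (fun j => ?_)
        have := congrArg (fun v : E d => v j) hst
        simpa [dot, hx, hy] using this
      exact ⟨congrArg Complex.re h3, congrArg Complex.im h3⟩
    · refine Submodule.smul_mem _ _ (Submodule.add_mem _ (Submodule.smul_mem _ _ ?_)
        (Submodule.smul_mem _ _ ?_))
      · exact Submodule.subset_span (by simp)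
      · exact Submodule.subset_span (by simp)
    · intro i
      refine Tv_scale _ _ _ _ (tt z ζ) ht (fun k => ?_) (hT i)
      have e1 : inner ℝ (a i k) x = (L (a i k) z).re := inner_re _ _
      have e2 : inner ℝ (a i k) y = (L (a i k) z).im := inner_im _ _
      have e3 : inner ℝ (a i k) ((tt z ζ)⁻¹ • (ζ.re • x + ζ.im • y)) =
          (tt z ζ)⁻¹ * dot ζ (L (a i k) z) := by
        rw [inner_smul_right, inner_add_right, inner_smul_right, inner_smul_right, e1, e2]
        rfl
      have e4 : (⟨inner ℝ (a i k) x, inner ℝ (a i k) y⟩ : ℂ) = L (a i k) z := by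
        rw [e1, e2]
      simp only [e3, e4]
      unfold ww
      rw [← mul_assoc]
      congr 1
      rw [← Complex.ofReal_mul]
      congr 1
      field_simp
end Pool.Agent.Lib.MP_c05127_co
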