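import Pool.Agent.Lib.MP_c05127_co.Spec

set_option linter.all false

open scoped Classical
open Filter Topology Metric

namespace Pool.Agent.Lib.MP_c05127_co

namespace Hfun

lemma conj_mul_self {z : ℂ} (hz : ‖z‖ = 1) : starRingEnd ℂ z * z = 1 := by
  rw [mul_comm, Complex.mul_conj, Complex.normSq_eq_norm_sq, hz]
  norm_num

lemma dot_rot {z : ℂ} (hz : ‖z‖ = 1) (v w : ℂ) : dot (z * v) (z * w) = dot v w := by
  rw [dot_mul, ← mul_assoc, conj_mul_self hz, one_mul]

lemma cle_rot {ι : Type} (s : Finset ι) (W : ι → ℂ) {z : ℂ} (hz : ‖z‖ = 1) (v : ℂ) :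
    cle s (fun a => z * W a) (z * v) = cle s W v := by
  unfold cle
  simp only [dot_rot hz]

lemma clt_rot {ι : Type} (s : Finset ι) (W : ι → ℂ) {z : ℂ} (hz : ‖z‖ = 1) (v : ℂ) :
    clt s (fun a => z * W a) (z * v) = clt s W v := by
  unfold clt
  simp only [dot_rot hz]

lemma dep_rot {ι : Type} (s : Finset ι) (W : ι → ℂ) {z : ℂ} (hz : ‖z‖ = 1) {r : ℕ}
    (h : Dep s W r) : Dep s (fun a => z * W a) r := by
  intro v hv
  have e : v = z * (starRingEnd ℂ z * v) := by
    rw [← mul_assoc, mul_comm z, conj_mul_self hz, one_mul]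
  rw [e, cle_rot s W hz]
  apply h
  intro h0
  rw [h0, mul_zero] at e
  exact hv e

lemma tv_rot {ι : Type} (s : Finset ι) (W : ι → ℂ) {z : ℂ} (hz : ‖z‖ = 1) {r : ℕ}
    (h : Tv s W r) : Tv s (fun a => z * W a) r := by
  obtain ⟨P, h1, h2, h3⟩ := h
  refine ⟨P, h1, h2, ?_⟩
  intro j v
  obtain ⟨a, ha, hd⟩ := h3 j (starRingEnd ℂ z * v)
  exact ⟨a, ha, by rw [dot_mul]; exact hd⟩

lemma dist_rot {ι : Type} [Fintype ι] {z : ℂ} (hz : ‖z‖ = 1) (W U : ι → ℂ) :
    dist (fun a => z * W a) (fun a => z * U a) = dist W U := by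
  rw [dist_eq_norm, dist_eq_norm]
  have : (fun a => z * W a) - (fun a => z * U a) = z • (W - U) := by
    funext a
    simp [mul_sub]
  rw [this, norm_smul, hz, one_mul]

lemma infDist_rot_le {ι : Type} [Fintype ι] (S : Set (ι → ℂ))
    (hS : ∀ z : ℂ, ‖z‖ = 1 → ∀ W ∈ S, (fun a => z * W a) ∈ S) {z : ℂ} (hz : ‖z‖ = 1)
    (W : ι → ℂ) : infDist (fun a => z * W a) S ≤ infDist W S := by
  rcases S.eq_empty_or_nonempty with h | h
  · rw [h, infDist_empty, infDist_empty]
  · rw [le_infDist h]
    intro U hU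
    rw [← dist_rot hz W U]
    exact infDist_le_dist_of_mem (hS z hz U hU)

lemma infDist_rot {ι : Type} [Fintype ι] (S : Set (ι → ℂ))
    (hS : ∀ z : ℂ, ‖z‖ = 1 → ∀ W ∈ S, (fun a => z * W a) ∈ S) {z : ℂ} (hz : ‖z‖ = 1)
    (W : ι → ℂ) : infDist (fun a => z * W a) S = infDist W S := by
  apply le_antisymm (infDist_rot_le S hS hz W)
  have hz' : ‖starRingEnd ℂ z‖ = 1 := by rw [RCLike.norm_conj, hz]
  have h := infDist_rot_le S hS hz' (fun a => z * W a)
  have e : (fun a => starRingEnd ℂ z * ((fun a => z * W a) a)) = W := by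
    funext a
    simp only
    rw [← mul_assoc, conj_mul_self hz, one_mul]
  rw [e] at h
  exact h

lemma inv_TT {ι : Type} [Fintype ι] (r : ℕ) {z : ℂ} (hz : ‖z‖ = 1) {W : ι → ℂ}
    (h : W ∈ TT ι r) : (fun a => z * W a) ∈ TT ι r := tv_rot _ W hz h

lemma inv_C0 {ι : Type} [Fintype ι] (r : ℕ) (a₀ : ι) {z : ℂ} (hz : ‖z‖ = 1) {W : ι → ℂ}
    (h : W ∈ C0 ι r a₀) : (fun a => z * W a) ∈ C0 ι r a₀ := by
  obtain ⟨h1, v, hv, h2, h3⟩ := h
  refine ⟨dep_rot _ W hz h1, z * v, by rw [norm_mul, hz, hv, one_mul], ?_, ?_⟩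
  · rw [clt_rot _ W hz]; exact h2
  · rw [dot_rot hz]; exact h3

lemma inv_Cm {ι : Type} [Fintype ι] (r : ℕ) (a₀ : ι) {z : ℂ} (hz : ‖z‖ = 1) {W : ι → ℂ}
    (h : W ∈ Cm ι r a₀) : (fun a => z * W a) ∈ Cm ι r a₀ := by
  obtain ⟨h1, v, hv, h2, h3⟩ := h
  refine ⟨dep_rot _ W hz h1, z * v, by rw [norm_mul, hz, hv, one_mul], ?_, ?_⟩
  · rw [clt_rot _ W hz]; exact h2
  · rw [dot_rot hz]; exact h3

/-- the zero configuration -/
lemma zero_mem {ι : Type} [Fintype ι] {r : ℕ} (hr : 1 ≤ r) (hc : Fintype.card ι = 3 * r - 2) :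
    (fun _ => 0 : ι → ℂ) ∈ TT ι r := by
  have hle : Fintype.card (Fin r) ≤ Fintype.card ι := by
    rw [Fintype.card_fin, hc]; omega
  obtain ⟨e⟩ := Function.Embedding.nonempty_of_card_le hle
  refine ⟨fun j => {e j}, fun j => Finset.subset_univ _, ?_, ?_⟩
  · intro i j hij
    rw [Finset.disjoint_singleton]
    intro h
    exact hij (e.injective h)
  · intro j v
    exact ⟨e j, Finset.mem_singleton_self _, by simp⟩

end Hfun

open Hfun

theorem hfunStmt (h1 : ClosStmt) (h2 : WallStmt) : HfunStmt := by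
  intro ι _ r hr hc
  have hne : Nonempty ι := by
    rw [← Fintype.card_pos_iff, hc]; omega
  obtain ⟨a₀⟩ := hne
  obtain ⟨cT, cY, c0, cm⟩ := h1 ι r a₀ hr hc
  set S1 : Set (ι → ℂ) := Cm ι r a₀ ∪ TT ι r with hS1
  set S2 : Set (ι → ℂ) := C0 ι r a₀ ∪ TT ι r with hS2
  have iS1 : ∀ z : ℂ, ‖z‖ = 1 → ∀ W ∈ S1, (fun a => z * W a) ∈ S1 := by
    intro z hz W hW
    rcases hW with hW | hW
    · exact Or.inl (inv_Cm r a₀ hz hW)
    · exact Or.inr (inv_TT r hz hW)
  have iS2 : ∀ z : ℂ, ‖z‖ = 1 → ∀ W ∈ S2, (fun a => z * W a) ∈ S2 := by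
    intro z hz W hW
    rcases hW with hW | hW
    · exact Or.inl (inv_C0 r a₀ hz hW)
    · exact Or.inr (inv_TT r hz hW)
  have nS1 : S1.Nonempty := ⟨_, Or.inr (zero_mem hr hc)⟩
  have nS2 : S2.Nonempty := ⟨_, Or.inr (zero_mem hr hc)⟩
  refine ⟨fun W => ((infDist W S1 : ℂ) + (infDist W S2 : ℂ) * Complex.I) * W a₀, ?_, ?_, ?_⟩
  · have e1 : Continuous (fun W : ι → ℂ => ((infDist W S1 : ℝ) : ℂ)) :=
      Complex.continuous_ofReal.comp (continuous_infDist_pt S1)
    have e2 : Continuous (fun W : ι → ℂ => ((infDist W S2 : ℝ) : ℂ)) :=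
      Complex.continuous_ofReal.comp (continuous_infDist_pt S2)
    exact (e1.add (e2.mul continuous_const)).mul (continuous_apply a₀)
  · intro z hz W
    simp only
    rw [infDist_rot S1 iS1 hz, infDist_rot S2 iS2 hz]
    ring
  · intro W hY hT
    obtain ⟨w1, w2, w3⟩ := h2 ι W r hr hc hY hT
    have hw := w1 a₀
    have hα0 : 0 ≤ infDist W S1 := infDist_nonneg
    have hβ0 : 0 ≤ infDist W S2 := infDist_nonneg
    have aCm : infDist W S1 = 0 → W ∈ Cm ι r a₀ := by
      intro h
      have h' := (mem_closure_iff_infDist_zero nS1).2 h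
      rw [hS1, closure_union, cT.closure_eq] at h'
      rcases h' with h' | h'
      · rcases cm h' with h'' | h''
        · exact h''
        · exact absurd h'' hT
      · exact absurd h' hT
    have aC0 : infDist W S2 = 0 → W ∈ C0 ι r a₀ := by
      intro h
      have h' := (mem_closure_iff_infDist_zero nS2).2 h
      rw [hS2, closure_union, cT.closure_eq, c0.closure_eq] at h'
      rcases h' with h' | h'
      · exact h'
      · exact absurd h' hT
    have bCm : W ∈ Cm ι r a₀ → infDist W S1 = 0 := fun h => infDist_zero_of_mem (Or.inl h)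
    have bC0 : W ∈ C0 ι r a₀ → infDist W S2 = 0 := fun h => infDist_zero_of_mem (Or.inl h)
    have hnz : ((infDist W S1 : ℂ) + (infDist W S2 : ℂ) * Complex.I) * W a₀ ≠ 0 := by
      intro h
      rcases mul_eq_zero.1 h with h | h
      · have hre := congrArg Complex.re h
        have him := congrArg Complex.im h
        simp at hre him
        obtain ⟨_, v, hv, k1, k2⟩ := aCm hre
        obtain ⟨_, v', hv', k3, k4⟩ := aC0 him
        have vne : v ≠ 0 := by
          intro h0
          rw [h0, norm_zero] at hv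
          exact zero_ne_one hv
        have vne' : v' ≠ 0 := by
          intro h0
          rw [h0, norm_zero] at hv'
          exact zero_ne_one hv'
        have hpar := w3 v v' vne vne' k1 k3
        have hexp := expand v v' hv
        rw [hpar] at hexp
        simp only [Complex.ofReal_zero, zero_mul, add_zero] at hexp
        rw [hexp, smul_dot] at k4
        rcases mul_eq_zero.1 k4 with k | k
        · rw [k, Complex.ofReal_zero, zero_mul] at hexp
          exact vne' hexp
        · rw [k] at k2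
          exact lt_irrefl _ k2
      · exact hw h
    refine ⟨hnz, ?_⟩
    intro v hv hclt c hc0 heq
    simp only at heq
    have hvv : dot v v = 1 := by rw [dot_self, hv]; norm_num
    have E1 : infDist W S1 * dot v (W a₀) - infDist W S2 * dot (Complex.I * v) (W a₀) = -c := by
      have := congrArg (dot v) heq
      rw [show -(c : ℂ) * v = ((-c : ℝ) : ℂ) * v by push_cast; ring, dot_smul, hvv, mul_one] at this
      rw [← this]
      unfold dot
      simp
      ring
    have E2 : infDist W S1 * dot (Complex.I * v) (W a₀) + infDist W S2 * dot v (W a₀) = 0 := by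
      have := congrArg (dot (Complex.I * v)) heq
      rw [show -(c : ℂ) * v = ((-c : ℝ) : ℂ) * v by push_cast; ring, dot_smul, I_dot,
        mul_zero] at this
      rw [← this]
      unfold dot
      simp
      ring
    rcases lt_trichotomy (dot v (W a₀)) 0 with hX | hX | hX
    · have hα := bCm ⟨hY, v, hv, hclt, hX⟩
      have hβ : infDist W S2 = 0 := by
        rw [hα, zero_mul, zero_add] at E2
        rcases mul_eq_zero.1 E2 with k | k
        · exact k
        · rw [k] at hX; exact absurd hX (lt_irrefl _)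
      apply hnz
      rw [hα, hβ]
      simp
    · have hβ := bC0 ⟨hY, v, hv, hclt, hX⟩
      rw [hX, hβ, mul_zero, zero_mul, sub_zero] at E1
      have hcz : c = 0 := by linarith
      apply hnz
      rw [heq, hcz]
      simp
    · have hα : infDist W S1 = 0 := by
        by_contra hne
        have hpos : 0 < infDist W S1 := lt_of_le_of_ne hα0 (Ne.symm hne)
        have h3 : infDist W S1 * (dot v (W a₀) ^ 2 + dot (Complex.I * v) (W a₀) ^ 2) =
            -c * dot v (W a₀) := by
          rw [← E1]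
          linear_combination (dot (Complex.I * v) (W a₀)) * E2
        have h4 : 0 < infDist W S1 * (dot v (W a₀) ^ 2 + dot (Complex.I * v) (W a₀) ^ 2) := by
          positivity
        rw [h3] at h4
        nlinarith
      have hβ : infDist W S2 = 0 := by
        rw [hα, zero_mul, zero_add] at E2
        rcases mul_eq_zero.1 E2 with k | k
        · exact k
        · rw [k] at hX; exact absurd hX (lt_irrefl _)
      apply hnz
      rw [hα, hβ]
      simp

end Pool.Agent.Lib.MP_c05127_co
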