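import Pool.Agent.Lib.MP_c05127_co.Spec

set_option linter.all false

open scoped Classical

namespace Pool.Agent.Lib.MP_c05127_co

theorem main (hFin : FinStmt) (hGen1 : Gen1Stmt) (hGen2 : Gen2Stmt) :
    ∀ (d : ℕ) (r : Fin (d - 1) → ℕ) (A : Fin (d - 1) → Finset (AffineSubspace ℝ (E d))),
      2 ≤ d → (∀ i, 1 ≤ r i) → (∀ i, IsArr (A i)) → (∀ i, (A i).card = 3 * (r i - 1) + 1) →
      (NoDir r A ∨ GenPos A) → Concl r A := by
  intro d r A hd hr hA hc h
  rcases h with h | h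
  · exact hFin d r A hd hr hA hc h
  · rcases le_or_gt d (∑ i, r i) with h1 | h1
    · exact hFin d r A hd hr hA hc (hGen1 d r A hd h h1)
    · exact hGen2 d r A hd hr hA hc h h1

end Pool.Agent.Lib.MP_c05127_co
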