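import Pool.Agent.Lib.MP_c05127_co.Spec

set_option linter.all false

/-! Two disjoint antipodal pairs. -/

open scoped Classical

namespace Pool.Agent.Lib.MP_c05127_co

namespace Pair

/-- a pair of opposite vectors meets every closed half plane -/
lemma half {ι : Type} (W : ι → ℂ) (b c : ι) (κ : ℝ) (hκ : 0 < κ)
    (hW : W c = -(κ : ℂ) * W b) (v : ℂ) : ∃ a ∈ ({b, c} : Finset ι), dot v (W a) ≤ 0 := by
  rcases le_total (dot v (W b)) 0 with h1 | h1
  · exact ⟨b, by simp, h1⟩
  · refine ⟨c, by simp, ?_⟩
    rw [hW, neg_mul, dot_neg, dot_smul]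
    have := mul_nonneg hκ.le h1
    linarith

/-- exactly one element of an antipodal pair lies in a generic closed half plane -/
lemma one {ι : Type} (W : ι → ℂ) (b c : ι) (hbc : b ≠ c) (κ : ℝ) (hκ : 0 < κ)
    (hW : W c = -(κ : ℂ) * W b) (v : ℂ) (hv : dot v (W b) ≠ 0) :
    (({b, c} : Finset ι).filter (fun a => dot v (W a) ≤ 0)).card = 1 := by
  have hc : dot v (W c) = -(κ * dot v (W b)) := by
    rw [hW, neg_mul, dot_neg, dot_smul]
  rw [Finset.card_eq_one]
  rcases lt_or_gt_of_ne hv with h1 | h1
  · refine ⟨b, ?_⟩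
    ext a
    simp only [Finset.mem_filter, Finset.mem_insert, Finset.mem_singleton]
    constructor
    · rintro ⟨rfl | rfl, h2⟩
      · rfl
      · rw [hc] at h2
        have := mul_neg_of_pos_of_neg hκ h1
        linarith
    · rintro rfl
      exact ⟨Or.inl rfl, h1.le⟩
  · refine ⟨c, ?_⟩
    ext a
    simp only [Finset.mem_filter, Finset.mem_insert, Finset.mem_singleton]
    constructor
    · rintro ⟨rfl | rfl, h2⟩
      · linarith
      · rfl
    · rintro rfl
      refine ⟨Or.inr rfl, ?_⟩
      rw [hc]
      have := mul_pos hκ h1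
      linarith

/-- a vector orthogonal to neither of two nonzero vectors -/
lemma exists_w (x y : ℂ) (hx : x ≠ 0) (hy : y ≠ 0) : ∃ w, dot w x ≠ 0 ∧ dot w y ≠ 0 := by
  by_cases h : dot x y = 0
  · refine ⟨x + y, ?_, ?_⟩
    · rw [add_dot, dot_comm y x, h, add_zero]
      exact (dot_self_pos hx).ne'
    · rw [add_dot, h, zero_add]
      exact (dot_self_pos hy).ne'
  · exact ⟨x, (dot_self_pos hx).ne', h⟩

/-- `α + ε β` does not vanish for small positive `ε` -/
lemma ev_ne (α β : ℝ) (hβ : β ≠ 0) : ∀ᶠ ε in nhdsWithin (0 : ℝ) (Set.Ioi 0), α + ε * β ≠ 0 := by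
  by_cases hα : α = 0
  · filter_upwards [self_mem_nhdsWithin] with ε hε
    rw [hα, zero_add]
    exact mul_ne_zero (ne_of_gt hε) hβ
  · have hc : Filter.Tendsto (fun ε : ℝ => α + ε * β) (nhds 0) (nhds (α + 0 * β)) :=
      (Continuous.tendsto (by fun_prop) 0)
    rw [zero_mul, add_zero] at hc
    exact (hc.eventually_ne hα).filter_mono nhdsWithin_le_nhds

/-- `α + ε β` stays positive for small positive `ε` -/
lemma ev_pos (α β : ℝ) (hα : 0 < α) : ∀ᶠ ε in nhdsWithin (0 : ℝ) (Set.Ioi 0), 0 < α + ε * β := by
  have hc : Filter.Tendsto (fun ε : ℝ => α + ε * β) (nhds 0) (nhds (α + 0 * β)) :=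
    (Continuous.tendsto (by fun_prop) 0)
  rw [zero_mul, add_zero] at hc
  exact (hc.eventually (lt_mem_nhds hα)).filter_mono nhdsWithin_le_nhds

/-- rotate a little -/
lemma rotate {ι : Type} (s : Finset ι) (W : ι → ℂ) (b b' : ι) (hb : W b ≠ 0) (hb' : W b' ≠ 0)
    (v : ℂ) : ∃ v' : ℂ, dot v' (W b) ≠ 0 ∧ dot v' (W b') ≠ 0 ∧
      ∀ a ∈ s, dot v' (W a) ≤ 0 → dot v (W a) ≤ 0 := by
  obtain ⟨w, hw, hw'⟩ := exists_w (W b) (W b') hb hb'
  have key : ∀ (ε : ℝ) (x : ℂ), dot (v + (ε : ℂ) * w) x = dot v x + ε * dot w x := by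
    intro ε x
    rw [add_dot, smul_dot]
  have h3 : ∀ᶠ ε in nhdsWithin (0 : ℝ) (Set.Ioi 0),
      ∀ a ∈ s, 0 < dot v (W a) → 0 < dot v (W a) + ε * dot w (W a) := by
    rw [Filter.eventually_all_finset]
    intro a _
    by_cases h : 0 < dot v (W a)
    · filter_upwards [ev_pos _ (dot w (W a)) h] with ε hε _ using hε
    · exact Filter.Eventually.of_forall fun ε h' => absurd h' h
  obtain ⟨ε, h4, h5, h6⟩ := ((ev_ne (dot v (W b)) _ hw).and
    ((ev_ne (dot v (W b')) _ hw').and h3)).exists
  refine ⟨v + (ε : ℂ) * w, ?_, ?_, ?_⟩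
  · rw [key]; exact h4
  · rw [key]; exact h5
  · intro a ha h7
    by_contra h8
    have := h6 a ha (not_le.1 h8)
    rw [key] at h7
    linarith

end Pair

theorem pairStmt (h : BirchStmt) : PairStmt := by
  intro ι s W r hcard hdep b hb c hc b' hb' c' hc' hbc hbb' hbc' hcb' hcc' hb'c' hWb hWb' κ κ'
    hκ hκ' hWc hWc'
  have hsub1 : ({b, c} : Finset ι) ⊆ s := by
    intro a ha
    simp only [Finset.mem_insert, Finset.mem_singleton] at ha
    rcases ha with rfl | rfl <;> assumption
  have hsub2 : ({b', c'} : Finset ι) ⊆ s := by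
    intro a ha
    simp only [Finset.mem_insert, Finset.mem_singleton] at ha
    rcases ha with rfl | rfl <;> assumption
  have hdis : Disjoint ({b, c} : Finset ι) ({b', c'} : Finset ι) := by
    rw [Finset.disjoint_left]
    intro a ha ha'
    simp only [Finset.mem_insert, Finset.mem_singleton] at ha ha'
    rcases ha with rfl | rfl <;> rcases ha' with rfl | rfl <;> contradiction
  match r, hcard, hdep with
  | 0, _, _ => exact ⟨fun j => j.elim0, fun j => j.elim0, fun j => j.elim0, fun j => j.elim0⟩
  | 1, _, _ =>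
    exact ⟨fun _ => {b, c}, fun _ => hsub1,
      fun i j hij => absurd (Subsingleton.elim i j) hij, fun _ v => Pair.half W b c κ hκ hWc v⟩
  | k + 2, hcard, hdep =>
    have hU : (({b, c} : Finset ι) ∪ {b', c'}) ⊆ s := Finset.union_subset hsub1 hsub2
    have hUc : (({b, c} : Finset ι) ∪ {b', c'}).card = 4 := by
      rw [Finset.card_union_of_disjoint hdis, Finset.card_pair hbc, Finset.card_pair hb'c']
    obtain ⟨P, hP1, hP2, hP3⟩ : Tv (s \ (({b, c} : Finset ι) ∪ {b', c'})) W k := by
      apply h
      · rw [Finset.card_sdiff_of_subset hU, hUc]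
        omega
      · intro v hv
        obtain ⟨v', h1, h2, h3⟩ := Pair.rotate s W b b' hWb hWb' v
        have hv' : v' ≠ 0 := by
          rintro rfl
          exact h1 (zero_dot _)
        have h4 := hdep v' hv'
        have h5 : cle s W v' ≤ cle (s \ (({b, c} : Finset ι) ∪ {b', c'})) W v' + 2 := by
          unfold cle
          have e : s = (s \ (({b, c} : Finset ι) ∪ {b', c'})) ∪ (({b, c} : Finset ι) ∪ {b', c'}) := by
            rw [Finset.sdiff_union_of_subset hU]
          calc (s.filter (fun a => dot v' (W a) ≤ 0)).card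
              = (((s \ (({b, c} : Finset ι) ∪ {b', c'})) ∪
                  (({b, c} : Finset ι) ∪ {b', c'})).filter (fun a => dot v' (W a) ≤ 0)).card := by
                rw [← e]
            _ ≤ ((s \ (({b, c} : Finset ι) ∪ {b', c'})).filter (fun a => dot v' (W a) ≤ 0)).card
                + ((({b, c} : Finset ι) ∪ {b', c'}).filter (fun a => dot v' (W a) ≤ 0)).card := by
                rw [Finset.filter_union]
                exact Finset.card_union_le _ _
            _ ≤ ((s \ (({b, c} : Finset ι) ∪ {b', c'})).filter (fun a => dot v' (W a) ≤ 0)).card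
                + 2 := by
                apply Nat.add_le_add_left
                rw [Finset.filter_union]
                refine (Finset.card_union_le _ _).trans ?_
                rw [Pair.one W b c hbc κ hκ hWc v' h1, Pair.one W b' c' hb'c' κ' hκ' hWc' v' h2]
        have h6 : cle (s \ (({b, c} : Finset ι) ∪ {b', c'})) W v' ≤
            cle (s \ (({b, c} : Finset ι) ∪ {b', c'})) W v := by
          unfold cle
          apply Finset.card_le_card
          intro a ha
          rw [Finset.mem_filter] at ha ⊢
          exact ⟨ha.1, h3 a (Finset.mem_sdiff.1 ha.1).1 ha.2⟩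
        omega
    have hd1 : ∀ j, Disjoint ({b, c} : Finset ι) (P j) := by
      intro j
      rw [Finset.disjoint_left]
      intro a ha ha'
      exact (Finset.mem_sdiff.1 (hP1 j ha')).2 (Finset.mem_union_left _ ha)
    have hd2 : ∀ j, Disjoint ({b', c'} : Finset ι) (P j) := by
      intro j
      rw [Finset.disjoint_left]
      intro a ha ha'
      exact (Finset.mem_sdiff.1 (hP1 j ha')).2 (Finset.mem_union_right _ ha)
    refine ⟨Fin.cons {b, c} (Fin.cons {b', c'} P), ?_, ?_, ?_⟩
    · intro j
      refine Fin.cases ?_ (fun j => ?_) j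
      · rw [Fin.cons_zero]; exact hsub1
      · rw [Fin.cons_succ]
        refine Fin.cases ?_ (fun j => ?_) j
        · rw [Fin.cons_zero]; exact hsub2
        · rw [Fin.cons_succ]
          exact (hP1 j).trans Finset.sdiff_subset
    · have hsym : ∀ i j : Fin (k + 2), i < j →
          Disjoint ((Fin.cons {b, c} (Fin.cons {b', c'} P) : Fin (k + 2) → Finset ι) i)
            ((Fin.cons {b, c} (Fin.cons {b', c'} P) : Fin (k + 2) → Finset ι) j) := by
        intro i j
        refine Fin.cases ?_ (fun i => ?_) i
        · refine Fin.cases ?_ (fun j => ?_) j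
          · intro h; exact absurd h (lt_irrefl _)
          · intro _
            rw [Fin.cons_zero, Fin.cons_succ]
            refine Fin.cases ?_ (fun j => ?_) j
            · rw [Fin.cons_zero]; exact hdis
            · rw [Fin.cons_succ]; exact hd1 j
        · refine Fin.cases ?_ (fun j => ?_) j
          · intro h; exact absurd h (by simp)
          · intro hij
            rw [Fin.cons_succ, Fin.cons_succ]
            have hij' : i < j := Fin.succ_lt_succ_iff.1 hij
            revert hij'
            refine Fin.cases ?_ (fun i => ?_) i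
            · refine Fin.cases ?_ (fun j => ?_) j
              · intro h; exact absurd h (lt_irrefl _)
              · intro _
                rw [Fin.cons_zero, Fin.cons_succ]; exact hd2 j
            · refine Fin.cases ?_ (fun j => ?_) j
              · intro h; exact absurd h (by simp)
              · intro h
                rw [Fin.cons_succ, Fin.cons_succ]
                exact hP2 i j (ne_of_lt (Fin.succ_lt_succ_iff.1 h))
      intro i j hij
      rcases lt_or_gt_of_ne hij with h1 | h1
      · exact hsym i j h1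
      · exact (hsym j i h1).symm
    · intro j
      refine Fin.cases ?_ (fun j => ?_) j
      · rw [Fin.cons_zero]; exact fun v => Pair.half W b c κ hκ hWc v
      · rw [Fin.cons_succ]
        refine Fin.cases ?_ (fun j => ?_) j
        · rw [Fin.cons_zero]; exact fun v => Pair.half W b' c' κ' hκ' hWc' v
        · rw [Fin.cons_succ]
          exact hP3 j

end Pool.Agent.Lib.MP_c05127_co
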