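import Pool.Agent.Lib.MP_c05127_co.Spec

set_option linter.all false

/-! The labelling gives an equivariant chain map. -/

open scoped Classical

namespace Pool.Agent.Lib.MP_c05127_co.PhMap

/-- words whose letters come from the list -/
def Fr {X : Type} {m : ℕ} (lab : X → ZMod 3 × Fin m) (l : List X) (w : Wd m) : Prop :=
  (Finset.univ.filter (fun i : Fin m => w i ≠ none)).card = l.length ∧
    ∀ (j : Fin m) (s : ZMod 3), w j = some s → ∃ y ∈ l, lab y = (s, j)

/-- the span of these words -/
noncomputable def SpW {X : Type} {m : ℕ} (lab : X → ZMod 3 × Fin m) (l : List X) :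
    Submodule (ZMod 3) (WC m) :=
  Submodule.span (ZMod 3) {c | ∃ w, Fr lab l w ∧ c = Finsupp.single w 1}

lemma ins_single {m : ℕ} (p : ZMod 3 × Fin m) (w : Wd m) :
    ins p (Finsupp.single w 1) = insw p w := by
  unfold ins; simp

lemma dW_single {m : ℕ} (w : Wd m) : dW (Finsupp.single w 1) = dWw w := by
  unfold dW; simp

lemma Ph_single {X : Type} {m : ℕ} (lab : X → ZMod 3 × Fin m) (l : List X) :
    Ph lab (Finsupp.single l 1) = PhL lab l := by
  unfold Ph; simp

lemma Ph_cone {X : Type} {m : ℕ} (lab : X → ZMod 3 × Fin m) (x : X) (c : Ch X) :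
    Ph lab (cone x c) = ins (lab x) (Ph lab c) := by
  have h : Ph lab ∘ₗ cone x = ins (lab x) ∘ₗ Ph lab := by
    apply Finsupp.lhom_ext'
    intro l
    apply LinearMap.ext_ring
    simp only [LinearMap.comp_apply, Finsupp.lsingle_apply, cone_single, Ph_single]
    rfl
  exact LinearMap.congr_fun h c

lemma fr_insw {X : Type} {m : ℕ} (lab : X → ZMod 3 × Fin m) (x : X) (l : List X) (w : Wd m)
    (hw : Fr lab l w) : insw (lab x) w ∈ SpW lab (x :: l) := by
  unfold insw
  by_cases h : w (lab x).2 = none
  · rw [if_pos h]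
    refine Submodule.smul_mem _ _ (Submodule.subset_span ⟨_, ⟨?_, ?_⟩, rfl⟩)
    · have e : Finset.univ.filter (fun i : Fin m =>
          Function.update w (lab x).2 (some (lab x).1) i ≠ none) =
          insert (lab x).2 (Finset.univ.filter (fun i : Fin m => w i ≠ none)) := by
        ext i
        by_cases hi : i = (lab x).2
        · subst hi
          simp
        · simp [Function.update_of_ne hi, hi]
      rw [e, Finset.card_insert_of_notMem (by simp [h]), hw.1]
      rfl
    · intro j s hj
      by_cases hi : j = (lab x).2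
      · subst hi
        rw [Function.update_self] at hj
        have hs : (lab x).1 = s := Option.some_injective _ hj
        exact ⟨x, List.mem_cons_self, by rw [← hs]⟩
      · rw [Function.update_of_ne hi] at hj
        obtain ⟨y, hy, hl⟩ := hw.2 j s hj
        exact ⟨y, List.mem_cons_of_mem _ hy, hl⟩
  · rw [if_neg h]
    exact Submodule.zero_mem _

lemma PhL_mem {X : Type} {m : ℕ} (lab : X → ZMod 3 × Fin m) (l : List X) :
    PhL lab l ∈ SpW lab l := by
  induction l with
  | nil =>
    refine Submodule.subset_span ⟨_, ⟨?_, ?_⟩, rfl⟩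
    · simp
    · intro j s hj
      exact absurd hj (by simp)
  | cons x l ih =>
    change ins (lab x) (PhL lab l) ∈ SpW lab (x :: l)
    have h : SpW lab l ≤ (SpW lab (x :: l)).comap (ins (lab x)) := by
      refine Submodule.span_le.2 ?_
      rintro c ⟨w, hw, rfl⟩
      change ins (lab x) (Finsupp.single w 1) ∈ SpW lab (x :: l)
      rw [ins_single]
      exact fr_insw lab x l w hw
    exact h ih

lemma PhL_zero {X : Type} {m : ℕ} (lab : X → ZMod 3 × Fin m) (l : List X)
    (hl : m < l.length) : PhL lab l = 0 := by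
  have h := PhL_mem lab l
  have e : {c : WC m | ∃ w, Fr lab l w ∧ c = Finsupp.single w 1} = ∅ := by
    ext c
    simp only [Set.mem_setOf_eq, Set.mem_empty_iff_false, iff_false]
    rintro ⟨w, hw, _⟩
    have h1 : (Finset.univ.filter (fun i : Fin m => w i ≠ none)).card ≤ m := by
      simpa using Finset.card_filter_le (Finset.univ : Finset (Fin m)) (fun i => w i ≠ none)
    have h2 := hw.1
    omega
  unfold SpW at h
  rw [e, Submodule.span_empty] at h
  exact (Submodule.mem_bot _).1 h

lemma PhL_map (h : WRelStmt) {X : Type} (g : X → X) {m : ℕ} (lab : X → ZMod 3 × Fin m)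
    (l : List X) (hg : ∀ x ∈ l, lab (g x) = ((lab x).1 + 1, (lab x).2)) :
    PhL lab (l.map g) = gW (PhL lab l) := by
  induction l with
  | nil => exact ((h.2.2.2.2.2 m).2).symm
  | cons x l ih =>
    change ins (lab (g x)) (PhL lab (l.map g)) = gW (ins (lab x) (PhL lab l))
    rw [ih (fun y hy => hg y (List.mem_cons_of_mem _ hy)), hg x List.mem_cons_self,
      h.2.2.2.2.1]

lemma PhL_bd (h : WRelStmt) {X : Type} {m : ℕ} (lab : X → ZMod 3 × Fin m)
    (l : List X) (hR : ∀ x ∈ l, ∀ y ∈ l, (lab x).2 = (lab y).2 → (lab x).1 = (lab y).1) :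
    dW (PhL lab l) = Ph lab (bdL l) := by
  induction l with
  | nil =>
    change dW eW = Ph lab 0
    rw [(h.2.2.2.2.2 m).1, map_zero]
  | cons x l ih =>
    have ih' := ih (fun y hy z hz => hR y (List.mem_cons_of_mem _ hy) z
      (List.mem_cons_of_mem _ hz))
    change dW (ins (lab x) (PhL lab l)) = Ph lab (Finsupp.single l 1 - cone x (bdL l))
    rw [map_sub, Ph_single, Ph_cone, ← ih']
    have key : SpW lab l ≤ LinearMap.ker
        (dW ∘ₗ ins (lab x) + ins (lab x) ∘ₗ dW - LinearMap.id : WC m →ₗ[ZMod 3] WC m) := by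
      refine Submodule.span_le.2 ?_
      rintro c ⟨w, hw, rfl⟩
      rw [SetLike.mem_coe, LinearMap.mem_ker]
      simp only [LinearMap.sub_apply, LinearMap.add_apply, LinearMap.comp_apply,
        LinearMap.id_apply]
      rw [ins_single, dW_single, h.2.2.2.1 m (lab x) w, sub_self]
      rcases hc : w (lab x).2 with _ | s
      · exact Or.inl rfl
      · obtain ⟨y, hy, hl⟩ := hw.2 _ _ hc
        right
        have h1 := hR x List.mem_cons_self y (List.mem_cons_of_mem _ hy) (by rw [hl])
        rw [h1, hl]
    have h2 := key (PhL_mem lab l)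
    rw [LinearMap.mem_ker] at h2
    simp only [LinearMap.sub_apply, LinearMap.add_apply, LinearMap.comp_apply,
      LinearMap.id_apply] at h2
    rw [sub_eq_zero] at h2
    exact eq_sub_of_add_eq h2

end Pool.Agent.Lib.MP_c05127_co.PhMap

namespace Pool.Agent.Lib.MP_c05127_co

open PhMap

theorem phStmt (h : WRelStmt) : PhStmt := by
  intro X g m lab R hg hR
  refine ⟨?_, ?_, ?_⟩
  · have key : Sp R ≤ LinearMap.ker
        (Ph lab ∘ₗ act g - gW ∘ₗ Ph lab : Ch X →ₗ[ZMod 3] WC m) := by
      refine Submodule.span_le.2 ?_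
      rintro c ⟨l, hl, rfl⟩
      rw [SetLike.mem_coe, LinearMap.mem_ker]
      simp only [LinearMap.sub_apply, LinearMap.comp_apply]
      rw [act_single, Ph_single, Ph_single, PhL_map h g lab l (hg l hl), sub_self]
    intro c hc
    have h2 := key hc
    rw [LinearMap.mem_ker] at h2
    simp only [LinearMap.sub_apply, LinearMap.comp_apply] at h2
    exact sub_eq_zero.1 h2
  · have key : Sp R ≤ LinearMap.ker
        (dW ∘ₗ Ph lab - Ph lab ∘ₗ bd : Ch X →ₗ[ZMod 3] WC m) := by
      refine Submodule.span_le.2 ?_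
      rintro c ⟨l, hl, rfl⟩
      rw [SetLike.mem_coe, LinearMap.mem_ker]
      simp only [LinearMap.sub_apply, LinearMap.comp_apply]
      rw [bd_single, Ph_single, PhL_bd h lab l (hR l hl), sub_self]
    intro c hc
    have h2 := key hc
    rw [LinearMap.mem_ker] at h2
    simp only [LinearMap.sub_apply, LinearMap.comp_apply] at h2
    exact sub_eq_zero.1 h2
  · intro l hl
    rw [Ph_single]
    exact PhL_zero lab l hl

end Pool.Agent.Lib.MP_c05127_co
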