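import Pool.Agent.Lib.MP_c05127_co.Spec

set_option linter.all false

open scoped Classical

namespace Pool.Agent.Lib.MP_c05127_co

namespace Rem

theorem key (y v w : ℂ) : dot y y * dot v w =
    dot y v * dot y w + dot (Complex.I * y) v * dot (Complex.I * y) w := by
  unfold dot
  simp
  ring

theorem cle_erase {ι : Type} (s : Finset ι) (W : ι → ℂ) (v : ℂ) (a : ι) (ha : a ∈ s) (m : ℕ)
    (h1 : m ≤ cle s W v) (h2 : cle (s.erase a) W v < m) :
    dot v (W a) ≤ 0 ∧ cle s W v = m := by
  unfold cle at *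
  have h3 : (s.erase a).filter (fun a => dot v (W a) ≤ 0) =
      (s.filter (fun a => dot v (W a) ≤ 0)).erase a := by
    rw [Finset.filter_erase]
  rw [h3] at h2
  by_cases h4 : a ∈ s.filter (fun a => dot v (W a) ≤ 0)
  · refine ⟨(Finset.mem_filter.mp h4).2, ?_⟩
    rw [Finset.card_erase_of_mem h4] at h2
    have : 0 < (s.filter (fun a => dot v (W a) ≤ 0)).card := Finset.card_pos.mpr ⟨a, h4⟩
    omega
  · rw [Finset.erase_eq_of_notMem h4] at h2
    omega

end Rem

open Rem

theorem remStmt (h : CaraStmt) : RemStmt := by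
  intro ι s W m hcard hdep
  by_contra hcon
  push Not at hcon
  have h1 : ∀ a, a ∈ s → ∃ v : ℂ, v ≠ 0 ∧ dot v (W a) ≤ 0 ∧ cle s W v = m := by
    intro a ha
    have h2 := hcon a ha
    unfold Dep at h2
    push Not at h2
    obtain ⟨v, hv, hv2⟩ := h2
    obtain ⟨h3, h4⟩ := cle_erase s W v a ha m (hdep v hv) hv2
    exact ⟨v, hv, h3, h4⟩
  choose! v hv0 hvW hvm using h1
  have hne : s.Nonempty := Finset.card_pos.mp (by omega)
  have h0 : (0 : ℂ) ∉ convexHull ℝ (v '' (s : Set ι)) := by
    refine h ι s W m _ ?_ hcard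
    rintro _ ⟨a, ha, rfl⟩
    exact (hvm a ha).le
  have hclosed : IsClosed (convexHull ℝ (v '' (s : Set ι))) :=
    Set.Finite.isClosed_convexHull ℝ (s.finite_toSet.image v)
  obtain ⟨f, u, hf0, hf⟩ := geometric_hahn_banach_point_closed
    (convex_convexHull ℝ (v '' (s : Set ι))) hclosed h0
  rw [map_zero] at hf0
  have hfv : ∀ a ∈ s, 0 < f (v a) := fun a ha =>
    hf0.trans (hf _ (subset_convexHull ℝ _ ⟨a, ha, rfl⟩))
  set y : ℂ := ⟨f 1, f Complex.I⟩ with hy
  have hfd : ∀ z : ℂ, f z = dot y z := by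
    intro z
    have hz : z = z.re • (1 : ℂ) + z.im • Complex.I := by
      apply Complex.ext <;> simp
    conv_lhs => rw [hz]
    rw [map_add, map_smul, map_smul]
    unfold dot
    simp only [hy, smul_eq_mul]
    ring
  have hp : ∀ a ∈ s, 0 < dot y (v a) := fun a ha => by
    rw [← hfd]
    exact hfv a ha
  have hN : 0 < dot y y := by
    apply dot_self_pos
    rintro hy0
    obtain ⟨a, ha⟩ := hne
    have := hp a ha
    rw [hy0, zero_dot] at this
    exact lt_irrefl _ this
  set lam : ι → ℝ := fun a => dot (Complex.I * y) (v a) / dot y (v a) with hlam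
  have hiff : ∀ a ∈ s, ∀ b, dot (v a) (W b) ≤ 0 ↔
      dot y (W b) + lam a * dot (Complex.I * y) (W b) ≤ 0 := by
    intro a ha b
    have hpa := hp a ha
    have h5 : dot y y * dot (v a) (W b) =
        dot y (v a) * (dot y (W b) + lam a * dot (Complex.I * y) (W b)) := by
      rw [key, hlam]
      field_simp
    constructor
    · intro h6
      by_contra h7
      push Not at h7
      have h8 : 0 < dot y (v a) * (dot y (W b) + lam a * dot (Complex.I * y) (W b)) :=
        mul_pos hpa h7
      rw [← h5] at h8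
      nlinarith
    · intro h6
      by_contra h7
      push Not at h7
      have h8 : 0 < dot y y * dot (v a) (W b) := mul_pos hN h7
      rw [h5] at h8
      nlinarith
  obtain ⟨a₁, ha₁, hmin⟩ := Finset.exists_min_image s lam hne
  obtain ⟨a₂, ha₂, hmax⟩ := Finset.exists_max_image s lam hne
  have hsub : s ⊆ s.filter (fun b => dot (v a₁) (W b) ≤ 0) ∪
      s.filter (fun b => dot (v a₂) (W b) ≤ 0) := by
    intro a ha
    rw [Finset.mem_union, Finset.mem_filter, Finset.mem_filter, hiff a₁ ha₁, hiff a₂ ha₂]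
    have h5 := (hiff a ha a).mp (hvW a ha)
    have h6 := hmin a ha
    have h7 := hmax a ha
    rcases le_total 0 (dot (Complex.I * y) (W a)) with h8 | h8
    · left
      refine ⟨ha, ?_⟩
      nlinarith [mul_le_mul_of_nonneg_right h6 h8]
    · right
      refine ⟨ha, ?_⟩
      nlinarith [mul_le_mul_of_nonpos_right h7 h8]
  have h9 := (Finset.card_le_card hsub).trans (Finset.card_union_le _ _)
  have h10 : (s.filter (fun b => dot (v a₁) (W b) ≤ 0)).card = m := hvm a₁ ha₁
  have h11 : (s.filter (fun b => dot (v a₂) (W b) ≤ 0)).card = m := hvm a₂ ha₂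
  omega

end Pool.Agent.Lib.MP_c05127_co
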