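import Pool.Agent.Lib.MP_c05127_co.Spec

set_option linter.all false

/-! Barycentric subdivision of ordered chains. -/

open scoped Classical

namespace Pool.Agent.Lib.MP_c05127_co.Sd

variable {M : ℕ}

/-- the span is mapped into a submodule -/
lemma sp_map {X Y : Type} {R : List X → Prop} (f : Ch X →ₗ[ZMod 3] Ch Y)
    (S : Submodule (ZMod 3) (Ch Y)) (h : ∀ l, R l → f (Finsupp.single l 1) ∈ S) {c : Ch X}
    (hc : c ∈ Sp R) : f c ∈ S := by
  have h1 : Sp R ≤ S.comap f := by
    unfold Sp
    rw [Submodule.span_le]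
    rintro c ⟨l, hl, rfl⟩
    exact h l hl
  exact h1 hc

lemma sp_single {X : Type} {R : List X → Prop} {l : List X} (h : R l) :
    (Finsupp.single l 1 : Ch X) ∈ Sp R :=
  Submodule.subset_span ⟨l, h, rfl⟩

lemma sp_mono {X : Type} {R R' : List X → Prop} (h : ∀ l, R l → R' l) : Sp R ≤ Sp R' := by
  unfold Sp
  apply Submodule.span_mono
  rintro c ⟨l, hl, rfl⟩
  exact ⟨l, h l hl, rfl⟩

/-- the boundary of a list is supported by lists of points of the list, of smaller length -/
lemma bdL_mem {X : Type} (l : List X) :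
    bdL l ∈ Sp (fun l' => l'.length + 1 = l.length ∧ ∀ x ∈ l', x ∈ l) := by
  induction l with
  | nil => exact Submodule.zero_mem _
  | cons x l ih =>
    change Finsupp.single l 1 - cone x (bdL l) ∈ _
    apply Submodule.sub_mem
    · exact sp_single ⟨rfl, fun y hy => List.mem_cons_of_mem _ hy⟩
    · apply sp_map (cone x) _ _ ih
      rintro l' ⟨h1, h2⟩
      rw [cone_single]
      apply sp_single
      refine ⟨by simp only [List.length_cons]; omega, ?_⟩
      intro y hy
      rcases List.mem_cons.1 hy with rfl | hy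
      · exact List.mem_cons_self
      · exact List.mem_cons_of_mem _ (h2 y hy)

/-- the barycentre -/
noncomputable def bary (l : List (Fin M → ℂ)) : Fin M → ℂ := (1 / (l.length : ℝ)) • l.sum

lemma mulOm_sum (l : List (Fin M → ℂ)) : (l.map mulOm).sum = mulOm l.sum := by
  induction l with
  | nil => funext j; simp [mulOm]
  | cons x l ih =>
    rw [List.map_cons, List.sum_cons, List.sum_cons, ih]
    funext j
    simp only [mulOm, Pi.add_apply]
    ring

lemma bary_map (l : List (Fin M → ℂ)) : bary (l.map mulOm) = mulOm (bary l) := by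
  unfold bary
  rw [List.length_map, mulOm_sum]
  funext j
  simp only [mulOm, Pi.smul_apply]
  rw [mul_smul_comm]

/-- subdivision of a list of length `n` -/
noncomputable def SdN : ℕ → List (Fin M → ℂ) → Ch (Fin M → ℂ)
  | 0, _ => Finsupp.single [] 1
  | n + 1, l => cone (bary l) (Finsupp.linearCombination (ZMod 3) (SdN n) (bdL l))

/-- the subdivision -/
noncomputable def sd : Ch (Fin M → ℂ) →ₗ[ZMod 3] Ch (Fin M → ℂ) :=
  Finsupp.linearCombination (ZMod 3) (fun l => SdN l.length l)

lemma sd_nil : sd (Finsupp.single ([] : List (Fin M → ℂ)) 1) = Finsupp.single [] 1 := by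
  unfold sd
  simp [SdN]

lemma sd_agree {n : ℕ} {c : Ch (Fin M → ℂ)} (hc : c ∈ Sp (fun l => l.length = n)) :
    Finsupp.linearCombination (ZMod 3) (SdN n) c = sd c := by
  have h := sp_map (Finsupp.linearCombination (ZMod 3) (SdN n) - sd) ⊥ (by
    intro l hl
    rw [Submodule.mem_bot, LinearMap.sub_apply, sub_eq_zero]
    unfold sd
    simp [hl]) hc
  rw [Submodule.mem_bot, LinearMap.sub_apply, sub_eq_zero] at h
  exact h

lemma sd_cons {l : List (Fin M → ℂ)} (hl : l ≠ []) :
    sd (Finsupp.single l 1) = cone (bary l) (sd (bdL l)) := by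
  obtain ⟨x, t, rfl⟩ := List.exists_cons_of_ne_nil hl
  have h1 : sd (Finsupp.single (x :: t) 1) = SdN (x :: t).length (x :: t) := by
    unfold sd
    simp
  rw [h1, List.length_cons]
  change cone (bary (x :: t)) (Finsupp.linearCombination (ZMod 3) (SdN t.length) (bdL (x :: t))) = _
  rw [sd_agree]
  apply sp_mono _ (bdL_mem (x :: t))
  rintro l ⟨h2, -⟩
  rw [List.length_cons] at h2
  omega

lemma bd_sd_aux (n : ℕ) : ∀ c ∈ Sp (fun l : List (Fin M → ℂ) => l.length = n),
    bd (sd c) = sd (bd c) := by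
  induction n with
  | zero =>
    intro c hc
    have h := sp_map (bd ∘ₗ sd - sd ∘ₗ bd) ⊥ (by
      intro l hl
      rw [List.length_eq_zero_iff] at hl
      subst hl
      rw [Submodule.mem_bot, LinearMap.sub_apply, sub_eq_zero, LinearMap.comp_apply,
        LinearMap.comp_apply, sd_nil, bd_nil, map_zero]) hc
    rw [Submodule.mem_bot, LinearMap.sub_apply, sub_eq_zero] at h
    exact h
  | succ n ih =>
    intro c hc
    have h := sp_map (bd ∘ₗ sd - sd ∘ₗ bd) ⊥ (by
      intro l hl
      have hne : l ≠ [] := by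
        rintro rfl
        simp at hl
      rw [Submodule.mem_bot, LinearMap.sub_apply, sub_eq_zero, LinearMap.comp_apply,
        LinearMap.comp_apply, sd_cons hne, bd_cone, bd_single]
      have h1 : bd (sd (bdL l)) = sd (bd (bdL l)) := by
        apply ih
        apply sp_mono _ (bdL_mem l)
        rintro l' ⟨h2, -⟩
        omega
      rw [h1, bdL_bd, map_zero, map_zero, sub_zero]) hc
    rw [Submodule.mem_bot, LinearMap.sub_apply, sub_eq_zero] at h
    exact h

lemma bd_sd (c : Ch (Fin M → ℂ)) : bd (sd c) = sd (bd c) := by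
  have h : (bd ∘ₗ sd : Ch (Fin M → ℂ) →ₗ[ZMod 3] _) = sd ∘ₗ bd := by
    apply Finsupp.lhom_ext'
    intro l
    apply LinearMap.ext_ring
    simp only [LinearMap.comp_apply, Finsupp.lsingle_apply]
    exact bd_sd_aux l.length _ (sp_single rfl)
  exact LinearMap.congr_fun h c

lemma act_sd_aux (n : ℕ) : ∀ c ∈ Sp (fun l : List (Fin M → ℂ) => l.length = n),
    sd (act mulOm c) = act mulOm (sd c) := by
  induction n with
  | zero =>
    intro c hc
    have h := sp_map (sd ∘ₗ act mulOm - act mulOm ∘ₗ sd) ⊥ (by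
      intro l hl
      rw [List.length_eq_zero_iff] at hl
      subst hl
      rw [Submodule.mem_bot, LinearMap.sub_apply, sub_eq_zero, LinearMap.comp_apply,
        LinearMap.comp_apply, act_single, List.map_nil, sd_nil, act_single, List.map_nil]) hc
    rw [Submodule.mem_bot, LinearMap.sub_apply, sub_eq_zero] at h
    exact h
  | succ n ih =>
    intro c hc
    have h := sp_map (sd ∘ₗ act mulOm - act mulOm ∘ₗ sd) ⊥ (by
      intro l hl
      have hne : l ≠ [] := by
        rintro rfl
        simp at hl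
      have hne' : l.map mulOm ≠ [] := by simpa using hne
      rw [Submodule.mem_bot, LinearMap.sub_apply, sub_eq_zero, LinearMap.comp_apply,
        LinearMap.comp_apply, act_single, sd_cons hne', sd_cons hne, act_cone, bary_map, bdL_map]
      congr 1
      apply ih
      apply sp_mono _ (bdL_mem l)
      rintro l' ⟨h2, -⟩
      omega) hc
    rw [Submodule.mem_bot, LinearMap.sub_apply, sub_eq_zero] at h
    exact h

lemma act_sd (c : Ch (Fin M → ℂ)) : sd (act mulOm c) = act mulOm (sd c) := by
  have h : (sd ∘ₗ act mulOm : Ch (Fin M → ℂ) →ₗ[ZMod 3] _) = act mulOm ∘ₗ sd := by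
    apply Finsupp.lhom_ext'
    intro l
    apply LinearMap.ext_ring
    simp only [LinearMap.comp_apply, Finsupp.lsingle_apply]
    exact act_sd_aux l.length _ (sp_single rfl)
  exact LinearMap.congr_fun h c

/-! ### mesh -/

lemma bary_eq (l : List (Fin M → ℂ)) :
    bary l = ∑ i : Fin l.length, (1 / (l.length : ℝ)) • l[i] := by
  unfold bary
  rw [← Finset.smul_sum]
  congr 1
  exact (Fin.sum_univ_getElem l).symm

lemma bary_mem {l : List (Fin M → ℂ)} (hl : l ≠ []) : bary l ∈ convexHull ℝ {y | y ∈ l} := by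
  have hk : (0 : ℝ) < l.length := by
    exact_mod_cast List.length_pos_iff.2 hl
  rw [bary_eq]
  apply (convex_convexHull ℝ {y | y ∈ l}).sum_mem
  · intro i _
    positivity
  · rw [Finset.sum_const, Finset.card_univ, Fintype.card_fin, nsmul_eq_mul]
    field_simp
  · intro i _
    exact subset_convexHull ℝ _ (List.getElem_mem _)

lemma dist_bary {l : List (Fin M → ℂ)} {D : ℝ} (hD : ∀ x ∈ l, ∀ y ∈ l, dist x y ≤ D)
    {x : Fin M → ℂ} (hx : x ∈ l) : dist (bary l) x ≤ (1 - 1 / (l.length : ℝ)) * D := by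
  obtain ⟨n, hn, hxn⟩ := List.mem_iff_getElem.1 hx
  set j₀ : Fin l.length := ⟨n, hn⟩ with hj₀
  have hk : (0 : ℝ) < l.length := by
    exact_mod_cast (by omega : 0 < l.length)
  have h1 : bary l - x = ∑ i : Fin l.length, (1 / (l.length : ℝ)) • (l[i] - x) := by
    simp only [smul_sub]
    rw [Finset.sum_sub_distrib, ← bary_eq, Finset.sum_const, Finset.card_univ, Fintype.card_fin]
    congr 1
    rw [← Nat.cast_smul_eq_nsmul ℝ, smul_smul, mul_one_div_cancel hk.ne', one_smul]
  rw [dist_eq_norm, h1]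
  have h2 : l[j₀] - x = 0 := by
    rw [sub_eq_zero]
    exact hxn
  rw [← Finset.add_sum_erase Finset.univ _ (Finset.mem_univ j₀), h2, smul_zero, zero_add]
  calc ‖∑ i ∈ Finset.univ.erase j₀, (1 / (l.length : ℝ)) • (l[i] - x)‖
      ≤ ∑ i ∈ Finset.univ.erase j₀, ‖(1 / (l.length : ℝ)) • (l[i] - x)‖ := norm_sum_le _ _
    _ ≤ ∑ _i ∈ Finset.univ.erase j₀, 1 / (l.length : ℝ) * D := by
        apply Finset.sum_le_sum
        intro i _
        rw [norm_smul, Real.norm_eq_abs, abs_of_nonneg (by positivity)]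
        apply mul_le_mul_of_nonneg_left _ (by positivity)
        rw [← dist_eq_norm]
        exact hD _ (List.getElem_mem _) _ hx
    _ = (1 - 1 / (l.length : ℝ)) * D := by
        rw [Finset.sum_const, Finset.card_erase_of_mem (Finset.mem_univ _), Finset.card_univ,
          Fintype.card_fin, nsmul_eq_mul, Nat.cast_sub (by omega)]
        field_simp
        push_cast
        ring

lemma dist_bary_hull {l : List (Fin M → ℂ)} {D : ℝ} (hD : ∀ x ∈ l, ∀ y ∈ l, dist x y ≤ D)
    {y : Fin M → ℂ} (hy : y ∈ convexHull ℝ {y | y ∈ l}) :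
    dist (bary l) y ≤ (1 - 1 / (l.length : ℝ)) * D := by
  have h : convexHull ℝ {y | y ∈ l} ⊆
      Metric.closedBall (bary l) ((1 - 1 / (l.length : ℝ)) * D) := by
    apply convexHull_min _ (convex_closedBall _ _)
    intro x hx
    rw [Metric.mem_closedBall, dist_comm]
    exact dist_bary hD hx
  have := h hy
  rwa [Metric.mem_closedBall, dist_comm] at this

lemma mesh (k : ℕ) : ∀ (l : List (Fin M → ℂ)) (D : ℝ), 0 ≤ D → l.length = k →
    (∀ x ∈ l, ∀ y ∈ l, dist x y ≤ D) →
    sd (Finsupp.single l 1) ∈ Sp (fun l' => l'.length = k ∧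
      (∀ x ∈ l', x ∈ convexHull ℝ {y | y ∈ l}) ∧
      ∀ x ∈ l', ∀ y ∈ l', dist x y ≤ (1 - 1 / (k : ℝ)) * D) := by
  induction k with
  | zero =>
    intro l D _ hl _
    rw [List.length_eq_zero_iff] at hl
    subst hl
    rw [sd_nil]
    exact sp_single ⟨rfl, by simp, by simp⟩
  | succ k ih =>
    intro l D hD0 hl hD
    have hne : l ≠ [] := by
      rintro rfl
      simp at hl
    rw [sd_cons hne]
    have h1 : sd (bdL l) ∈ Sp (fun l' => l'.length = k ∧
        (∀ x ∈ l', x ∈ convexHull ℝ {y | y ∈ l}) ∧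
        ∀ x ∈ l', ∀ y ∈ l', dist x y ≤ (1 - 1 / ((k + 1 : ℕ) : ℝ)) * D) := by
      apply sp_map sd _ _ (bdL_mem l)
      rintro l' ⟨h2, h3⟩
      apply sp_mono _ (ih l' D hD0 (by omega) fun x hx y hy => hD x (h3 x hx) y (h3 y hy))
      rintro l'' ⟨h4, h5, h6⟩
      refine ⟨h4, fun x hx => convexHull_mono (fun y hy => h3 y hy) (h5 x hx), ?_⟩
      intro x hx y hy
      have hk : 0 < k := by
        rw [← h4]
        exact List.length_pos_of_mem hx
      refine (h6 x hx y hy).trans ?_
      apply mul_le_mul_of_nonneg_right _ hD0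
      have hkR : (0 : ℝ) < k := by exact_mod_cast hk
      have : 1 / ((k + 1 : ℕ) : ℝ) ≤ 1 / (k : ℝ) := by
        apply one_div_le_one_div_of_le hkR
        push_cast
        linarith
      linarith
    apply sp_map (cone (bary l)) _ _ h1
    rintro l' ⟨h2, h3, h4⟩
    rw [cone_single]
    apply sp_single
    have h5 : ∀ y ∈ l', dist (bary l) y ≤ (1 - 1 / ((k + 1 : ℕ) : ℝ)) * D := by
      intro y hy
      have := dist_bary_hull hD (h3 y hy)
      rwa [hl] at this
    refine ⟨by rw [List.length_cons, h2], ?_, ?_⟩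
    · intro x hx
      rcases List.mem_cons.1 hx with rfl | hx
      · exact bary_mem hne
      · exact h3 x hx
    · intro x hx y hy
      rcases List.mem_cons.1 hx with rfl | hx
      · rcases List.mem_cons.1 hy with rfl | hy
        · have := dist_bary_hull hD (bary_mem hne)
          rwa [hl] at this
        · exact h5 y hy
      · rcases List.mem_cons.1 hy with rfl | hy
        · rw [dist_comm]
          exact h5 x hx
        · exact h4 x hx y hy

lemma convex_cell (s : Fin M → ℕ) : Convex ℝ (Cell s) := by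
  rintro x ⟨t, ht0, ht1, htx⟩ y ⟨u, hu0, hu1, huy⟩ a b ha hb hab
  refine ⟨fun j => a * t j + b * u j, fun j => ?_, ?_, fun j => ?_⟩
  · have := ht0 j
    have := hu0 j
    positivity
  · rw [Finset.sum_add_distrib, ← Finset.mul_sum, ← Finset.mul_sum, ht1, hu1]
    linarith
  · rw [Pi.add_apply, Pi.smul_apply, Pi.smul_apply, htx, huy, Complex.real_smul,
      Complex.real_smul]
    push_cast
    ring

end Pool.Agent.Lib.MP_c05127_co.Sd

namespace Pool.Agent.Lib.MP_c05127_co

open Sd

theorem sdStmt : SdStmt := by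
  intro M
  refine ⟨sd, bd_sd, act_sd, sd_nil, ?_⟩
  intro K k δ hk hkK hδ c hc
  apply sp_map sd _ _ hc
  rintro l ⟨h1, ⟨s, hs⟩, h2⟩
  apply sp_mono _ (mesh k l δ hδ h1 h2)
  rintro l' ⟨h3, h4, h5⟩
  refine ⟨h3, ⟨s, fun x hx => ?_⟩, fun x hx y hy => (h5 x hx y hy).trans ?_⟩
  · exact convexHull_min (fun y hy => hs y hy) (convex_cell s) (h4 x hx)
  · apply mul_le_mul_of_nonneg_right _ hδ
    have hkR : (0 : ℝ) < k := by exact_mod_cast hk
    have : 1 / (K : ℝ) ≤ 1 / (k : ℝ) := by
      apply one_div_le_one_div_of_le hkR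
      exact_mod_cast hkK
    linarith

end Pool.Agent.Lib.MP_c05127_co
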