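import Pool.Agent.Lib.MP_c05127_co.Spec

set_option linter.all false

/-! MP_c05127_co, module Sec: sector labels of `ℂ^n \ 0`. -/

open scoped Classical

namespace Pool.Agent.Lib.MP_c05127_co
namespace Sec

noncomputable def fa (z : ℂ) : ℝ := Real.sqrt 3 * z.re - z.im
noncomputable def fb (z : ℂ) : ℝ := Real.sqrt 3 * z.re + z.im

lemma s3 : Real.sqrt 3 * Real.sqrt 3 = 3 := Real.mul_self_sqrt (by norm_num)

lemma fa_om (z : ℂ) : fa (om * z) = -fb z := by
  unfold fa fb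
  rw [Complex.mul_re, Complex.mul_im, om_re, om_im]
  linear_combination (-(1 / 2) * z.im) * s3

lemma fb_om (z : ℂ) : fb (om * z) = fa z - fb z := by
  unfold fa fb
  rw [Complex.mul_re, Complex.mul_im, om_re, om_im]
  linear_combination (-(1 / 2) * z.im) * s3

lemma fa_sub (z w : ℂ) : fa (z - w) = fa z - fa w := by
  unfold fa; simp; ring

lemma fb_sub (z w : ℂ) : fb (z - w) = fb z - fb w := by
  unfold fb; simp; ring

lemma nsq (z : ℂ) : 3 * ‖z‖ ^ 2 = fa z ^ 2 - fa z * fb z + fb z ^ 2 := by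
  rw [← Complex.normSq_eq_norm_sq, Complex.normSq_apply]
  unfold fa fb
  linear_combination (-(z.re * z.re)) * s3

noncomputable def secr (a b : ℝ) : ZMod 3 × Fin 2 :=
  if 0 < a ∧ a ≤ b then (0, 0) else if a ≤ 0 ∧ 0 < b then (0, 1) else
  if a < b ∧ b ≤ 0 then (1, 0) else if b ≤ a ∧ a < 0 then (1, 1) else
  if b < 0 ∧ 0 ≤ a then (2, 0) else (2, 1)

lemma secr0 {a b : ℝ} (h : 0 < a) (h' : a ≤ b) : secr a b = (0, 0) := by
  unfold secr; rw [if_pos ⟨h, h'⟩]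

lemma secr1 {a b : ℝ} (h : a ≤ 0) (h' : 0 < b) : secr a b = (0, 1) := by
  unfold secr
  rw [if_neg (by rintro ⟨h1, h2⟩; linarith), if_pos ⟨h, h'⟩]

lemma secr2 {a b : ℝ} (h : a < b) (h' : b ≤ 0) : secr a b = (1, 0) := by
  unfold secr
  rw [if_neg (by rintro ⟨h1, h2⟩; linarith), if_neg (by rintro ⟨h1, h2⟩; linarith),
    if_pos ⟨h, h'⟩]

lemma secr3 {a b : ℝ} (h : b ≤ a) (h' : a < 0) : secr a b = (1, 1) := by
  unfold secr
  rw [if_neg (by rintro ⟨h1, h2⟩; linarith), if_neg (by rintro ⟨h1, h2⟩; linarith),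
    if_neg (by rintro ⟨h1, h2⟩; linarith), if_pos ⟨h, h'⟩]

lemma secr4 {a b : ℝ} (h : b < 0) (h' : 0 ≤ a) : secr a b = (2, 0) := by
  unfold secr
  rw [if_neg (by rintro ⟨h1, h2⟩; linarith), if_neg (by rintro ⟨h1, h2⟩; linarith),
    if_neg (by rintro ⟨h1, h2⟩; linarith), if_neg (by rintro ⟨h1, h2⟩; linarith),
    if_pos ⟨h, h'⟩]

lemma secr5 {a b : ℝ} (h : 0 ≤ b) (h' : b < a) : secr a b = (2, 1) := by
  unfold secr
  rw [if_neg (by rintro ⟨h1, h2⟩; linarith), if_neg (by rintro ⟨h1, h2⟩; linarith),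
    if_neg (by rintro ⟨h1, h2⟩; linarith), if_neg (by rintro ⟨h1, h2⟩; linarith),
    if_neg (by rintro ⟨h1, h2⟩; linarith)]

lemma arcs {a b : ℝ} (h : ¬(a = 0 ∧ b = 0)) :
    (0 < a ∧ a ≤ b) ∨ (a ≤ 0 ∧ 0 < b) ∨ (a < b ∧ b ≤ 0) ∨ (b ≤ a ∧ a < 0) ∨
      (b < 0 ∧ 0 ≤ a) ∨ (0 ≤ b ∧ b < a) := by
  by_contra hc
  push Not at hc
  obtain ⟨h0, h1, h2, h3, h4, h5⟩ := hc
  rcases lt_trichotomy a 0 with ha | ha | ha
  · rcases lt_or_ge 0 b with hb | hb
    · exact absurd (h1 ha.le) (not_le.2 hb)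
    · rcases lt_or_ge a b with hab | hab
      · exact absurd (h2 hab) (not_lt.2 hb)
      · exact absurd (h3 hab) (not_le.2 ha)
  · rcases lt_trichotomy b 0 with hb | hb | hb
    · exact absurd (h4 hb) (not_lt.2 ha.ge)
    · exact h ⟨ha, hb⟩
    · exact absurd (h1 ha.le) (not_le.2 hb)
  · rcases lt_or_ge b 0 with hb | hb
    · exact absurd (h4 hb) (not_lt.2 ha.le)
    · rcases lt_or_ge b a with hab | hab
      · exact absurd (h5 hb) (not_le.2 hab)
      · exact absurd (h0 ha) (not_lt.2 hab)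

lemma secr_rot {a b : ℝ} (h : ¬(a = 0 ∧ b = 0)) :
    secr (-b) (a - b) = ((secr a b).1 + 1, (secr a b).2) := by
  rcases arcs h with ⟨h1, h2⟩ | ⟨h1, h2⟩ | ⟨h1, h2⟩ | ⟨h1, h2⟩ | ⟨h1, h2⟩ | ⟨h1, h2⟩
  · rw [secr0 h1 h2, secr2 (by linarith) (by linarith)]; rfl
  · rw [secr1 h1 h2, secr3 (by linarith) (by linarith)]; rfl
  · rw [secr2 h1 h2, secr4 (by linarith) (by linarith)]; rfl
  · rw [secr3 h1 h2, secr5 (by linarith) (by linarith)]; rfl
  · rw [secr4 h1 h2, secr0 (by linarith) (by linarith)]; rfl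
  · rw [secr5 h1 h2, secr1 (by linarith) (by linarith)]; rfl

lemma form1 (x y : ℝ) : 3 * y ^ 2 ≤ 4 * (x ^ 2 - x * y + y ^ 2) := by
  nlinarith [sq_nonneg (2 * x - y)]
lemma form2 (x y : ℝ) : 3 * x ^ 2 ≤ 4 * (x ^ 2 - x * y + y ^ 2) := by
  nlinarith [sq_nonneg (2 * y - x)]
lemma form3 (x y : ℝ) : 3 * (x - y) ^ 2 ≤ 4 * (x ^ 2 - x * y + y ^ 2) := by
  nlinarith [sq_nonneg (x + y)]

/-- points of different arcs of the same type are far apart -/
lemma far {a b a' b' : ℝ} (h : ¬(a = 0 ∧ b = 0)) (h' : ¬(a' = 0 ∧ b' = 0))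
    (h2 : (secr a b).2 = (secr a' b').2) (h1 : (secr a b).1 ≠ (secr a' b').1) :
    3 * (a ^ 2 - a * b + b ^ 2) ≤
      4 * ((a - a') ^ 2 - (a - a') * (b - b') + (b - b') ^ 2) := by
  have f1 := form1 (a - a') (b - b')
  have f2 := form2 (a - a') (b - b')
  have f3 := form3 (a - a') (b - b')
  rcases arcs h with ⟨k1, k2⟩ | ⟨k1, k2⟩ | ⟨k1, k2⟩ | ⟨k1, k2⟩ | ⟨k1, k2⟩ | ⟨k1, k2⟩
  · rw [secr0 k1 k2] at h1 h2
    have : b' ≤ 0 := by
      rcases arcs h' with ⟨l1, l2⟩ | ⟨l1, l2⟩ | ⟨l1, l2⟩ | ⟨l1, l2⟩ | ⟨l1, l2⟩ | ⟨l1, l2⟩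
      · rw [secr0 l1 l2] at h1; exact absurd rfl h1
      · rw [secr1 l1 l2] at h2; exact absurd h2 (by decide)
      · exact l2
      · rw [secr3 l1 l2] at h2; exact absurd h2 (by decide)
      · exact l1.le
      · rw [secr5 l1 l2] at h2; exact absurd h2 (by decide)
    nlinarith [mul_nonneg k1.le (sub_nonneg.2 k2), mul_nonneg (le_trans k1.le k2) (neg_nonneg.2 this),
      sq_nonneg b']
  · rw [secr1 k1 k2] at h1 h2
    have : b' ≤ a' := by
      rcases arcs h' with ⟨l1, l2⟩ | ⟨l1, l2⟩ | ⟨l1, l2⟩ | ⟨l1, l2⟩ | ⟨l1, l2⟩ | ⟨l1, l2⟩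
      · rw [secr0 l1 l2] at h2; exact absurd h2 (by decide)
      · rw [secr1 l1 l2] at h1; exact absurd rfl h1
      · rw [secr2 l1 l2] at h2; exact absurd h2 (by decide)
      · exact l1
      · rw [secr4 l1 l2] at h2; exact absurd h2 (by decide)
      · exact l2.le
    nlinarith [mul_nonneg (neg_nonneg.2 k1) k2.le,
      mul_nonneg (show 0 ≤ b - a by linarith) (sub_nonneg.2 this), sq_nonneg (a' - b')]
  · rw [secr2 k1 k2] at h1 h2
    have : 0 ≤ a' := by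
      rcases arcs h' with ⟨l1, l2⟩ | ⟨l1, l2⟩ | ⟨l1, l2⟩ | ⟨l1, l2⟩ | ⟨l1, l2⟩ | ⟨l1, l2⟩
      · exact l1.le
      · rw [secr1 l1 l2] at h2; exact absurd h2 (by decide)
      · rw [secr2 l1 l2] at h1; exact absurd rfl h1
      · rw [secr3 l1 l2] at h2; exact absurd h2 (by decide)
      · exact l2
      · rw [secr5 l1 l2] at h2; exact absurd h2 (by decide)
    nlinarith [mul_nonneg (neg_nonneg.2 k2) (sub_nonneg.2 k1.le),
      mul_nonneg (show 0 ≤ -a by linarith) this, sq_nonneg a']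
  · rw [secr3 k1 k2] at h1 h2
    have : 0 ≤ b' := by
      rcases arcs h' with ⟨l1, l2⟩ | ⟨l1, l2⟩ | ⟨l1, l2⟩ | ⟨l1, l2⟩ | ⟨l1, l2⟩ | ⟨l1, l2⟩
      · rw [secr0 l1 l2] at h2; exact absurd h2 (by decide)
      · exact l2.le
      · rw [secr2 l1 l2] at h2; exact absurd h2 (by decide)
      · rw [secr3 l1 l2] at h1; exact absurd rfl h1
      · rw [secr4 l1 l2] at h2; exact absurd h2 (by decide)
      · exact l1
    nlinarith [mul_nonneg (neg_nonneg.2 k2.le) (sub_nonneg.2 k1),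
      mul_nonneg (show 0 ≤ -b by linarith) this, sq_nonneg b']
  · rw [secr4 k1 k2] at h1 h2
    have : a' ≤ b' := by
      rcases arcs h' with ⟨l1, l2⟩ | ⟨l1, l2⟩ | ⟨l1, l2⟩ | ⟨l1, l2⟩ | ⟨l1, l2⟩ | ⟨l1, l2⟩
      · exact l2
      · rw [secr1 l1 l2] at h2; exact absurd h2 (by decide)
      · exact l1.le
      · rw [secr3 l1 l2] at h2; exact absurd h2 (by decide)
      · rw [secr4 l1 l2] at h1; exact absurd rfl h1
      · rw [secr5 l1 l2] at h2; exact absurd h2 (by decide)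
    nlinarith [mul_nonneg (neg_nonneg.2 k1.le) k2,
      mul_nonneg (show 0 ≤ a - b by linarith) (sub_nonneg.2 this), sq_nonneg (a' - b')]
  · rw [secr5 k1 k2] at h1 h2
    have : a' ≤ 0 := by
      rcases arcs h' with ⟨l1, l2⟩ | ⟨l1, l2⟩ | ⟨l1, l2⟩ | ⟨l1, l2⟩ | ⟨l1, l2⟩ | ⟨l1, l2⟩
      · rw [secr0 l1 l2] at h2; exact absurd h2 (by decide)
      · exact l1
      · rw [secr2 l1 l2] at h2; exact absurd h2 (by decide)
      · exact l2.le
      · rw [secr4 l1 l2] at h2; exact absurd h2 (by decide)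
      · rw [secr5 l1 l2] at h1; exact absurd rfl h1
    nlinarith [mul_nonneg k1 (sub_nonneg.2 k2.le),
      mul_nonneg (show 0 ≤ a by linarith) (neg_nonneg.2 this), sq_nonneg a']

noncomputable def sect (z : ℂ) : ZMod 3 × Fin 2 := secr (fa z) (fb z)

lemma ne_of {z : ℂ} (hz : z ≠ 0) : ¬(fa z = 0 ∧ fb z = 0) := by
  rintro ⟨h1, h2⟩
  have h := nsq z
  rw [h1, h2] at h
  have : 0 < ‖z‖ := norm_pos_iff.2 hz
  nlinarith

lemma sect_om {z : ℂ} (hz : z ≠ 0) : sect (om * z) = ((sect z).1 + 1, (sect z).2) := by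
  unfold sect
  rw [fa_om, fb_om]
  exact secr_rot (ne_of hz)

lemma sect_far {z w : ℂ} (hz : z ≠ 0) (hw : w ≠ 0) (h2 : (sect z).2 = (sect w).2)
    (h1 : (sect z).1 ≠ (sect w).1) : ‖z‖ / 2 ≤ ‖z - w‖ := by
  have h := far (ne_of hz) (ne_of hw) h2 h1
  rw [← fa_sub, ← fb_sub, ← nsq, ← nsq] at h
  by_contra hc
  rw [not_le] at hc
  nlinarith [norm_nonneg (z - w), norm_pos_iff.2 hz]

/-- a place of the maximum -/
noncomputable def mx {n : ℕ} (hn : 0 < n) (f : Fin n → ℝ) : Fin n :=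
  haveI : Nonempty (Fin n) := ⟨⟨0, hn⟩⟩
  Classical.choose (Finite.exists_max f)

lemma mx_spec {n : ℕ} (hn : 0 < n) (f : Fin n → ℝ) (i : Fin n) : f i ≤ f (mx hn f) := by
  haveI : Nonempty (Fin n) := ⟨⟨0, hn⟩⟩
  exact Classical.choose_spec (Finite.exists_max f) i

lemma norm_mx {n : ℕ} (hn : 0 < n) (y : Fin n → ℂ) :
    ‖y‖ = ‖y (mx hn (fun j => ‖y j‖))‖ := by
  apply le_antisymm
  · rw [pi_norm_le_iff_of_nonneg (norm_nonneg _)]
    intro i
    exact mx_spec hn (fun j => ‖y j‖) i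
  · exact norm_le_pi_norm y _

noncomputable def lab {n : ℕ} (hn : 0 < n) (e : Fin n → ℕ) (y : Fin n → ℂ) :
    ZMod 3 × Fin (2 * n) :=
  let j := mx hn (fun j => ‖y j‖)
  (if e j = 1 then (sect (y j)).1 else -(sect (y j)).1,
    ⟨2 * (j : ℕ) + ((sect (y j)).2 : ℕ), by
      have := j.2
      have := (sect (y j)).2.2
      omega⟩)

lemma lab_fst {n : ℕ} (hn : 0 < n) (e : Fin n → ℕ) (y : Fin n → ℂ) (j : Fin n)
    (hj : mx hn (fun j => ‖y j‖) = j) :
    (lab hn e y).1 = if e j = 1 then (sect (y j)).1 else -(sect (y j)).1 := by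
  subst hj; rfl

lemma lab_snd {n : ℕ} (hn : 0 < n) (e : Fin n → ℕ) (y : Fin n → ℂ) (j : Fin n)
    (hj : mx hn (fun j => ‖y j‖) = j) :
    ((lab hn e y).2 : ℕ) = 2 * (j : ℕ) + ((sect (y j)).2 : ℕ) := by
  subst hj; rfl

end Sec

open Sec in
theorem secStmt : SecStmt := by
  intro n e hn he
  refine ⟨lab hn e, ?_, ?_⟩
  · intro y hy
    have hnorm : (fun j => ‖om ^ e j * y j‖) = fun j => ‖y j‖ := by
      funext j
      rw [norm_mul, norm_pow, norm_om, one_pow, one_mul]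
    set j := mx hn (fun j => ‖y j‖) with hj
    have hj' : mx hn (fun j => ‖(fun j => om ^ e j * y j) j‖) = j := by
      rw [hj]
      exact congrArg (mx hn) hnorm
    have hyj : y j ≠ 0 := by
      rw [← norm_pos_iff, hj, ← norm_mx hn y, norm_pos_iff]
      exact hy
    have hyj' : om * y j ≠ 0 := mul_ne_zero om_ne hyj
    apply Prod.ext
    · rw [lab_fst hn e _ j hj']
      simp only [lab_fst hn e y j hj.symm]
      rcases he j with h | h
      · rw [if_pos h, if_pos h, h, pow_one, sect_om hyj]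
      · rw [if_neg (by omega), if_neg (by omega), h, pow_two, mul_assoc, sect_om hyj', sect_om hyj]
        simp only
        have key : ∀ s : ZMod 3, -(s + 1 + 1) = -s + 1 := by decide
        exact key _
    · apply Fin.ext
      simp only [lab_snd hn e _ j hj', lab_snd hn e y j hj.symm]
      rcases he j with h | h
      · rw [h, pow_one, sect_om hyj]
      · rw [h, pow_two, mul_assoc, sect_om hyj', sect_om hyj]
  · intro ε hε y y' hy hy' hd h2
    set j := mx hn (fun j => ‖y j‖) with hj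
    set j' := mx hn (fun j => ‖y' j‖) with hj'
    have e1 := lab_snd hn e y j hj.symm
    have e2 := lab_snd hn e y' j' hj'.symm
    rw [h2] at e1
    have b1 := (sect (y j)).2.2
    have b2 := (sect (y' j')).2.2
    have hjj : j = j' := by
      apply Fin.ext
      omega
    have ht : (sect (y j)).2 = (sect (y' j')).2 := by
      apply Fin.ext
      rw [hjj] at e1 ⊢
      rw [hjj] at b1
      omega
    have n1 : ε ≤ ‖y j‖ := by rw [hj, ← norm_mx hn y]; exact hy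
    have n2 : ε ≤ ‖y' j'‖ := by rw [hj', ← norm_mx hn y']; exact hy'
    rw [lab_fst hn e y j hj.symm, lab_fst hn e y' j' hj'.symm]
    rw [← hjj] at ht n2 ⊢
    have hs : (sect (y j)).1 = (sect (y' j)).1 := by
      by_contra hc
      have h3 := sect_far (norm_pos_iff.1 (lt_of_lt_of_le hε n1))
        (norm_pos_iff.1 (lt_of_lt_of_le hε n2)) ht hc
      have h4 : ‖y j - y' j‖ ≤ ‖y - y'‖ := norm_le_pi_norm (y - y') j
      linarith
    rw [hs]

end Pool.Agent.Lib.MP_c05127_co
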