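import Pool.Agent.Lib.MP_c05127_co.Spec

set_option linter.all false

open scoped Classical

namespace Pool.Agent.Lib.MP_c05127_co

namespace Small

lemma Sp_mono {X : Type} {R R' : List X → Prop} (h : ∀ l, R l → R' l) : Sp R ≤ Sp R' :=
  Submodule.span_mono (fun _ ⟨l, hl, e⟩ => ⟨l, h l hl, e⟩)

lemma Good_mono {M : ℕ} {δ δ' : ℝ} (h : δ ≤ δ') {k : ℕ} {l : List (Fin M → ℂ)}
    (hl : Good δ k l) : Good δ' k l :=
  ⟨hl.1, hl.2.1, fun x hx y hy => (hl.2.2 x hx y hy).trans h⟩

lemma theta_comm {M : ℕ} (Sd : Ch (Fin M → ℂ) →ₗ[ZMod 3] Ch (Fin M → ℂ))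
    (h : ∀ c, Sd (act mulOm c) = act mulOm (Sd c)) (k : ℕ) (c : Ch (Fin M → ℂ)) :
    Sd (theta (act mulOm) k c) = theta (act mulOm) k (Sd c) := by
  by_cases hk : Even k
  · rw [theta_even _ hk, theta_even _ hk, map_sub, h]
  · rw [theta_odd _ hk, theta_odd _ hk, map_add, map_add, h, h, h]

end Small

theorem smallStmt (h1 : SdStmt) (h2 : BaseStmt) : SmallStmt := by
  intro M δ hδ
  obtain ⟨φ, hφ1, hφ2, hφ3⟩ := h2 M
  obtain ⟨Sd, hb, ha, hn, hm⟩ := h1 M
  rcases Nat.eq_zero_or_pos M with hM | hM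
  · exact ⟨fun _ => 0, fun k hk => absurd hk (by omega), fun h => absurd h (by omega),
      fun k hk => absurd hk (by omega)⟩
  have hMR : (1 : ℝ) ≤ M := by exact_mod_cast hM
  set q : ℝ := 1 - 1 / (M : ℝ) with hq
  have hq0 : 0 ≤ q := by
    have : 1 / (M : ℝ) ≤ 1 := by
      rw [div_le_one (by linarith)]; exact hMR
    linarith
  have hq1 : q < 1 := by
    have : 0 < 1 / (M : ℝ) := by positivity
    linarith
  obtain ⟨n, hn1⟩ := exists_pow_lt_of_lt_one (show (0 : ℝ) < δ / 2 by linarith) hq1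
  have key : ∀ n : ℕ, ∀ k < M, (Sd^[n]) (φ k) ∈ Sp (Good (q ^ n * 2) (k + 1)) := by
    intro n
    induction n with
    | zero =>
      intro k hk
      rw [pow_zero, one_mul]
      exact hφ1 k hk
    | succ n ih =>
      intro k hk
      rw [Function.iterate_succ_apply', pow_succ]
      have := hm M (k + 1) (q ^ n * 2) (by omega) (by omega) (by positivity) _ (ih k hk)
      rw [show q ^ n * q * 2 = (1 - 1 / (M : ℝ)) * (q ^ n * 2) by rw [← hq]; ring]
      exact this
  have hbn : ∀ n : ℕ, ∀ c, bd ((Sd^[n]) c) = (Sd^[n]) (bd c) := by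
    intro n
    induction n with
    | zero => intro c; rfl
    | succ n ih =>
      intro c
      rw [Function.iterate_succ_apply', Function.iterate_succ_apply', hb, ih]
  have hnn : ∀ n : ℕ, (Sd^[n]) (Finsupp.single [] 1) = Finsupp.single [] 1 := by
    intro n
    induction n with
    | zero => rfl
    | succ n ih => rw [Function.iterate_succ_apply', ih, hn]
  have htn : ∀ n k : ℕ, ∀ c, (Sd^[n]) (theta (act mulOm) k c) =
      theta (act mulOm) k ((Sd^[n]) c) := by
    intro n
    induction n with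
    | zero => intro k c; rfl
    | succ n ih =>
      intro k c
      rw [Function.iterate_succ_apply', Function.iterate_succ_apply', ih, Small.theta_comm Sd ha]
  refine ⟨fun k => (Sd^[n]) (φ k), ?_, ?_, ?_⟩
  · intro k hk
    refine Small.Sp_mono (fun l hl => Small.Good_mono ?_ hl) (key n k hk)
    linarith
  · intro _
    beta_reduce
    rw [hbn, hφ2 hM, hnn]
  · intro k hk
    beta_reduce
    rw [hbn, hφ3 k hk, htn]

end Pool.Agent.Lib.MP_c05127_co
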