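import Pool.Agent.Lib.MP_c05127_co.Basic

set_option linter.all false

/-!
Statements of the modules as Props; proofs in the docstrings (and PROOF text in team-store
MP_c05127_PROOF.md). All files proving them are independent: modules listed after Uses are taken as
hypotheses. `open scoped Classical` is needed in every file (finset filters use it).
-/

open scoped Classical

namespace Pool.Agent.Lib.MP_c05127_co

/-! ## A. Borsuk-Ulam for the cyclic group of order 3 -/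

/-- (Sd) Barycentric subdivision. Uses nothing (lemmas `bd_cone`, `bd_bd`, `act_cone`, ... in Basic).
Define `SdN : ℕ → List _ → Ch _`: `SdN n [] = single [] 1`; `SdN (n+1) l = cone (bary l) (Sd' (bdL l))`
for `l ≠ []`, `Sd'` the linear extension of `SdN n`; `Sd l = SdN l.length l` (`bdL l` is supported by
lists of length `l.length - 1`). `bd (Sd l) = Sd (bd l)` by induction on the length
(`bd (cone b c) = c - cone b (bd c)` and `bd (bd l) = 0`); `bary (l.map g) = g (bary l)` for the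
linear map `mulOm`. Mesh: if all mutual distances of the points of `l`, `length l = k`, are `≤ D` then
`Sd l` is in the span of the lists `l'` of length `k`, with all points in the convex hull of the points
of `l` and all mutual distances `≤ (1 - 1/k) D`: induction on `k`; a point `y` of the convex hull
satisfies `dist (bary l) y ≤ max_i dist (bary l) (x i) ≤ (1 - 1/k) D` since
`bary l - x i = (1/k) ∑ (x j - x i)`. `Cell s` is convex. -/
def SdStmt : Prop :=
  ∀ M : ℕ, ∃ Sd : Ch (Fin M → ℂ) →ₗ[ZMod 3] Ch (Fin M → ℂ),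
    (∀ c, bd (Sd c) = Sd (bd c)) ∧ (∀ c, Sd (act mulOm c) = act mulOm (Sd c)) ∧
    Sd (Finsupp.single [] 1) = Finsupp.single [] 1 ∧
    ∀ (K k : ℕ) (δ : ℝ), 1 ≤ k → k ≤ K → 0 ≤ δ → ∀ c ∈ Sp (Good δ k),
      Sd c ∈ Sp (Good ((1 - 1 / (K : ℝ)) * δ) k)

/-- (Base) Uses nothing. With `e k = Pi.single k 1`: `φ 0 = single [e 0] 1`,
`φ (k+1) = cone (e (k+1)) (theta (act mulOm) k (φ k))`. `bd (φ (k+1)) = θ_k φ_k - cone (θ_k (bd φ_k))`
and `θ_k (bd φ_k) = θ_k (θ_{k-1} φ_{k-1}) = 0` (`theta_theta`, `theta_add_two`, `act3`), for `k = 0`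
`θ_0 (single []) = 0`. The lists occurring in `φ k` consist of points `om ^ s_j • e_j`, `j ≤ k`, each
place once (Good with `δ = 2`). For `k ≥ M` take anything. -/
def BaseStmt : Prop :=
  ∀ M : ℕ, ∃ φ : ℕ → Ch (Fin M → ℂ), (∀ k < M, φ k ∈ Sp (Good 2 (k + 1))) ∧
    (0 < M → bd (φ 0) = Finsupp.single [] 1) ∧
    ∀ k, k + 1 < M → bd (φ (k + 1)) = theta (act mulOm) k (φ k)

/-- (Small) Uses Sd, Base. Apply `Sd` `n` times to the chains of Base, `(1 - 1/M)^n * 2 ≤ δ`. -/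
def SmallStmt : Prop :=
  ∀ (M : ℕ) (δ : ℝ), 0 < δ → ∃ φ : ℕ → Ch (Fin M → ℂ),
    (∀ k < M, φ k ∈ Sp (Good δ (k + 1))) ∧ (0 < M → bd (φ 0) = Finsupp.single [] 1) ∧
    ∀ k, k + 1 < M → bd (φ (k + 1)) = theta (act mulOm) k (φ k)

/-- (WRel) Uses nothing. Direct computations with signs. For the fourth: if `w p.2 = none` the terms
of `dW (insw p w)` for the places `i ≠ p.2` cancel with those of `ins p (dWw w)` (the signs `sg`
before and after the removal / insertion of a letter differ exactly for the later place) and the term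
for `i = p.2` is `w`; if `w p.2 = some p.1` then `insw p w = 0` and only the term of `dWw w` for
`p.2` survives. -/
def WRelStmt : Prop :=
  (∀ (m : ℕ) (c : WC m), dW (dW c) = 0) ∧
  (∀ (m : ℕ) (c : WC m), dW (gW c) = gW (dW c)) ∧
  (∀ (m : ℕ) (c : WC m), gW (gW (gW c)) = c) ∧
  (∀ (m : ℕ) (p : ZMod 3 × Fin m) (w : Wd m), (w p.2 = none ∨ w p.2 = some p.1) →
    dW (insw p w) + ins p (dWw w) = Finsupp.single w 1) ∧
  (∀ (m : ℕ) (p : ZMod 3 × Fin m) (c : WC m), gW (ins p c) = ins (p.1 + 1, p.2) (gW c)) ∧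
  (∀ m : ℕ, dW (eW : WC m) = 0 ∧ gW (eW : WC m) = eW)

/-- (WEx) Exactness. Uses nothing. The shift `σ` acts freely on the nonempty words, an orbit is
`{w, σw, σ²w}`; choose as representative the word whose first letter is `0`. If `gW c = c` the
coefficients are constant on orbits: `z` = part of `c` on the representatives, `c = z + gW z + gW² z`
up to the empty word. If `c + gW c + gW² c = 0` the three coefficients `c₀, c₁, c₂` on
`w, σw, σ²w` have sum `0`: `z = -c₀ w + c₂ σw`. -/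
def WExStmt : Prop :=
  ∀ (m k : ℕ) (c : WC m), theta gW k c = 0 →
    ∃ (z : WC m) (a : ZMod 3), c = theta gW (k + 1) z + a • eW

/-- (PhMap) The labelling gives an equivariant chain map. Uses WRel. `PhL lab l` is in the span of
the words `w` with exactly `l.length` letters, every letter `w j = some s` coming from some `x ∈ l`
with `lab x = (s, j)`. Second claim by induction on the list (the assumption on `R l` is used for the
points of `l` only) with the fourth part of WRel. Third: no word has more than `m` letters. -/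
def PhStmt : Prop :=
  ∀ (X : Type) (g : X → X) (m : ℕ) (lab : X → ZMod 3 × Fin m) (R : List X → Prop),
    (∀ l, R l → ∀ x ∈ l, lab (g x) = ((lab x).1 + 1, (lab x).2)) →
    (∀ l, R l → ∀ x ∈ l, ∀ y ∈ l, (lab x).2 = (lab y).2 → (lab x).1 = (lab y).1) →
    (∀ c ∈ Sp R, Ph lab (act g c) = gW (Ph lab c)) ∧
    (∀ c ∈ Sp R, dW (Ph lab c) = Ph lab (bd c)) ∧
    (∀ l : List X, m < l.length → Ph lab (Finsupp.single l 1) = 0)

/-- (Desc) Uses WRel, WEx, Ph. Put `p k = Ph lab (φ k)`. `p m = 0`. `dW (p (k+1)) = θ_k (p k)` for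
`k < m` and `dW (p 0) = eW`. Claim: for `k ≤ m` there are `y, z, a` with
`p k = dW y + θ_{k+1} z + a • eW`. For `k = m` clear. If it holds for `k + 1` then
`θ_k (p k) = dW (p (k+1)) = θ_{k+2} (dW z) = θ_k (dW z)`, so `θ_k (p k - dW z) = 0` and WEx gives
the claim for `k`. For `k = 0`: `eW = dW (p 0) = c + gW c + gW (gW c)`, `c = dW z`: compare the
coefficients of the empty word: `1 = 3 * _ = 0`. -/
def DescStmt : Prop :=
  ∀ (X : Type) (g : X → X) (m : ℕ) (lab : X → ZMod 3 × Fin m) (R : List X → Prop),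
    (∀ l, R l → R (l.map g)) →
    (∀ l, R l → ∀ x ∈ l, lab (g x) = ((lab x).1 + 1, (lab x).2)) →
    (∀ l, R l → ∀ x ∈ l, ∀ y ∈ l, (lab x).2 = (lab y).2 → (lab x).1 = (lab y).1) →
    ¬ ∃ φ : ℕ → Ch X, (∀ k ≤ m, φ k ∈ Sp (fun l => R l ∧ l.length = k + 1)) ∧
      bd (φ 0) = Finsupp.single [] 1 ∧ ∀ k < m, bd (φ (k + 1)) = theta (act g) k (φ k)

/-- (Sec) Labels of `ℂ^n \ 0`. Uses nothing. `lab y`: take the first `j` with `‖y j‖ = ‖y‖` (sup norm)
and the sector of `y j`: the circle is divided into six half open arcs of length `π/3`, arc number `a`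
(`0 ≤ a < 6`) has type `a % 2` and sign `a / 2`; the second component is `2 j + type`, the first one
is the sign if `e j = 1` and minus the sign if `e j = 2` (multiplication by `om` adds `2` to the arc
number mod 6). Two complex numbers of norm `≥ ε` in different arcs of the same type enclose an angle
`≥ π/3`, so their distance is `≥ ε √3 / 2`. (Instead of arcs one may use the conditions
`Re (z * om⁻¹ ^ s) ≥ (√3/2) ‖z‖` and `Re (-z * om⁻¹ ^ s) ≥ (√3/2) ‖z‖`.) -/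
def SecStmt : Prop :=
  ∀ (n : ℕ) (e : Fin n → ℕ), 0 < n → (∀ j, e j = 1 ∨ e j = 2) →
    ∃ lab : (Fin n → ℂ) → ZMod 3 × Fin (2 * n),
      (∀ y, y ≠ 0 → lab (fun j => om ^ e j * y j) = ((lab y).1 + 1, (lab y).2)) ∧
      ∀ ε : ℝ, 0 < ε → ∀ y y', ε ≤ ‖y‖ → ε ≤ ‖y'‖ → ‖y - y'‖ < ε / 2 →
        (lab y).2 = (lab y').2 → (lab y).1 = (lab y').1

/-- (BU) Uses Small, Desc, Sec. `n = 0` trivial. Suppose `g` has no zero. `M = 2 n + 1`,
`P x = (x_0 + x_1, x_2 + x_3, ..., x_{2n})`, linear; `P x ≠ 0` on the compact set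
`K = ⋃ s, Cell s` (only finitely many cells: `s j` mod 3; `t ω^a + t' ω^b = 0`, `t, t' ≥ 0` implies
`t = t' = 0`). `‖g (P x)‖ ≥ ε` on `K` and `‖g (P x) - g (P y)‖ < ε/2` if `dist x y ≤ δ`. Desc with
`m = 2 n`, `lab x = lab_Sec (g (P x))`, `R l` = `Good δ l.length l`, the chains of Small. -/
def BUStmt : Prop :=
  ∀ (n : ℕ) (e : Fin n → ℕ) (g : (Fin (n + 1) → ℂ) → (Fin n → ℂ)), (∀ j, e j = 1 ∨ e j = 2) →
    ContinuousOn g {0}ᶜ → (∀ z, g (mulOm z) = fun j => om ^ e j * g z j) → ∃ z, z ≠ 0 ∧ g z = 0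

/-! ## B. The plane -/

/-- (Cara) Uses nothing. Caratheodory (`convexHull_eq_union`, affinely independent finite sets have
at most `3` elements): `0` is in the convex hull of `t ⊆ O` with at most 3 elements; every `a ∈ s` has
some `v ∈ t` with `dot v (W a) ≤ 0`; so `s.card ≤ 3 m`. -/
def CaraStmt : Prop :=
  ∀ (ι : Type) (s : Finset ι) (W : ι → ℂ) (m : ℕ) (O : Set ℂ), (∀ v ∈ O, cle s W v ≤ m) →
    3 * m < s.card → (0 : ℂ) ∉ convexHull ℝ O

/-- (Rem) Uses Cara. Otherwise every `a ∈ s` has `v a ≠ 0` with `dot (v a) (W a) ≤ 0` and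
`cle s W (v a) = m`. By Cara `0` is not in the convex hull of the finite set `{v a}`, so there is `y`
with `dot y (v a) > 0` for all `a` (Hahn-Banach); scale: `dot y (v a) = 1`, so
`v a = y / |y|² + λ a • (I * y)`. Let `v₁, v₂` be the ones with minimal and maximal `λ`: each `v a` is
a convex combination of `v₁, v₂`, so `dot v₁ (W a) ≤ 0` or `dot v₂ (W a) ≤ 0` for every `a ∈ s`:
`s.card ≤ 2 m`, contradiction. (`m = 0`: any `a ∈ s`.) -/
def RemStmt : Prop :=
  ∀ (ι : Type) (s : Finset ι) (W : ι → ℂ) (m : ℕ), 3 * m < s.card → Dep s W m →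
    ∃ a ∈ s, Dep (s.erase a) W m

/-- (Cyc) Birch's lemma. Uses nothing. Enumerate `s` by `Fin (3 m)`, `Complex.arg (W (e k))`
monotone. `P j = {e j, e (j+m), e (j+2m)}`. Suppose `dot v` is positive on the three vectors, of
arguments `θ₁ ≤ θ₂ ≤ θ₃`. (Between) if `θ₁ ≤ θ ≤ θ₂`, `θ₂ - θ₁ < π` and `cos (θ₁ - β), cos (θ₂ - β) > 0`
then `cos (θ - β) > 0`, as
`sin (θ₂-θ₁) cos (θ-β) = sin (θ₂-θ) cos (θ₁-β) + sin (θ-θ₁) cos (θ₂-β)`; similarly outside if
`θ₂ - θ₁ > π`; `θ₂ - θ₁ = π` is impossible. One of the three cyclic gaps is `> π` (all three vectors are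
in an open half plane) and all indices outside this gap give vectors with positive `dot v`: at
least `2 m + 1` of them, so `cle s W v ≤ m - 1`, contradiction. -/
def CycStmt : Prop :=
  ∀ (ι : Type) (s : Finset ι) (W : ι → ℂ) (m : ℕ), s.card = 3 * m → (∀ a ∈ s, W a ≠ 0) →
    Dep s W m → Tv s W m

/-- (Birch) Uses Rem, Cyc. Induction on `s.card`. If `W a = 0` for some `a ∈ s` and `m ≥ 1`: the part
`{a}` and the induction hypothesis for `s.erase a`, `m - 1`. Otherwise, if `3 m < s.card`, Rem. -/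
def BirchStmt : Prop :=
  ∀ (ι : Type) (s : Finset ι) (W : ι → ℂ) (m : ℕ), 3 * m ≤ s.card → Dep s W m → Tv s W m

/-- (Pair) Two disjoint antipodal pairs. Uses Birch. The parts `{b, c}`, `{b', c'}` and Birch with
`m = r - 2` for the rest: for `v` not orthogonal to `W b` and `W b'` each pair has exactly one
element with `dot v ≤ 0`; for the other `v` rotate `v` a little (`{a | dot v' (W a) ≤ 0}` is contained in
`{a | dot v (W a) ≤ 0}` for `v'` close to `v`). -/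
def PairStmt : Prop :=
  ∀ (ι : Type) (s : Finset ι) (W : ι → ℂ) (r : ℕ), 3 * r ≤ s.card + 2 → Dep s W r →
    ∀ b ∈ s, ∀ c ∈ s, ∀ b' ∈ s, ∀ c' ∈ s, b ≠ c → b ≠ b' → b ≠ c' → c ≠ b' → c ≠ c' → b' ≠ c' →
    W b ≠ 0 → W b' ≠ 0 → ∀ κ κ' : ℝ, 0 < κ → 0 < κ' → W c = -(κ : ℂ) * W b →
    W c' = -(κ' : ℂ) * W b' → Tv s W r

/-- (Wall) Uses Birch, Pair. (i) if `W a = 0`: the part `{a}` and Birch for `univ.erase a`, `r - 1`.
(ii) let `n₊, n₋` be the numbers of the `a` with `dot v (W a) = 0` and `dot (I v) (W a)` positive /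
negative. Rotating `v` a little: `cle = clt v + n₋` resp. `clt v + n₊`, so `n₊, n₋ ≥ r - clt v ≥ 1`; if
`clt v ≤ r - 2` there are two disjoint antipodal pairs: Pair. (iii) for `v`, `v'` not parallel (ii) gives
two antipodal pairs on different lines, hence four different elements: Pair. -/
def WallStmt : Prop :=
  ∀ (ι : Type) [Fintype ι] (W : ι → ℂ) (r : ℕ), 1 ≤ r → Fintype.card ι = 3 * r - 2 →
    Dep Finset.univ W r → ¬ Tv Finset.univ W r →
    (∀ a, W a ≠ 0) ∧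
    (∀ v : ℂ, v ≠ 0 → clt Finset.univ W v < r → clt Finset.univ W v + 1 = r ∧
      ∃ b c, dot v (W b) = 0 ∧ dot v (W c) = 0 ∧ 0 < dot (Complex.I * v) (W b) ∧
        dot (Complex.I * v) (W c) < 0) ∧
    (∀ v v' : ℂ, v ≠ 0 → v' ≠ 0 → clt Finset.univ W v < r → clt Finset.univ W v' < r →
      dot (Complex.I * v) v' = 0)

/-- (Fc) Uses nothing. Continuity of a parametric integral over a compact set; the rotation by `z`
preserves the ball and Lebesgue measure, `dot v (z * w) = dot (conj z * v) w`. -/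
def FcStmt : Prop :=
  ∀ (ι : Type) [Fintype ι] (n : ℕ), Continuous (Fav n : (ι → ℂ) → ℂ) ∧
    ∀ z : ℂ, ‖z‖ = 1 → ∀ W : ι → ℂ, Fav n (fun a => z * W a) = z * Fav n W

/-- (Fh) Uses nothing. `dot u (Fav n W) = ∫ rho n W v * dot u v` over the ball. The reflection
`v' = v - 2 (dot u v / |u|²) u` preserves the ball and the measure, `dot u v' = -dot u v`, and
`dot v' (W a) = dot v (W a) - 2 (dot u v/|u|²) dot u (W a)`; so for `dot u v > 0` we have
`rho n W v' ≤ rho n W v`, and the integral is `∫_{dot u v > 0} (rho v - rho v') dot u v ≥ 0`. It is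
positive in the second case: the integrand is continuous and at `v = u / (2‖u‖)` we have `rho v > 0`
and `rho v' = 0` (`1 ≤ n`). -/
def FhStmt : Prop :=
  ∀ (ι : Type) [Fintype ι] (n : ℕ), 1 ≤ n → ∀ (W : ι → ℂ) (u : ℂ), u ≠ 0 →
    (∀ a, 0 ≤ dot u (W a)) → 0 ≤ dot u (Fav n W) ∧
      (n ≤ (Finset.univ.filter (fun a => 0 < dot u (W a))).card → 0 < dot u (Fav n W))

/-- (Fz) Uses Cara. `rho (2r-1) W v > 0` iff at least `2r-1` of the `dot v (W a)` are positive iff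
`cle v < r`; let `O` be the open set of these `v` (`0 ∉ O` since `cle 0 = 3r-2 ≥ r`). If `Dep` then
`O = ∅` and `Fav = 0`. Otherwise by Cara (`m = r - 1`) `0` is not in the open set `convexHull O`,
so there is `y` with `dot y v > 0` for all `v ∈ O`, and `dot y (Fav W) > 0`. If `Fav W = -c e` with
`c > 0`: `∫ rho * dot (I e) v = 0`, so there are `v, v' ∈ O` (may be normalized) with
`dot (I e) v ≥ 0 ≥ dot (I e) v'`; as `dot y e < 0`: if `dot (I e) v = 0` then `v` is a positive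
multiple of `-e`, similarly for `v'`; otherwise a positive combination of `v, v'` is orthogonal to
`I e`, hence (pair with `y`) a positive multiple of `-e`. -/
def FzStmt : Prop :=
  ∀ (ι : Type) [Fintype ι] (r : ℕ), 1 ≤ r → Fintype.card ι = 3 * r - 2 → ∀ W : ι → ℂ,
    (Dep Finset.univ W r → Fav (2 * r - 1) W = 0) ∧
    (¬ Dep Finset.univ W r → Fav (2 * r - 1) W ≠ 0) ∧
    (∀ (e : ℂ) (c : ℝ), 0 < c → e ≠ 0 → Fav (2 * r - 1) W = -(c : ℂ) * e →
      ∃ v v' : ℂ, ‖v‖ = 1 ∧ ‖v'‖ = 1 ∧ cle Finset.univ W v < r ∧ cle Finset.univ W v' < r ∧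
        ∃ s s' : ℝ, 0 ≤ s ∧ 0 ≤ s' ∧ (s : ℂ) * v + s' * v' = -e)

/-- the configurations with the given property -/
def TT (ι : Type) [Fintype ι] (r : ℕ) : Set (ι → ℂ) := {W | Tv Finset.univ W r}
/-- depth at least `r` -/
def YY (ι : Type) [Fintype ι] (r : ℕ) : Set (ι → ℂ) := {W | Dep Finset.univ W r}
/-- walls with `W a₀` on the line -/
def C0 (ι : Type) [Fintype ι] (r : ℕ) (a₀ : ι) : Set (ι → ℂ) :=
  {W | Dep Finset.univ W r ∧ ∃ v : ℂ, ‖v‖ = 1 ∧ clt Finset.univ W v < r ∧ dot v (W a₀) = 0}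
/-- walls with `W a₀` on the negative side -/
def Cm (ι : Type) [Fintype ι] (r : ℕ) (a₀ : ι) : Set (ι → ℂ) :=
  {W | Dep Finset.univ W r ∧ ∃ v : ℂ, ‖v‖ = 1 ∧ clt Finset.univ W v < r ∧ dot v (W a₀) < 0}

/-- (Clos) Uses Wall. `{(W, v) | clt W v < r}` is closed (`clt ≥ r` is open); `TT`, `YY` are finite
unions of intersections of closed conditions resp. intersections (`m ≤ cle s W v` is closed in
`W`); `C0` is a projection along the compact circle. If `W_n → W`, `v_n` witnesses for `W_n ∈ Cm`,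
`v_n → v` (subsequence): `clt W v < r`, `W ∈ YY`, `dot v (W a₀) ≤ 0`; if it is `0` then `a₀` is counted
in `clt W_n v_n` but not in `clt W v`, so `clt W v + 1 < r` and by Wall (ii) `W ∈ TT`. -/
def ClosStmt : Prop :=
  ∀ (ι : Type) [Fintype ι] (r : ℕ) (a₀ : ι), 1 ≤ r → Fintype.card ι = 3 * r - 2 →
    IsClosed (TT ι r) ∧ IsClosed (YY ι r) ∧ IsClosed (C0 ι r a₀) ∧
    closure (Cm ι r a₀) ⊆ Cm ι r a₀ ∪ TT ι r

/-- `h` does not vanish on `YY \ TT` and is not opposite to a wall direction -/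
def HProp (ι : Type) [Fintype ι] (r : ℕ) (h : (ι → ℂ) → ℂ) : Prop :=
  Continuous h ∧ (∀ z : ℂ, ‖z‖ = 1 → ∀ W : ι → ℂ, h (fun a => z * W a) = z * h W) ∧
  ∀ W : ι → ℂ, Dep Finset.univ W r → ¬ Tv Finset.univ W r → h W ≠ 0 ∧
    ∀ v : ℂ, ‖v‖ = 1 → clt Finset.univ W v < r → ∀ c : ℝ, 0 ≤ c → h W ≠ -(c : ℂ) * v

/-- (Hfun) Uses Clos, Wall. `h W = (α + I β) W a₀`, `α = infDist W (Cm ∪ TT)`,
`β = infDist W (C0 ∪ TT)` (`TT` contains `W = 0`). All sets are invariant under multiplication by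
unit complex numbers (`(W, v) ↦ (z W, z v)`), which is an isometry. Let `W ∈ YY \ TT`, `w = W a₀ ≠ 0`
(Wall (i)). `α = β = 0` gives `W ∈ Cm` and `W ∈ C0`: `v`, `v'` parallel by Wall (iii), contradiction.
Suppose `h W = -c v`, `c > 0`. If `dot v w < 0`: `W ∈ Cm`, `α = 0`, `I β w = -c v`, so `dot v w = 0`. If
`dot v w = 0`: `W ∈ C0`, `β = 0`, `α w = -c v`, so `dot v w ≠ 0`. If `dot v w > 0`:
`w = -c v (α - I β)/(α² + β²)`, `dot v w = -c α / (α² + β²) ≤ 0`. -/
def HfunStmt : Prop :=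
  ∀ (ι : Type) [Fintype ι] (r : ℕ), 1 ≤ r → Fintype.card ι = 3 * r - 2 →
    ∃ h : (ι → ℂ) → ℂ, HProp ι r h

/-- the bad set -/
def Bad (ι : Type) [Fintype ι] (r : ℕ) (h : (ι → ℂ) → ℂ) : Set (ι → ℂ) :=
  {W | ¬ Dep Finset.univ W r ∧ ∃ c : ℝ, 0 ≤ c ∧ Fav (2 * r - 1) W = -(c : ℂ) * h W}

/-- (BadS) Uses Fz, Wall. Let `W_n ∈ Bad`, `W_n → W ∈ YY`, `W ∉ TT`. `h W ≠ 0`, so `h W_n ≠ 0`;
`Fav W_n ≠ 0`, so `c_n > 0` and Fz gives unit vectors `v_n, v'_n` with `cle W_n < r` and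
`s_n v_n + s'_n v'_n = - h W_n`. Subsequence: `v_n → v`, `v'_n → v'`; `clt W v < r`, `clt W v' < r`; by
Wall (iii) `v' = v` or `v' = -v`. If `v' = v`: `s_n + s'_n` is bounded (pair with `v`), in the limit
`h W = -c v`, `c ≥ 0`: contradiction to HProp. If `v' = -v`: take `b, c` from Wall (ii) for `v`. Exactly
`r - 1` elements have `dot v (W a) < 0`, they are the only ones with `dot v_n (W_n a) ≤ 0` for large
`n`; so `dot v_n` is positive on `W_n b` and `W_n c`, and similarly `dot v'_n` (elements with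
`dot (-v) (W a) < 0`). Write `v'_n = -cos η v_n + sin η (I v_n)`: `sin η * dot (I v_n) (W_n b) > 0` and
`sin η * dot (I v_n) (W_n c) > 0`; in the limit `dot (I v) (W b)`, `dot (I v) (W c)` have weakly the
same sign, contradiction to Wall (ii). -/
def BadStmt : Prop :=
  ∀ (ι : Type) [Fintype ι] (r : ℕ) (h : (ι → ℂ) → ℂ), 1 ≤ r → Fintype.card ι = 3 * r - 2 →
    HProp ι r h → closure (Bad ι r h) ∩ YY ι r ⊆ TT ι r

/-- (Field) The main field. Uses Clos, Hfun, BadS, Fc, Fh, Fz, Wall. `Hc` = configurations with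
`dot u (W a) ≥ 0` for all `a` for some unit vector `u`: closed, and `Hc ∩ YY ⊆ TT` by Wall (ii) (`clt = 0`;
`r = 1` has no `W ∈ YY \ TT`: (ii) gives two elements). `f W = Fav W + γ * h W`,
`γ = infDist W (Bad ∪ Hc ∪ TT)`, invariant under unit complex numbers. `f W = 0`: if `W ∈ YY` then
`Fav W = 0`; `γ = 0` gives `W ∈ TT` (closures), `h W = 0` too. If `W ∉ YY`: `γ = 0` gives
`Fav W = 0`, contradiction; `γ > 0` means `W ∈ Bad`, contradiction. For `W ∈ Hc`: `γ = 0`, Fh. -/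
def FieldStmt : Prop :=
  ∀ (ι : Type) [Fintype ι] (r : ℕ), 1 ≤ r → Fintype.card ι = 3 * r - 2 →
    ∃ f : (ι → ℂ) → ℂ, Continuous f ∧
      (∀ z : ℂ, ‖z‖ = 1 → ∀ W : ι → ℂ, f (fun a => z * W a) = z * f W) ∧
      (∀ W, f W = 0 → Tv Finset.univ W r) ∧
      ∀ (W : ι → ℂ) (u : ℂ), u ≠ 0 → (∀ a, 0 ≤ dot u (W a)) →
        0 ≤ dot u (f W) ∧ (cle Finset.univ W u < r → 0 < dot u (f W))

/-! ## C. Geometry -/

/-- (Geo) Uses BU, Field. BU with `n = d`, `e 0 = 2`, `e j = 1` otherwise. A point of `ℂ^{d+1}` is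
`(z, ζ)`, `z ∈ ℂ^d`, `ζ ∈ ℂ`. `t = max 0 (‖z‖ - ‖ζ‖)`, `s = max 0 (‖ζ‖ - ‖z‖)`, `⟨a, z⟩ = ∑ a_j z_j`,
`w_a = (Re (conj ζ * ⟨a, z⟩) - t) * ⟨a, z⟩`. `g_0 = ∑ z_j²`, `g_i = f_i (w_a)_{a} + s ζ`. A zero: case
`‖ζ‖ ≥ ‖z‖`: `t = 0`, `ζ ≠ 0`, `dot ζ w_a = (Re (conj ζ ⟨a, z⟩))² ≥ 0`, so by Field
`0 = dot ζ g_i ≥ s ‖ζ‖²` and `s = 0`, `‖z‖ = ‖ζ‖ ≠ 0`, `dot ζ (f_i) = 0`, so at least `r i` of the
`dot ζ w_a` are `≤ 0`, i.e. `Re (conj ζ ⟨a, z⟩) = ⟨a, u⟩ = 0` with `u = ζ_1 x + ζ_2 y`, `z = x + i y`; `x, y`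
are linearly independent (`∑ z_j² = 0`, `z ≠ 0`: orthogonal, of equal norm), `u ≠ 0`: contradiction to
the assumption. Case `‖ζ‖ < ‖z‖`: `s = 0`, `f_i (w) = 0`, so `Tv`; `q = u / t`:
`w_a = t (⟨a, q⟩ - 1)(⟨a, x⟩ + i ⟨a, y⟩)` (`Tv` is invariant under positive scaling). -/
def GeoStmt : Prop :=
  ∀ (d : ℕ), 2 ≤ d → ∀ r : Fin (d - 1) → ℕ, (∀ i, 1 ≤ r i) →
    ∀ a : (i : Fin (d - 1)) → Fin (3 * r i - 2) → E d,
    (∀ u : E d, u ≠ 0 → ∃ i, (Finset.univ.filter (fun k => inner ℝ (a i k) u = (0 : ℝ))).card < r i) →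
    ∃ x y q : E d, LinearIndependent ℝ ![x, y] ∧ q ∈ Submodule.span ℝ {x, y} ∧
      ∀ i, Tv Finset.univ (fun k => (((inner ℝ (a i k) q - 1 : ℝ) : ℂ) *
        ⟨inner ℝ (a i k) x, inner ℝ (a i k) y⟩)) (r i)

/-- (Hyp) Normal vectors. Uses nothing. -/
def HypStmt : Prop :=
  ∀ (d : ℕ) (h : AffineSubspace ℝ (E d)), (h : Set (E d)).Nonempty →
    Module.finrank ℝ h.direction + 1 = d → (0 : E d) ∉ h →
    ∃ a : E d, a ≠ 0 ∧ (∀ x, x ∈ h ↔ inner ℝ a x = (1 : ℝ)) ∧
      ∀ x, x ∈ h.direction ↔ inner ℝ a x = (0 : ℝ)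

/-- (Fin) Uses Geo, Hyp. Enumerate `A i` by `Fin (3 r i - 2)`, take normal vectors, apply Geo;
`L = span {x, y}`; the parts are the images of the parts of `Tv`, the remaining hyperplanes are added
to the first part. For `v = α x + β y ≠ 0` in `L` there is `a` in the part with
`dot (α + i β) w_a = (⟨a, q⟩ - 1) ⟨a, v⟩ ≤ 0`: `v` is parallel to the hyperplane or
`t = (1 - ⟨a, q⟩) / ⟨a, v⟩ ≥ 0` works. `RD ≥ 1`: `sInf` of a nonempty set of numbers `≥ 1`. -/
def FinStmt : Prop :=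
  ∀ (d : ℕ) (r : Fin (d - 1) → ℕ) (A : Fin (d - 1) → Finset (AffineSubspace ℝ (E d))), 2 ≤ d →
    (∀ i, 1 ≤ r i) → (∀ i, IsArr (A i)) → (∀ i, (A i).card = 3 * (r i - 1) + 1) →
    NoDir r A → Concl r A

/-- (Gen1) Uses nothing. Otherwise there is `u ≠ 0` and subsets `S i` of `A i` of cardinality `r i`
with `u` in all their directions; take `d` elements of `⋃ S i`. -/
def Gen1Stmt : Prop :=
  ∀ (d : ℕ) (r : Fin (d - 1) → ℕ) (A : Fin (d - 1) → Finset (AffineSubspace ℝ (E d))), 2 ≤ d →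
    GenPos A → d ≤ ∑ i, r i → NoDir r A

/-- (Gen2) Uses Hyp. Take subsets `S i` of `A i` of cardinality `r i`; the at most `d - 1` hyperplanes
of `S = ⋃ S i` have linearly independent normal vectors (`x ↦ (⟨a_h, x⟩)_h` has kernel
`⨅ h.direction` of dimension `d - |S|`, so it is surjective): there is `q` in all of them; `q ≠ 0`.
`L` any plane containing `q`; the parts are `{h}`, `h ∈ S i`, with the other elements added to the
first one; every ray from `q` meets `h` at `q`. -/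
def Gen2Stmt : Prop :=
  ∀ (d : ℕ) (r : Fin (d - 1) → ℕ) (A : Fin (d - 1) → Finset (AffineSubspace ℝ (E d))), 2 ≤ d →
    (∀ i, 1 ≤ r i) → (∀ i, IsArr (A i)) → (∀ i, (A i).card = 3 * (r i - 1) + 1) →
    GenPos A → ∑ i, r i < d → Concl r A

end Pool.Agent.Lib.MP_c05127_co
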