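import Mathlib

set_option linter.all false

/-!
MP_c05127_co (Tverberg-Vrecica for regression depth), the case k = 2. Definitions used in the
final statement.
-/

open scoped Classical

namespace Pool.Agent.Lib.MP_c05127_co

/-! ## The final statement -/

/-- Euclidean space -/
abbrev E (d : ℕ) : Type := EuclideanSpace ℝ (Fin d)

/-- a finite set of hyperplanes of `ℝ^d`, none of them through the origin -/
def IsArr {d : ℕ} (A : Finset (AffineSubspace ℝ (E d))) : Prop :=
  ∀ h ∈ A, (h : Set (E d)).Nonempty ∧ Module.finrank ℝ h.direction + 1 = d ∧ (0 : E d) ∉ h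

/-- the ray from `q` in the direction `v` meets `h` or is parallel to `h` -/
def Hits {d : ℕ} (h : AffineSubspace ℝ (E d)) (q v : E d) : Prop :=
  (∃ t : ℝ, 0 ≤ t ∧ q + t • v ∈ h) ∨ v ∈ h.direction

/-- the regression depth of `q` in `L` -/
noncomputable def RD {d : ℕ} (A : Finset (AffineSubspace ℝ (E d))) (q : E d)
    (L : Submodule ℝ (E d)) : ℕ :=
  sInf {n | ∃ v ∈ L, v ≠ 0 ∧ n = (A.filter (fun h => Hits h q v)).card}

/-- the conclusion of Q1 for `k = 2` -/
def Concl {d : ℕ} (r : Fin (d - 1) → ℕ) (A : Fin (d - 1) → Finset (AffineSubspace ℝ (E d))) :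
    Prop :=
  ∃ L : Submodule ℝ (E d), Module.finrank ℝ L = 2 ∧ ∃ q ∈ L, ∀ i,
    ∃ P : Fin (r i) → Finset (AffineSubspace ℝ (E d)),
      (∀ j j', j ≠ j' → Disjoint (P j) (P j')) ∧ (∀ h, h ∈ A i ↔ ∃ j, h ∈ P j) ∧
      ∀ j, 1 ≤ RD (P j) q L

/-- no direction is parallel to at least `r i` members of `A i` for every `i` -/
def NoDir {d : ℕ} (r : Fin (d - 1) → ℕ) (A : Fin (d - 1) → Finset (AffineSubspace ℝ (E d))) :
    Prop :=
  ∀ u : E d, u ≠ 0 → ∃ i, ((A i).filter (fun h => u ∈ h.direction)).card < r i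

/-- the arrangements are pairwise disjoint and their union is in general position -/
def GenPos {d : ℕ} (A : Fin (d - 1) → Finset (AffineSubspace ℝ (E d))) : Prop :=
  (∀ i j, i ≠ j → Disjoint (A i) (A j)) ∧
  ∀ S : Finset (AffineSubspace ℝ (E d)), (∀ h ∈ S, ∃ i, h ∈ A i) → S.card ≤ d →
    Module.finrank ℝ (⨅ h ∈ S, h.direction : Submodule ℝ (E d)) + S.card = d

end Pool.Agent.Lib.MP_c05127_co
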