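import Pool.Agent.Lib.MP_c05127_co.Spec

set_option linter.all false

open scoped Classical

namespace Pool.Agent.Lib.MP_c05127_co

namespace WEx

/-- the shift on words -/
def sh {m : ℕ} (w : Wd m) : Wd m := fun i => (w i).map (· + 1)

/-- the empty word -/
def emw {m : ℕ} : Wd m := fun _ => none

theorem sh3 {m : ℕ} (w : Wd m) : sh (sh (sh w)) = w := by
  funext i
  unfold sh
  cases h : w i with
  | none => rfl
  | some a =>
    simp only [Option.map_some, Option.some.injEq]
    clear h
    revert a
    decide

theorem sh_inj {m : ℕ} : Function.Injective (sh : Wd m → Wd m) := by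
  intro a b h
  rw [← sh3 a, ← sh3 b, h]

theorem sh_em {m : ℕ} : sh (emw : Wd m) = emw := rfl

theorem sh_ne {m : ℕ} {w : Wd m} (h : w ≠ emw) : sh w ≠ emw := by
  intro h2
  apply h
  rw [← sh3 w, h2, sh_em, sh_em]

theorem gW_apply {m : ℕ} (c : WC m) (w : Wd m) : gW c w = c (sh (sh w)) := by
  have h1 : gW c = Finsupp.mapDomain sh c := rfl
  have h2 := Finsupp.mapDomain_apply (sh_inj (m := m)) c (sh (sh w))
  rw [h1]
  rw [sh3 w] at h2
  exact h2

/-- the support of a word -/
def su {m : ℕ} (w : Wd m) : Set (Fin m) := {j | w j ≠ none}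

theorem su_sh {m : ℕ} (w : Wd m) : su (sh w) = su w := by
  ext j
  unfold su sh
  cases h : w j <;> simp [h]

/-- a chosen element of a set -/
noncomputable def pick {m : ℕ} (S : Set (Fin m)) : Option (Fin m) :=
  if h : S.Nonempty then some h.some else none

/-- a chosen letter -/
noncomputable def ph {m : ℕ} (w : Wd m) : ZMod 3 :=
  match pick (su w) with
  | none => 0
  | some j => (w j).getD 0

theorem ph_sh {m : ℕ} {w : Wd m} (hw : w ≠ emw) : ph (sh w) = ph w + 1 := by
  have h1 : (su w).Nonempty := by
    by_contra hcon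
    rw [Set.not_nonempty_iff_eq_empty] at hcon
    apply hw
    funext j
    by_contra hj
    have : j ∈ su w := hj
    rw [hcon] at this
    exact this
  have h2 : pick (su w) = some h1.some := by
    unfold pick
    rw [dif_pos h1]
  unfold ph
  rw [su_sh, h2]
  have h3 : w h1.some ≠ none := h1.some_mem
  obtain ⟨a, ha⟩ := Option.ne_none_iff_exists'.mp h3
  simp only [sh, ha, Option.map_some, Option.getD_some]

theorem eW_em {m : ℕ} (a : ZMod 3) : (a • eW : WC m) emw = a := by
  unfold eW
  rw [Finsupp.smul_apply]
  have : (Finsupp.single (fun _ => none) (1 : ZMod 3) : WC m) emw = 1 := Finsupp.single_eq_same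
  rw [this]
  simp

theorem eW_ne {m : ℕ} (a : ZMod 3) {w : Wd m} (hw : w ≠ emw) : (a • eW : WC m) w = 0 := by
  unfold eW
  rw [Finsupp.smul_apply]
  have : (Finsupp.single (fun _ => none) (1 : ZMod 3) : WC m) w = 0 :=
    Finsupp.single_eq_of_ne hw
  rw [this]
  simp

theorem three (x : ZMod 3) : x = 0 ∨ x = 1 ∨ x = 2 := by
  revert x
  decide

end WEx

open WEx

theorem wexStmt : WExStmt := by
  intro m k c hc
  by_cases hk : Even k
  · have hk' : ¬ Even (k + 1) := by
      rw [Nat.even_add_one]
      simpa using hk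
    rw [theta_even gW hk, sub_eq_zero] at hc
    have h2 : ∀ w, c (sh (sh w)) = c w := fun w => by
      rw [← gW_apply, hc]
    have h1 : ∀ w, c (sh w) = c w := fun w => by
      rw [← h2 (sh w), sh3]
    set z : WC m := Finsupp.equivFunOnFinite.symm
      (fun w => if w ≠ emw ∧ ph w = 0 then c w else 0) with hz
    have hzw : ∀ w, z w = if w ≠ emw ∧ ph w = 0 then c w else 0 := fun w => rfl
    refine ⟨z, c emw, ?_⟩
    rw [theta_odd gW hk']
    ext w
    rw [Finsupp.add_apply, Finsupp.add_apply, Finsupp.add_apply, gW_apply, gW_apply, gW_apply,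
      sh3]
    by_cases hw : w = emw
    · subst hw
      rw [eW_em, sh_em, sh_em, hzw]
      simp
    · rw [eW_ne _ hw, hzw, hzw, hzw, h2, h1, ph_sh (sh_ne hw), ph_sh hw]
      simp only [hw, sh_ne hw, sh_ne (sh_ne hw), ne_eq, not_false_eq_true, true_and, add_zero]
      rcases three (ph w) with h | h | h
      · rw [h]
        have e1 : ((0 : ZMod 3) + 1 + 1) ≠ 0 := by decide
        have e2 : ((0 : ZMod 3) + 1) ≠ 0 := by decide
        rw [if_pos rfl, if_neg e1, if_neg e2]
        ring
      · rw [h]
        have e1 : ((1 : ZMod 3) + 1 + 1) = 0 := by decide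
        have e2 : ((1 : ZMod 3) + 1) ≠ 0 := by decide
        rw [if_neg (by decide), if_pos e1, if_neg e2]
        ring
      · rw [h]
        have e1 : ((2 : ZMod 3) + 1 + 1) ≠ 0 := by decide
        have e2 : ((2 : ZMod 3) + 1) = 0 := by decide
        rw [if_neg (by decide), if_neg e1, if_pos e2]
        ring
  · have hk' : Even (k + 1) := by
      rw [Nat.even_add_one]
      exact hk
    rw [theta_odd gW hk] at hc
    have h3 : ∀ w, c w + c (sh (sh w)) + c (sh w) = 0 := fun w => by
      have := DFunLike.congr_fun hc w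
      rw [Finsupp.add_apply, Finsupp.add_apply, gW_apply, gW_apply, gW_apply, sh3] at this
      exact this
    set z : WC m := Finsupp.equivFunOnFinite.symm
      (fun w => if w = emw then 0 else if ph w = 0 then -c w else if ph w = 1 then c (sh w)
        else 0) with hz
    have hzw : ∀ w, z w = if w = emw then 0 else if ph w = 0 then -c w else
      if ph w = 1 then c (sh w) else 0 := fun w => rfl
    refine ⟨z, c emw, ?_⟩
    rw [theta_even gW hk']
    ext w
    rw [Finsupp.add_apply, Finsupp.sub_apply, gW_apply]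
    by_cases hw : w = emw
    · subst hw
      rw [eW_em, sh_em, sh_em, hzw]
      simp
    · rw [eW_ne _ hw, hzw, hzw, if_neg hw, if_neg (sh_ne (sh_ne hw)), ph_sh (sh_ne hw),
        ph_sh hw, sh3]
      have h4 := h3 w
      rcases three (ph w) with h | h | h
      · rw [h]
        have e1 : ((0 : ZMod 3) + 1 + 1) ≠ 0 := by decide
        have e2 : ((0 : ZMod 3) + 1 + 1) ≠ 1 := by decide
        rw [if_neg e1, if_neg e2, if_pos rfl]
        ring
      · rw [h]
        have e1 : ((1 : ZMod 3) + 1 + 1) = 0 := by decide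
        rw [if_pos e1, if_neg (by decide), if_pos rfl]
        linear_combination h4
      · rw [h]
        have e1 : ((2 : ZMod 3) + 1 + 1) ≠ 0 := by decide
        have e2 : ((2 : ZMod 3) + 1 + 1) = 1 := by decide
        rw [if_neg e1, if_pos e2, if_neg (by decide), if_neg (by decide)]
        ring

end Pool.Agent.Lib.MP_c05127_co
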