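import Pool.Agent.Lib.MP_c05127_co.Spec

set_option linter.all false

/-! Module WRel: relations between the boundary, the insertions and the shift of words. -/

open scoped Classical

namespace Pool.Agent.Lib.MP_c05127_co.WRel

/-- the shift of a word -/
def sh {m : ℕ} (w : Wd m) : Wd m := fun i => (w i).map (· + 1)

lemma sh_eq_none {m : ℕ} (w : Wd m) (i : Fin m) : sh w i = none ↔ w i = none := by
  unfold sh; simp

lemma sh_update {m : ℕ} (w : Wd m) (i : Fin m) (x : Option (ZMod 3)) :
    sh (Function.update w i x) = Function.update (sh w) i (x.map (· + 1)) := by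
  funext j
  unfold sh
  by_cases h : j = i
  · subst h; simp
  · simp [Function.update_of_ne h]

lemma sh3 {m : ℕ} (w : Wd m) : sh (sh (sh w)) = w := by
  funext j
  unfold sh
  cases h : w j with
  | none => simp
  | some a =>
    simp only [Option.map_some]
    congr 1
    have : (1 : ZMod 3) + 1 + 1 = 0 := by decide
    linear_combination this

lemma dW_single {m : ℕ} (w : Wd m) : dW (Finsupp.single w 1) = dWw w := by
  unfold dW; simp

lemma ins_single {m : ℕ} (p : ZMod 3 × Fin m) (w : Wd m) :
    ins p (Finsupp.single w 1) = insw p w := by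
  unfold ins; simp

lemma gW_single {m : ℕ} (w : Wd m) (a : ZMod 3) :
    gW (Finsupp.single w a) = Finsupp.single (sh w) a := by
  unfold gW
  rw [Finsupp.lmapDomain_apply, Finsupp.mapDomain_single]
  rfl

lemma sg_update_of_not_lt {m : ℕ} (w : Wd m) (i j : Fin m) (x : Option (ZMod 3))
    (h : ¬ i < j) : sg (Function.update w i x) j = sg w j := by
  unfold sg
  congr 2
  apply Finset.filter_congr
  intro k _
  constructor
  · rintro ⟨h1, h2⟩
    refine ⟨h1, ?_⟩
    have hk : k ≠ i := fun hh => h (hh ▸ h1)
    rwa [Function.update_of_ne hk] at h2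
  · rintro ⟨h1, h2⟩
    refine ⟨h1, ?_⟩
    have hk : k ≠ i := fun hh => h (hh ▸ h1)
    rwa [Function.update_of_ne hk]

lemma sg_update_none {m : ℕ} (w : Wd m) (i j : Fin m) (h : i < j) (hw : w i ≠ none) :
    sg (Function.update w i none) j = - sg w j := by
  unfold sg
  have hset : (Finset.univ.filter (fun k : Fin m => k < j ∧ w k ≠ none)) =
      insert i (Finset.univ.filter
        (fun k : Fin m => k < j ∧ Function.update w i none k ≠ none)) := by
    ext k
    simp only [Finset.mem_insert, Finset.mem_filter, Finset.mem_univ, true_and]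
    by_cases hk : k = i
    · subst hk
      simp [h, hw]
    · rw [Function.update_of_ne hk]
      simp [hk]
  have hnot : i ∉ (Finset.univ.filter
      (fun k : Fin m => k < j ∧ Function.update w i none k ≠ none)) := by
    simp
  rw [hset, Finset.card_insert_of_notMem hnot, pow_succ]
  ring

lemma sg_update_some {m : ℕ} (w : Wd m) (i j : Fin m) (s : ZMod 3) (h : i < j)
    (hw : w i = none) : sg (Function.update w i (some s)) j = - sg w j := by
  have h1 := sg_update_none (Function.update w i (some s)) i j h (by simp)
  have h2 : Function.update (Function.update w i (some s)) i none = w := by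
    rw [Function.update_idem, ← hw, Function.update_eq_self]
  rw [h2] at h1
  rw [h1, neg_neg]

lemma sg_sh {m : ℕ} (w : Wd m) (j : Fin m) : sg (sh w) j = sg w j := by
  unfold sg
  congr 2
  apply Finset.filter_congr
  intro k _
  rw [Ne, sh_eq_none]

lemma sg_sq {m : ℕ} (w : Wd m) (j : Fin m) : sg w j * sg w j = 1 := by
  unfold sg
  rw [← mul_pow]
  simp

lemma dW_dWw {m : ℕ} (w : Wd m) : dW (dWw w) = 0 := by
  set F : Fin m → Fin m → WC m := fun j i =>
    if w j = none then 0 else if Function.update w j none i = none then 0 else
      (sg w j * sg (Function.update w j none) i) •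
        Finsupp.single (Function.update (Function.update w j none) i none) 1 with hF
  have h1 : dW (dWw w) = ∑ j, ∑ i, F j i := by
    unfold dWw
    rw [map_sum]
    apply Finset.sum_congr rfl
    intro j _
    by_cases hj : w j = none
    · simp [hF, hj]
    · rw [if_neg hj, map_smul, dW_single]
      unfold dWw
      rw [Finset.smul_sum]
      apply Finset.sum_congr rfl
      intro i _
      simp only [hF, if_neg hj]
      by_cases hi : Function.update w j none i = none
      · rw [if_pos hi, if_pos hi, smul_zero]
      · rw [if_neg hi, if_neg hi, smul_smul]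
  have hlt : ∀ i j, i < j → F j i = - F i j := by
    intro i j hij
    have hne : i ≠ j := hij.ne
    simp only [hF]
    by_cases hj : w j = none
    · rw [if_pos hj, Function.update_of_ne hne.symm, if_pos hj]
      simp
    · by_cases hi : w i = none
      · rw [if_neg hj, if_pos hi, Function.update_of_ne hne, if_pos hi]
        simp
      · rw [if_neg hj, if_neg hi, Function.update_of_ne hne, if_neg hi,
          Function.update_of_ne hne.symm, if_neg hj, sg_update_of_not_lt w j i none (not_lt.2 hij.le),
          sg_update_none w i j hij hi, Function.update_comm hne.symm, mul_neg, neg_smul, neg_neg,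
          mul_comm]
  have hanti : ∀ i j, F j i = - F i j := by
    intro i j
    rcases lt_trichotomy i j with h | h | h
    · exact hlt i j h
    · subst h
      have : F i i = 0 := by
        simp [hF]
      rw [this, neg_zero]
    · rw [hlt j i h, neg_neg]
  have h2 : dW (dWw w) = - dW (dWw w) := by
    calc dW (dWw w) = ∑ j, ∑ i, F j i := h1
      _ = ∑ j, ∑ i, (- F i j) := by
          apply Finset.sum_congr rfl; intro j _
          apply Finset.sum_congr rfl; intro i _
          exact hanti i j
      _ = - ∑ j, ∑ i, F i j := by
          simp only [Finset.sum_neg_distrib]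
      _ = - ∑ i, ∑ j, F i j := by rw [Finset.sum_comm]
      _ = - dW (dWw w) := by rw [h1]
  set S : WC m := dW (dWw w)
  have h3 : S + S + S = 0 := by
    have h : (3 : ZMod 3) • S = 0 := by
      rw [show (3 : ZMod 3) = 0 by decide, zero_smul]
    have h' : (3 : ZMod 3) • S = S + S + S := by
      rw [show (3 : ZMod 3) = 1 + 1 + 1 by decide, add_smul, add_smul, one_smul]
    rw [← h', h]
  have h4 : S + S = 0 := by
    nth_rewrite 1 [h2]
    exact neg_add_cancel S
  rw [h4, zero_add] at h3
  exact h3

lemma dW_dW {m : ℕ} (c : WC m) : dW (dW c) = 0 := by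
  have h : (dW ∘ₗ dW : WC m →ₗ[ZMod 3] WC m) = 0 := by
    apply Finsupp.lhom_ext'
    intro w
    apply LinearMap.ext_ring
    simp only [LinearMap.comp_apply, Finsupp.lsingle_apply, dW_single, dW_dWw,
      LinearMap.zero_apply]
  exact LinearMap.congr_fun h c

lemma dWw_sh {m : ℕ} (w : Wd m) : dWw (sh w) = gW (dWw w) := by
  unfold dWw
  rw [map_sum]
  apply Finset.sum_congr rfl
  intro j _
  by_cases hj : w j = none
  · rw [if_pos hj, if_pos ((sh_eq_none w j).2 hj), map_zero]
  · rw [if_neg hj, if_neg (fun h => hj ((sh_eq_none w j).1 h)), map_smul, gW_single, sg_sh,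
      sh_update]
    rfl

lemma dW_gW {m : ℕ} (c : WC m) : dW (gW c) = gW (dW c) := by
  have h : (dW ∘ₗ gW : WC m →ₗ[ZMod 3] WC m) = gW ∘ₗ dW := by
    apply Finsupp.lhom_ext'
    intro w
    apply LinearMap.ext_ring
    simp only [LinearMap.comp_apply, Finsupp.lsingle_apply, dW_single, gW_single, dWw_sh]
  exact LinearMap.congr_fun h c

lemma gW3 {m : ℕ} (c : WC m) : gW (gW (gW c)) = c := by
  have h : (gW ∘ₗ gW ∘ₗ gW : WC m →ₗ[ZMod 3] WC m) = LinearMap.id := by
    apply Finsupp.lhom_ext'
    intro w
    apply LinearMap.ext_ring
    simp only [LinearMap.comp_apply, Finsupp.lsingle_apply, gW_single, sh3, LinearMap.id_apply]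
  exact LinearMap.congr_fun h c

lemma insw_sh {m : ℕ} (p : ZMod 3 × Fin m) (w : Wd m) :
    gW (insw p w) = insw (p.1 + 1, p.2) (sh w) := by
  unfold insw
  by_cases h : w p.2 = none
  · rw [if_pos h, if_pos ((sh_eq_none w p.2).2 h), map_smul, gW_single, sg_sh, sh_update]
    rfl
  · rw [if_neg h, if_neg (fun hh => h ((sh_eq_none w p.2).1 hh)), map_zero]

lemma gW_ins {m : ℕ} (p : ZMod 3 × Fin m) (c : WC m) :
    gW (ins p c) = ins (p.1 + 1, p.2) (gW c) := by
  have h : (gW ∘ₗ ins p : WC m →ₗ[ZMod 3] WC m) = ins (p.1 + 1, p.2) ∘ₗ gW := by
    apply Finsupp.lhom_ext'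
    intro w
    apply LinearMap.ext_ring
    simp only [LinearMap.comp_apply, Finsupp.lsingle_apply, ins_single, gW_single, insw_sh]
  exact LinearMap.congr_fun h c

lemma homotopy {m : ℕ} (p : ZMod 3 × Fin m) (w : Wd m) (hw : w p.2 = none ∨ w p.2 = some p.1) :
    dW (insw p w) + ins p (dWw w) = Finsupp.single w 1 := by
  obtain ⟨s, a⟩ := p
  simp only at hw
  have hins : ins (s, a) (dWw w) = ∑ j, if w j = none then 0 else
      sg w j • insw (s, a) (Function.update w j none) := by
    unfold dWw
    rw [map_sum]
    apply Finset.sum_congr rfl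
    intro j _
    by_cases hj : w j = none
    · rw [if_pos hj, if_pos hj, map_zero]
    · rw [if_neg hj, if_neg hj, map_smul, ins_single]
  rcases hw with hw | hw
  · have hupd : Function.update (Function.update w a (some s)) a none = w := by
      rw [Function.update_idem, ← hw, Function.update_eq_self]
    have h1 : dW (insw (s, a) w) = ∑ j, if Function.update w a (some s) j = none then 0 else
        (sg w a * sg (Function.update w a (some s)) j) •
          Finsupp.single (Function.update (Function.update w a (some s)) j none) 1 := by
      unfold insw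
      simp only
      rw [if_pos hw, map_smul, dW_single]
      unfold dWw
      rw [Finset.smul_sum]
      apply Finset.sum_congr rfl
      intro j _
      by_cases hj : Function.update w a (some s) j = none
      · rw [if_pos hj, if_pos hj, smul_zero]
      · rw [if_neg hj, if_neg hj, smul_smul]
    rw [h1, hins, ← Finset.sum_add_distrib, Finset.sum_eq_single a]
    · rw [if_neg (by simp), if_pos hw, add_zero, hupd,
        sg_update_of_not_lt w a a (some s) (lt_irrefl a), sg_sq, one_smul]
    · intro j _ hja
      rw [Function.update_of_ne hja]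
      by_cases hj : w j = none
      · rw [if_pos hj, if_pos hj, add_zero]
      · rw [if_neg hj, if_neg hj]
        unfold insw
        simp only
        rw [if_pos (by rw [Function.update_of_ne hja.symm]; exact hw), smul_smul,
          Function.update_comm hja.symm]
        rcases lt_or_gt_of_ne hja with h | h
        · rw [sg_update_of_not_lt w a j (some s) (not_lt.2 h.le), sg_update_none w j a h hj,
            ← add_smul]
          rw [show sg w a * sg w j + sg w j * -sg w a = 0 by ring, zero_smul]
        · rw [sg_update_some w a j s h hw, sg_update_of_not_lt w j a none (not_lt.2 h.le),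
            ← add_smul]
          rw [show sg w a * -sg w j + sg w j * sg w a = 0 by ring, zero_smul]
    · intro h
      exact absurd (Finset.mem_univ a) h
  · have h0 : insw (s, a) w = 0 := by
      unfold insw
      simp only
      rw [if_neg (by rw [hw]; simp)]
    rw [h0, map_zero, zero_add, hins, Finset.sum_eq_single a]
    · rw [if_neg (by rw [hw]; simp)]
      unfold insw
      simp only
      rw [if_pos (by simp), smul_smul, sg_update_of_not_lt w a a none (lt_irrefl a), sg_sq,
        one_smul, Function.update_idem, ← hw, Function.update_eq_self]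
    · intro j _ hja
      by_cases hj : w j = none
      · rw [if_pos hj]
      · rw [if_neg hj]
        unfold insw
        simp only
        rw [if_neg (by rw [Function.update_of_ne hja.symm, hw]; simp), smul_zero]
    · intro h
      exact absurd (Finset.mem_univ a) h

lemma empty {m : ℕ} : dW (eW : WC m) = 0 ∧ gW (eW : WC m) = eW := by
  constructor
  · unfold eW
    rw [dW_single]
    unfold dWw
    simp
  · unfold eW
    rw [gW_single]
    rfl

end Pool.Agent.Lib.MP_c05127_co.WRel

namespace Pool.Agent.Lib.MP_c05127_co

theorem wrelStmt : WRelStmt :=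
  ⟨fun _ c => WRel.dW_dW c, fun _ c => WRel.dW_gW c, fun _ c => WRel.gW3 c,
    fun _ p w h => WRel.homotopy p w h, fun _ p c => WRel.gW_ins p c, fun _ => WRel.empty⟩

end Pool.Agent.Lib.MP_c05127_co
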