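import Pool.Agent.Lib.MP_c05127_co.Spec

set_option linter.all false

open scoped Classical

namespace Pool.Agent.Lib.MP_c05127_co.Wall

open Filter Topology

lemma dot_cont (w : ℂ) (v u : ℂ) : Continuous (fun ε : ℝ => dot (v + (ε : ℂ) * u) w) := by
  unfold dot
  fun_prop

lemma norm_expand (v w : ℂ) : ((dot v v : ℝ) : ℂ) * w =
    (dot v w : ℂ) * v + (dot (Complex.I * v) w : ℂ) * (Complex.I * v) := by
  unfold dot
  apply Complex.ext
  · simp
    ring
  · simp
    ring

lemma eq_of_orth {v w : ℂ} (hv : v ≠ 0) (h : dot v w = 0) :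
    w = ((dot (Complex.I * v) w / dot v v : ℝ) : ℂ) * (Complex.I * v) := by
  have h1 := norm_expand v w
  have h2 : dot v v ≠ 0 := (dot_self_pos hv).ne'
  have h3 : ((dot v v : ℝ) : ℂ) ≠ 0 := by exact_mod_cast h2
  rw [h] at h1
  apply mul_left_cancel₀ h3
  rw [h1]
  push_cast
  field_simp
  simp

lemma orth_ne {v w : ℂ} (hv : v ≠ 0) (hw : w ≠ 0) (h : dot v w = 0) :
    dot (Complex.I * v) w ≠ 0 := by
  intro h1
  apply hw
  rw [eq_of_orth hv h, h1]
  simp

lemma pair_scale {v w w' : ℂ} (hv : v ≠ 0) (h : dot v w = 0) (h' : dot v w' = 0)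
    (hp : 0 < dot (Complex.I * v) w) (hn : dot (Complex.I * v) w' < 0) :
    ∃ κ : ℝ, 0 < κ ∧ w' = -(κ : ℂ) * w := by
  refine ⟨-(dot (Complex.I * v) w' / dot (Complex.I * v) w), ?_, ?_⟩
  · rw [neg_pos]
    exact div_neg_of_neg_of_pos hn hp
  · have e1 := eq_of_orth hv h
    have e2 := eq_of_orth hv h'
    set x := dot (Complex.I * v) w with hx
    set y := dot (Complex.I * v) w' with hy
    rw [e2, e1]
    have hx0 : (x : ℂ) ≠ 0 := by exact_mod_cast hp.ne'
    have h2 : ((dot v v : ℝ) : ℂ) ≠ 0 := by exact_mod_cast (dot_self_pos hv).ne'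
    push_cast
    field_simp

lemma rot {ι : Type} [Fintype ι] (W : ι → ℂ) (r : ℕ) (hD : Dep Finset.univ W r) (v u : ℂ)
    (hv : v ≠ 0) : r ≤ clt Finset.univ W v +
      (Finset.univ.filter (fun a => dot v (W a) = 0 ∧ dot u (W a) ≤ 0)).card := by
  have hev : ∀ᶠ ε : ℝ in 𝓝[>] 0, ∀ a, 0 < dot v (W a) → 0 < dot (v + (ε : ℂ) * u) (W a) := by
    rw [Filter.eventually_all]
    intro a
    by_cases ha : 0 < dot v (W a)
    · have h1 : Tendsto (fun ε : ℝ => dot (v + (ε : ℂ) * u) (W a)) (𝓝[>] 0) (𝓝 (dot v (W a))) := by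
        have h2 := ((dot_cont (W a) v u).tendsto 0).mono_left (nhdsWithin_le_nhds (s := Set.Ioi 0))
        simpa using h2
      filter_upwards [h1.eventually (lt_mem_nhds ha)] with ε hε _ using hε
    · filter_upwards with ε h using absurd h ha
  have hev2 : ∀ᶠ ε : ℝ in 𝓝[>] 0, v + (ε : ℂ) * u ≠ 0 := by
    have h1 : Tendsto (fun ε : ℝ => v + (ε : ℂ) * u) (𝓝[>] 0) (𝓝 v) := by
      have hc : Continuous (fun ε : ℝ => v + (ε : ℂ) * u) := by fun_prop
      have h2 := (hc.tendsto 0).mono_left (nhdsWithin_le_nhds (s := Set.Ioi 0))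
      simpa using h2
    exact h1.eventually_ne hv
  have hev3 : ∀ᶠ ε : ℝ in 𝓝[>] 0, 0 < ε := self_mem_nhdsWithin
  obtain ⟨ε, h1, h2, h3⟩ := (hev.and (hev2.and hev3)).exists
  refine (hD _ h2).trans ?_
  unfold cle clt
  rw [← Finset.card_union_of_disjoint]
  · apply Finset.card_le_card
    intro a ha
    simp only [Finset.mem_filter, Finset.mem_univ, true_and, Finset.mem_union] at ha ⊢
    rcases lt_trichotomy (dot v (W a)) 0 with h | h | h
    · exact Or.inl h
    · refine Or.inr ⟨h, ?_⟩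
      rw [add_dot, smul_dot, h, zero_add] at ha
      exact nonpos_of_mul_nonpos_right ha h3
    · exact absurd ha (not_le.2 (h1 a h))
  · rw [Finset.disjoint_filter]
    intro a _ h h'
    exact absurd h'.1 h.ne

/-- a part with one element -/
lemma tv_cons {ι : Type} [Fintype ι] (W : ι → ℂ) (m : ℕ) (a : ι) (ha : W a = 0)
    (h : Tv (Finset.univ.erase a) W m) : Tv Finset.univ W (m + 1) := by
  obtain ⟨P, h1, h2, h3⟩ := h
  have hda : ∀ j, Disjoint {a} (P j) := by
    intro j
    rw [Finset.disjoint_singleton_left]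
    intro hh
    exact (Finset.notMem_erase a _) (h1 j hh)
  refine ⟨Fin.cons {a} P, fun j => Finset.subset_univ _, ?_, ?_⟩
  · intro i j hij
    induction i using Fin.cases with
    | zero =>
      induction j using Fin.cases with
      | zero => exact absurd rfl hij
      | succ j => simpa using hda j
    | succ i =>
      induction j using Fin.cases with
      | zero => simpa using (hda i).symm
      | succ j =>
        simp only [Fin.cons_succ]
        exact h2 i j (fun h => hij (by rw [h]))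
  · intro j v
    induction j using Fin.cases with
    | zero => exact ⟨a, by simp, by rw [ha]; simp⟩
    | succ j => simpa using h3 j v

end Wall

open Wall in
theorem wallStmt (h1 : BirchStmt) (h2 : PairStmt) : WallStmt := by
  intro ι _ W r hr hcard hD hT
  have hne : ∀ a, W a ≠ 0 := by
    intro a ha
    apply hT
    obtain ⟨m, rfl⟩ : ∃ m, r = m + 1 := ⟨r - 1, by omega⟩
    apply tv_cons W m a ha
    apply h1
    · rw [Finset.card_erase_of_mem (Finset.mem_univ a), Finset.card_univ]
      omega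
    · intro v hv
      have h3 := hD v hv
      unfold cle at h3 ⊢
      have h4 : (Finset.univ.erase a).filter (fun b => dot v (W b) ≤ 0) =
          (Finset.univ.filter (fun b => dot v (W b) ≤ 0)).erase a := by
        ext b
        simp only [Finset.mem_filter, Finset.mem_erase, Finset.mem_univ, true_and, and_true]
      rw [h4, Finset.card_erase_of_mem]
      · omega
      · simp only [Finset.mem_filter, Finset.mem_univ, true_and]
        rw [ha]
        simp
  have hcard2 : 3 * r ≤ (Finset.univ : Finset ι).card + 2 := by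
    rw [Finset.card_univ]
    omega
  have hii : ∀ v : ℂ, v ≠ 0 → clt Finset.univ W v < r → clt Finset.univ W v + 1 = r ∧
      ∃ b c, dot v (W b) = 0 ∧ dot v (W c) = 0 ∧ 0 < dot (Complex.I * v) (W b) ∧
        dot (Complex.I * v) (W c) < 0 := by
    intro v hv hlt
    have hm := rot W r hD v (Complex.I * v) hv
    have hp := rot W r hD v (-(Complex.I * v)) hv
    have hm' : ∀ a ∈ Finset.univ.filter (fun a => dot v (W a) = 0 ∧
        dot (Complex.I * v) (W a) ≤ 0), dot v (W a) = 0 ∧ dot (Complex.I * v) (W a) < 0 := by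
      intro a ha
      simp only [Finset.mem_filter, Finset.mem_univ, true_and] at ha
      exact ⟨ha.1, lt_of_le_of_ne ha.2 (orth_ne hv (hne a) ha.1)⟩
    have hp' : ∀ a ∈ Finset.univ.filter (fun a => dot v (W a) = 0 ∧
        dot (-(Complex.I * v)) (W a) ≤ 0), dot v (W a) = 0 ∧ 0 < dot (Complex.I * v) (W a) := by
      intro a ha
      simp only [Finset.mem_filter, Finset.mem_univ, true_and] at ha
      refine ⟨ha.1, lt_of_le_of_ne ?_ (orth_ne hv (hne a) ha.1).symm⟩
      have := ha.2
      rw [neg_dot] at this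
      linarith
    set N := Finset.univ.filter (fun a => dot v (W a) = 0 ∧ dot (Complex.I * v) (W a) ≤ 0) with hN
    set Q := Finset.univ.filter (fun a => dot v (W a) = 0 ∧
      dot (-(Complex.I * v)) (W a) ≤ 0) with hQ
    constructor
    · by_contra hcon
      apply hT
      have hN2 : 1 < N.card := by omega
      have hQ2 : 1 < Q.card := by omega
      obtain ⟨c, hc, c', hc', hcc⟩ := Finset.one_lt_card.1 hN2
      obtain ⟨b, hb, b', hb', hbb⟩ := Finset.one_lt_card.1 hQ2
      obtain ⟨c1, c2⟩ := hm' c hc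
      obtain ⟨c1', c2'⟩ := hm' c' hc'
      obtain ⟨b1, b2⟩ := hp' b hb
      obtain ⟨b1', b2'⟩ := hp' b' hb'
      obtain ⟨κ, hκ, e1⟩ := pair_scale hv b1 c1 b2 c2
      obtain ⟨κ', hκ', e2⟩ := pair_scale hv b1' c1' b2' c2'
      have hd : ∀ x y, 0 < dot (Complex.I * v) (W x) → dot (Complex.I * v) (W y) < 0 → x ≠ y := by
        rintro x y hx hy rfl
        exact lt_asymm hx hy
      exact h2 ι Finset.univ W r hcard2 hD b (Finset.mem_univ _) c (Finset.mem_univ _) b'
        (Finset.mem_univ _) c' (Finset.mem_univ _) (hd _ _ b2 c2) hbb (hd _ _ b2 c2')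
        (hd _ _ b2' c2).symm hcc (hd _ _ b2' c2') (hne _) (hne _) κ κ' hκ hκ' e1 e2
    · have hN1 : 0 < N.card := by omega
      have hQ1 : 0 < Q.card := by omega
      obtain ⟨c, hc⟩ := Finset.card_pos.1 hN1
      obtain ⟨b, hb⟩ := Finset.card_pos.1 hQ1
      obtain ⟨c1, c2⟩ := hm' c hc
      obtain ⟨b1, b2⟩ := hp' b hb
      exact ⟨b, c, b1, c1, b2, c2⟩
  refine ⟨hne, hii, ?_⟩
  intro v v' hv hv' hlt hlt'
  by_contra hcon
  apply hT
  obtain ⟨-, b, c, b1, c1, b2, c2⟩ := hii v hv hlt
  obtain ⟨-, b', c', b1', c1', b2', c2'⟩ := hii v' hv' hlt'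
  obtain ⟨κ, hκ, e1⟩ := pair_scale hv b1 c1 b2 c2
  obtain ⟨κ', hκ', e2⟩ := pair_scale hv' b1' c1' b2' c2'
  have hd : ∀ x y, dot v (W x) = 0 → dot v' (W y) = 0 → x ≠ y := by
    rintro x y hx hy rfl
    have e := eq_of_orth hv hx
    have hz := orth_ne hv (hne x) hx
    rw [e, ← dot_comm, smul_dot, dot_comm] at hy
    rw [dot_comm] at hy
    rcases mul_eq_zero.1 hy with h | h
    · rcases div_eq_zero_iff.1 h with h | h
      · exact hz h
      · exact (dot_self_pos hv).ne' h
    · exact hcon h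
  have hbc : b ≠ c := by
    rintro rfl
    exact lt_asymm b2 c2
  have hbc' : b' ≠ c' := by
    rintro rfl
    exact lt_asymm b2' c2'
  exact h2 ι Finset.univ W r hcard2 hD b (Finset.mem_univ _) c (Finset.mem_univ _) b'
    (Finset.mem_univ _) c' (Finset.mem_univ _) hbc (hd _ _ b1 b1') (hd _ _ b1 c1')
    (hd _ _ c1 b1') (hd _ _ c1 c1') hbc' (hne _) (hne _) κ κ' hκ hκ' e1 e2

end Pool.Agent.Lib.MP_c05127_co
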